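import Mathlib
import Pool.Agent.Work.MP_bf98aa_gt.Ns.Flow
import Pool.Agent.Work.MP_7ba843_gt.N.SurfC
import Pool.Agent.Work.MP_735653_gt.Reg

-- merged part: Pool.Agent.Work.MP_7ba843_gt.C.DefP
section
-- merged part: Pool.Agent.Work.MP_7ba843_gt.C.DefP
section
/-! Path functionals with values in a group, tuples and Nielsen moves. FROZEN: do not edit. -/

open Set

noncomputable section
namespace Pool.Agent.Work.MP_7ba843_gt.C

/-- three-space -/
abbrev E3 : Type := Fin 3 → ℝ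

/-- four-space -/
abbrev E4 : Type := E3 × ℝ

/-- the unit square -/
abbrev Sq : Set (ℝ × ℝ) := Icc 0 1 ×ˢ Icc 0 1

section
variable {Y : Type} [TopologicalSpace Y] {G : Type} [Group G]

/-- `c` restricted to the unit interval is a path in `S` -/
def IsP (S : Set Y) (c : ℝ → Y) : Prop := ContinuousOn c (Icc 0 1) ∧ MapsTo c (Icc 0 1) S

/-- concatenation -/
def cat {Y : Type} (c d : ℝ → Y) : ℝ → Y := fun s => if s ≤ 1 / 2 then c (2 * s) else d (2 * s - 1)

/-- `h` is a homomorphism from the fundamental groupoid of `S` to `G` -/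
structure IsPF (S : Set Y) (h : (ℝ → Y) → G) : Prop where
  congr : ∀ c d, EqOn c d (Icc 0 1) → h c = h d
  const : ∀ a ∈ S, h (fun _ => a) = 1
  sq : ∀ H : ℝ × ℝ → Y, ContinuousOn H Sq → MapsTo H Sq S →
    h (fun s => H (0, s)) * h (fun t => H (t, 1)) = h (fun t => H (t, 0)) * h (fun s => H (1, s))

/-- `h` is an equivalence from the fundamental groupoid of `S` to `G` -/
structure IsHol (S : Set Y) (h : (ℝ → Y) → G) : Prop extends IsPF S h where
  inj : ∀ c d, IsP S c → IsP S d → c 0 = d 0 → c 1 = d 1 → h c = h d →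
    ∃ H : ℝ × ℝ → Y, ContinuousOn H Sq ∧ MapsTo H Sq S ∧
      (∀ s ∈ Icc (0 : ℝ) 1, H (0, s) = c s ∧ H (1, s) = d s) ∧
      ∀ t ∈ Icc (0 : ℝ) 1, H (t, 0) = c 0 ∧ H (t, 1) = c 1
  surj : ∀ a ∈ S, ∀ b ∈ S, ∀ w : G, ∃ c, IsP S c ∧ c 0 = a ∧ c 1 = b ∧ h c = w

/-- `φ` is the homomorphism induced by `h` on the fundamental group of `Z` along `f` -/
def Ind {Z : Type} [TopologicalSpace Z] (h : (ℝ → Y) → G) (f : Z → Y) (z : Z)
    (φ : FundamentalGroup Z z →* G) : Prop :=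
  ∀ γ : Path z z, φ (Path.Homotopic.Quotient.mk γ) = (h fun t => f (γ.extend t))⁻¹

/-- `h'` is obtained from `h` by a change of gauge, on paths in `S` -/
def Gauge (S : Set Y) (h h' : (ℝ → Y) → G) (γ : Y → G) : Prop :=
  ∀ c, IsP S c → h' c = (γ (c 0))⁻¹ * h c * γ (c 1)

end

/-- the segment from `a` to `b` -/
def seg {E : Type} [AddCommGroup E] [Module ℝ E] (a b : E) : ℝ → E := fun t => a + t • (b - a)

section
variable {ι G : Type} [Group G]

/-- simultaneous conjugacy -/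
def Conj (v v' : ι → G) : Prop := ∃ w : G, ∀ j, v' j = w⁻¹ * v j * w

variable [DecidableEq ι]

/-- elementary Nielsen moves -/
def Move (v v' : ι → G) : Prop :=
  (∃ i, v' = Function.update v i (v i)⁻¹) ∨
    ∃ i j, i ≠ j ∧ v' = Function.update v i (v i * v j)

/-- Nielsen equivalence -/
def NE : (ι → G) → (ι → G) → Prop := Relation.ReflTransGen Move

/-- inversion -/
def mInv (i : ι) (v : ι → G) : ι → G := Function.update v i (v i)⁻¹

/-- exchange with inversion -/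
def mSwap (i j : ι) (v : ι → G) : ι → G :=
  Function.update (Function.update v i (v j)⁻¹) j (v i)⁻¹

/-- slide with inversion -/
def mTh (i j : ι) (v : ι → G) : ι → G :=
  Function.update (Function.update v i (v i)⁻¹) j (v i * v j)

end

/-- the homomorphism that sends the first `r` generators to `s` and the others to `1` -/
def std {G : Type} [Group G] (g : ℕ) {r : ℕ} (s : Fin r → G) : FreeGroup (Fin g) →* G :=
  FreeGroup.lift fun i => if h : i.1 < r then s ⟨i.1, h⟩ else 1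

/-- the base point of the model -/
def p0 : E3 := ![1, 1, 1]

/-- the value of `h` on the loop around the `j`-th handle -/
def tj {G : Type} [Group G] (h : (ℝ → E3) → G) (j : ℕ) : G :=
  h (seg p0 ![8 * j + 5, 1, 1]) * h (seg ![8 * j + 5, 1, 1] ![8 * j + 5, 5, 1]) *
    h (seg ![8 * j + 5, 5, 1] ![8 * j + 9, 5, 1]) * h (seg ![8 * j + 9, 5, 1] ![8 * j + 9, 1, 1]) *
    h (seg ![8 * j + 9, 1, 1] p0)

/-- the tuple of these values -/
def tup {G : Type} [Group G] (g : ℕ) (h : (ℝ → E3) → G) : Fin g → G := fun j => tj h j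

/-- the second loop of the theta graph -/
def tc {G : Type} [Group G] (h : (ℝ → E3) → G) : G :=
  h (seg p0 ![9, 1, 1]) * h (seg ![9, 1, 1] ![9, 5, 1]) * h (seg ![9, 5, 1] ![17, 5, 1]) *
    h (seg ![17, 5, 1] ![17, 1, 1]) * h (seg ![17, 1, 1] p0)

/-- the tuple for the theta graph -/
def tupC {G : Type} [Group G] (g : ℕ) (h : (ℝ → E3) → G) : Fin g → G :=
  fun j => if j.1 = 1 then tc h else tj h j

/-- the five segments of the `j`-th loop lie in `S` -/
def Segs (S : Set E3) (j : ℕ) : Prop :=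
  IsP S (seg p0 ![8 * j + 5, 1, 1]) ∧ IsP S (seg ![8 * j + 5, 1, 1] ![8 * j + 5, 5, 1]) ∧
    IsP S (seg ![8 * j + 5, 5, 1] ![8 * j + 9, 5, 1]) ∧
    IsP S (seg ![8 * j + 9, 5, 1] ![8 * j + 9, 1, 1]) ∧ IsP S (seg ![8 * j + 9, 1, 1] p0)

/-- the five segments of the second loop of the theta graph lie in `S` -/
def SegsC (S : Set E3) : Prop :=
  IsP S (seg p0 ![9, 1, 1]) ∧ IsP S (seg ![9, 1, 1] ![9, 5, 1]) ∧
    IsP S (seg ![9, 5, 1] ![17, 5, 1]) ∧ IsP S (seg ![17, 5, 1] ![17, 1, 1]) ∧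
    IsP S (seg ![17, 1, 1] p0)

/-- the maximal tree of the core graph -/
def tree (g : ℕ) : Set E3 :=
  {x | x 2 = 1 ∧ ((x 1 = 1 ∧ 1 ≤ x 0 ∧ x 0 ≤ 8 * g + 5) ∨
    ∃ i : ℕ, i ≤ 2 * g + 1 ∧ x 0 = 4 * i + 1 ∧ 1 ≤ x 1 ∧ x 1 ≤ 5)}

/-- a segment on the line of the bridges -/
def Ls (a b : ℝ) : Set E3 := {x | a ≤ x 0 ∧ x 0 ≤ b ∧ x 1 = 5 ∧ x 2 = 1}

/-- the core graph -/
def core (g : ℕ) : Set E3 := tree g ∪ ⋃ j < g, Ls (8 * (j : ℕ) + 5) (8 * (j : ℕ) + 9)

/-- a compact neighbourhood of the tree -/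
def Cb (g : ℕ) : Set E3 :=
  {x | |x 2 - 1| ≤ 1 / 2 ∧ 1 / 2 ≤ x 1 ∧ x 1 ≤ 11 / 2 ∧ 1 / 2 ≤ x 0 ∧ x 0 ≤ 8 * g + 11 / 2 ∧
    (x 1 ≤ 3 / 2 ∨ ∃ i : ℕ, |x 0 - (4 * i + 1)| ≤ 1 / 2)}

/-- a box -/
def Bx (a b : E3) : Set E3 := {x | ∀ i, a i ≤ x i ∧ x i ≤ b i}

/-- the inclusion of three-space into four-space -/
def i34 (x : E3) : E4 := (x, 0)

/-- a smooth family of invertible two by two matrices that is the identity off `(a, b)` -/
structure Tw (a b : ℝ) where
  p : ℝ → ℝ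
  q : ℝ → ℝ
  r : ℝ → ℝ
  s : ℝ → ℝ
  sp : ContDiff ℝ (⊤ : ℕ∞) p
  sq : ContDiff ℝ (⊤ : ℕ∞) q
  sr : ContDiff ℝ (⊤ : ℕ∞) r
  ss : ContDiff ℝ (⊤ : ℕ∞) s
  det : ∀ t, p t * s t - q t * r t ≠ 0
  out : ∀ t, t ∉ Ioo a b → p t = 1 ∧ q t = 0 ∧ r t = 0 ∧ s t = 1

/-- the twist about the first axis -/
def Tw.k0 {a b : ℝ} (τ : Tw a b) (x : E3) : E3 :=
  ![x 0, τ.p (x 0) * x 1 + τ.q (x 0) * x 2, τ.r (x 0) * x 1 + τ.s (x 0) * x 2]

/-- the twist about the line of the bridges -/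
def Tw.k {a b : ℝ} (τ : Tw a b) (x : E3) : E3 := ![0, 5, 1] + τ.k0 (x - ![0, 5, 1])

/-- the twist, cut off below -/
def Tw.kh {a b : ℝ} (τ : Tw a b) (x : E3) : E3 :=
  x + Real.smoothTransition (x 1 - 3) • (τ.k x - x)

/-- a smooth isotopy of a vector space through injective immersions -/
structure Isot {E : Type} [NormedAddCommGroup E] [NormedSpace ℝ E] (m : ℝ → E → E) : Prop where
  smooth : ContDiff ℝ (⊤ : ℕ∞) fun p : ℝ × E => m p.1 p.2
  zero : ∀ x, m 0 x = x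
  inj : ∀ t ∈ Icc (0 : ℝ) 1, Function.Injective (m t)
  imm : ∀ t ∈ Icc (0 : ℝ) 1, ∀ x, Function.Injective (fderiv ℝ (m t) x)

end Pool.Agent.Work.MP_7ba843_gt.C
end
end

-- merged part: Pool.Agent.Work.MP_7ba843_gt.C.DefA
section
/-! A compact 4-manifold inside a vector space, its ambient isotopies, embeddings into it.
FROZEN: do not edit. -/

open Set Filter Topology
open scoped ContDiff

noncomputable section
namespace Pool.Agent.Work.MP_7ba843_gt.C

open Pool.Agent.Work.MP_bf98aa_gt.Ns (Dif)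

variable {V : Type} [NormedAddCommGroup V] [NormedSpace ℝ V]

/-- a chart of `M` at `y` with values in all of four-space -/
structure Chart (M : Set V) (y : V) where
  χ : E4 → V
  ρ : V → E4
  W : Set V
  isOpen : IsOpen W
  mem : y ∈ W
  sχ : ContDiff ℝ ∞ χ
  sρ : ContDiffOn ℝ ∞ ρ W
  χ_mem : ∀ a, χ a ∈ M ∩ W
  ρχ : ∀ a, ρ (χ a) = a
  χρ : ∀ z ∈ M ∩ W, χ (ρ z) = z

/-- a compact 4-manifold `M` with a smooth retraction of a neighbourhood -/
structure Amb (V : Type) [NormedAddCommGroup V] [NormedSpace ℝ V] where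
  M : Set V
  U : Set V
  r : V → V
  compact : IsCompact M
  isOpen : IsOpen U
  sub : M ⊆ U
  smooth : ContDiff ℝ ∞ r
  maps : ∀ y ∈ U, r y ∈ M
  fix : ∀ y ∈ M, r y = y
  chart : ∀ y ∈ M, Nonempty (Chart M y)

/-- a diffeomorphism that preserves `M`, with a homotopy from the identity -/
structure Ist (A : Amb V) where
  f : ℝ → V → V
  d : Dif V
  cont : Continuous fun p : ℝ × V => f p.1 p.2
  zero : ∀ y, f 0 y = y
  one : ∀ y, f 1 y = d y
  maps : ∀ t ∈ Icc (0 : ℝ) 1, ∀ y ∈ A.M, f t y ∈ A.M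
  inv : ∀ y ∈ A.M, d.symm y ∈ A.M

variable {E : Type} [NormedAddCommGroup E] [NormedSpace ℝ E]

/-- an embedding into `M` along `K` -/
structure Emb (A : Amb V) (K : Set E) (Φ : E → V) : Prop where
  smooth : ContDiff ℝ ∞ Φ
  maps : ∀ᶠ x in 𝓝ˢ K, Φ x ∈ A.M
  inj : InjOn Φ K
  imm : ∀ x ∈ K, Function.Injective (fderiv ℝ Φ x)

/-- a family of embeddings of `K` -/
structure Fam (A : Amb V) (K : Set E) (Φ : ℝ → E → V) : Prop where
  smooth : ContDiff ℝ ∞ fun p : ℝ × E => Φ p.1 p.2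
  maps : ∀ t ∈ Icc (0 : ℝ) 1, ∀ x ∈ K, Φ t x ∈ A.M
  inj : ∀ t ∈ Icc (0 : ℝ) 1, InjOn (Φ t) K
  imm : ∀ t ∈ Icc (0 : ℝ) 1, ∀ x ∈ K, Function.Injective (fderiv ℝ (Φ t) x)

/-- an isotopy that fixes `Y` carries `Φ` to `Φ'` near `K` -/
def Mv (A : Amb V) (Y : Set V) (K : Set E) (Φ Φ' : E → V) : Prop :=
  ∃ ξ : Ist A, (∀ t ∈ Icc (0 : ℝ) 1, ∀ y ∈ Y, ξ.f t y = y) ∧ ∀ᶠ x in 𝓝ˢ K, ξ.d (Φ x) = Φ' x

/-- an isotopy with compact support in `G` carries `Φ` to `Φ'` near `K` -/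
def Mc (A : Amb V) (G : Set V) (K : Set E) (Φ Φ' : E → V) : Prop :=
  ∃ (ξ : Ist A) (C : Set V), IsCompact C ∧ C ⊆ G ∧ (∀ y, y ∉ C → ξ.d y = y) ∧
    ∀ᶠ x in 𝓝ˢ K, ξ.d (Φ x) = Φ' x

/-- an ambient diffeomorphism carries the pair `(B, S)` to `(B', S')` -/
def Same (A : Amb V) (B S B' S' : Set V) : Prop := ∃ ξ : Ist A, ξ.d '' B = B' ∧ ξ.d '' S = S'

/-- maps that are the inclusion on the segment, and near its part outside `(a', b')` -/
structure Adm (a b a' b' : ℝ) (h : E3 → E4) : Prop where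
  smooth : ContDiff ℝ ∞ h
  on : ∀ x ∈ Ls a b, h x = i34 x
  near : ∀ x ∈ Ls a b, x 0 ∉ Ioo a' b' → h =ᶠ[𝓝 x] i34

/-- the straight homotopy from `h` to `h'` is immersive along the segment -/
def SegI (a b : ℝ) (h h' : E3 → E4) : Prop :=
  ∀ t ∈ Icc (0 : ℝ) 1, ∀ x ∈ Ls a b,
    Function.Injective ((1 - t) • fderiv ℝ h x + t • fderiv ℝ h' x)

end Pool.Agent.Work.MP_7ba843_gt.C
end
end

-- merged part: Pool.Agent.Work.MP_7ba843_gt.C.Util
section
/-! Calculus tools.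

PLAN. `ext_smooth`: multiply by the cut-off of `Ns.exists_cut` (`Ns.contDiff_of_supp`).
`nhd_inj`: injective linear maps are open (`ContinuousLinearMap.isOpen_injective`); local
injectivity at `x`: compose with a linear left inverse `l` of the derivative
(`LinearMap.exists_leftInverse_of_injective`), `l ∘ f` has derivative the identity, so
`HasStrictFDerivAt.toOpenPartialHomeomorph` is injective near `x`; then
`Set.InjOn.exists_isOpen_superset`. `left_inv`: take a compact neighbourhood `K'` of `K` inside the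
open set of `nhd_inj`; `exists_contMDiffMap_forall_mem_convex_of_local` with
`t y = {v | ∀ x ∈ K', f x = y → v = x}`; near `y ∉ f '' K'` take a constant; near `y = f x₀` take
`e.symm ∘ l` with `e` the local homeomorphism of `l ∘ f` (smooth inverse on a neighbourhood:
`OpenPartialHomeomorph.contDiffAt_symm` where the derivative is invertible, or
`ContDiffAt.to_localInverse` at each point); points of `K'` outside the source of `e` form a compact
set whose image misses a neighbourhood of `y`. `small_image`: `dimH_image_le_of_locally_lipschitzOn`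
or `ContDiffOn.dimH_image_le` on small balls, `Real.dimH_univ_eq_finrank`. `dense_of_small`:
`dimH_iUnion`, `dense_compl_of_dimH_lt_finrank`. `approx`: the same partition of unity lemma with
`t p = {v | (p ∈ C → v = H p) ∧ dist v (H p) < ε}`, `ε` from
`IsCompact.exists_thickening_subset_open`. About 300 lines. -/

set_option linter.unusedSectionVars false
set_option linter.unusedVariables false

open Set Filter Topology Function
open scoped ContDiff

noncomputable section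
namespace Pool.Agent.Work.MP_7ba843_gt.C

open Pool.Agent.Work.MP_bf98aa_gt.Ns (Dif)

variable {V E F : Type} [NormedAddCommGroup V] [NormedSpace ℝ V] [FiniteDimensional ℝ V]
  [NormedAddCommGroup E] [NormedSpace ℝ E] [FiniteDimensional ℝ E]
  [NormedAddCommGroup F] [NormedSpace ℝ F] [FiniteDimensional ℝ F] {A : Amb V}

theorem Util_pou {t : E → Set F} (ht : ∀ x, Convex ℝ (t x))
    (h : ∀ x, ∃ U ∈ 𝓝 x, ∃ g : E → F, ContDiffOn ℝ ∞ g U ∧ ∀ y ∈ U, g y ∈ t y) :
    ∃ g : E → F, ContDiff ℝ ∞ g ∧ ∀ x, g x ∈ t x := by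
  obtain ⟨g, hg⟩ := exists_contMDiffMap_forall_mem_convex_of_local (n := ⊤)
    (modelWithCornersSelf ℝ E) ht fun x => by
      obtain ⟨U, hU, g, h1, h2⟩ := h x
      exact ⟨U, hU, g, h1.contMDiffOn, h2⟩
  exact ⟨g, g.contMDiff.contDiff, hg⟩

theorem Util_loc {f : E → F} (hf : ContDiff ℝ ∞ f) {x : E} (h : Injective (fderiv ℝ f x)) :
    ∃ U ∈ 𝓝 (f x), ∃ g : F → E, ContDiffOn ℝ ∞ g U ∧ ∀ᶠ z in 𝓝 x, g (f z) = z := by
  obtain ⟨l₀, hl₀⟩ := LinearMap.exists_leftInverse_of_injective (fderiv ℝ f x).toLinearMap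
    (LinearMap.ker_eq_bot.2 h)
  obtain ⟨l, hl⟩ : ∃ l : F →L[ℝ] E, ∀ v, l (fderiv ℝ f x v) = v :=
    ⟨LinearMap.toContinuousLinearMap l₀, fun v => LinearMap.congr_fun hl₀ v⟩
  have hk : ContDiff ℝ ∞ (l ∘ f) := l.contDiff.comp hf
  have dk : Differentiable ℝ (l ∘ f) := hk.differentiable (by simp)
  have d0 : HasFDerivAt (l ∘ f) ((ContinuousLinearEquiv.refl ℝ E : E ≃L[ℝ] E) : E →L[ℝ] E) x := by
    have e : ((ContinuousLinearEquiv.refl ℝ E : E ≃L[ℝ] E) : E →L[ℝ] E) =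
        l.comp (fderiv ℝ f x) := ContinuousLinearMap.ext fun v => (hl v).symm
    rw [e]
    exact l.hasFDerivAt.comp x (hf.differentiable (by simp) x).hasFDerivAt
  obtain ⟨e, he, hx⟩ : ∃ e : OpenPartialHomeomorph E E, (e : E → E) = l ∘ f ∧ x ∈ e.source :=
    ⟨hk.contDiffAt.toOpenPartialHomeomorph _ d0 (by simp), rfl,
      hk.contDiffAt.mem_toOpenPartialHomeomorph_source d0 (by simp)⟩
  have hW : IsOpen {z | Injective (fderiv ℝ (l ∘ f) z)} :=
    ContinuousLinearMap.isOpen_injective.preimage (hk.continuous_fderiv (by simp))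
  have hT := e.isOpen_inter_preimage_symm hW
  have ex : l (f x) = e x := by rw [he]; rfl
  refine ⟨l ⁻¹' (e.target ∩ e.symm ⁻¹' {z | Injective (fderiv ℝ (l ∘ f) z)}),
    (hT.preimage l.continuous).mem_nhds ?_, e.symm ∘ l, fun y hy => ?_, ?_⟩
  · refine ⟨ex ▸ e.map_source hx, ?_⟩
    show Injective (fderiv ℝ (l ∘ f) (e.symm (l (f x))))
    rw [ex, e.left_inv hx, d0.fderiv]
    exact injective_id
  · have hi : Injective (fderiv ℝ (l ∘ f) (e.symm (l y))) := hy.2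
    have hd : HasFDerivAt e (((LinearEquiv.ofInjectiveEndo
        (fderiv ℝ (l ∘ f) (e.symm (l y))).toLinearMap hi).toContinuousLinearEquiv : E ≃L[ℝ] E) :
        E →L[ℝ] E) (e.symm (l y)) := by
      rw [he]
      exact (dk _).hasFDerivAt
    exact ((e.contDiffAt_symm hy.1 hd (he ▸ hk.contDiffAt)).comp y
      l.contDiff.contDiffAt).contDiffWithinAt
  · filter_upwards [e.open_source.mem_nhds hx] with z hz
    have : l (f z) = e z := by rw [he]; rfl
    rw [comp_apply, this, e.left_inv hz]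

theorem ext_smooth {f : E → F} {K O : Set E} (hK : IsCompact K) (hO : IsOpen O) (hKO : K ⊆ O)
    (hf : ContDiffOn ℝ ∞ f O) : ∃ g : E → F, ContDiff ℝ ∞ g ∧ ∀ᶠ x in 𝓝ˢ K, g x = f x := by
  obtain ⟨χ, K', O', h1, h2, h3, h4, h5, -, h6, h7, -⟩ :=
    Pool.Agent.Work.MP_bf98aa_gt.Ns.exists_cut hK hO hKO
  refine ⟨fun x => χ x • f x, Pool.Agent.Work.MP_bf98aa_gt.Ns.contDiff_of_supp hO h2.isClosed h3
    (h1.contDiffOn.smul hf) fun y hy => by rw [h7 y hy, zero_smul], ?_⟩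
  filter_upwards [h4.mem_nhdsSet.2 h5] with x hx
  rw [h6 x hx, one_smul]

theorem nhd_inj {f : E → F} (hf : ContDiff ℝ ∞ f) {K : Set E} (hK : IsCompact K) (h1 : InjOn f K)
    (h2 : ∀ x ∈ K, Injective (fderiv ℝ f x)) :
    ∃ O, IsOpen O ∧ K ⊆ O ∧ InjOn f O ∧ ∀ x ∈ O, Injective (fderiv ℝ f x) := by
  obtain ⟨t, a1, a2, a3⟩ := h1.exists_isOpen_superset hK
    (fun x _ => hf.continuous.continuousAt) fun x hx => by
      obtain ⟨-, -, g, -, hg⟩ := Util_loc hf (h2 x hx)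
      exact ⟨_, hg, fun a ha b hb e => ha.symm.trans ((congrArg g e).trans hb)⟩
  exact ⟨t ∩ {x | Injective (fderiv ℝ f x)}, a1.inter
    (ContinuousLinearMap.isOpen_injective.preimage (hf.continuous_fderiv (by simp))),
    fun x hx => ⟨a2 hx, h2 x hx⟩, a3.mono inter_subset_left, fun x hx => hx.2⟩

theorem left_inv {f : E → F} (hf : ContDiff ℝ ∞ f) {K : Set E} (hK : IsCompact K) (h1 : InjOn f K)
    (h2 : ∀ x ∈ K, Injective (fderiv ℝ f x)) :
    ∃ L : F → E, ContDiff ℝ ∞ L ∧ ∀ᶠ x in 𝓝ˢ K, L (f x) = x := by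
  obtain ⟨O, hO, hKO, a1, a2⟩ := nhd_inj hf hK h1 h2
  obtain ⟨K', hK', b1, b2⟩ := exists_compact_between hK hO hKO
  obtain ⟨L, hL, hLt⟩ := Util_pou (t := fun y => {v | ∀ x ∈ K', f x = y → v = x})
    (fun y u hu v hv a b _ _ hab x hx e => by
      rw [hu x hx e, hv x hx e, ← add_smul, hab, one_smul]) fun y => by
      by_cases hy : y ∈ f '' K'
      · obtain ⟨x₀, hx₀, rfl⟩ := hy
        obtain ⟨U, hU, g, hg, hN⟩ := Util_loc hf (a2 x₀ (b2 hx₀))
        obtain ⟨N, n1, n2, n3⟩ := mem_nhds_iff.1 hN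
        have c : IsClosed (f '' (K' \ N)) := ((hK'.diff n2).image hf.continuous).isClosed
        refine ⟨U ∩ (f '' (K' \ N))ᶜ, inter_mem hU (c.isOpen_compl.mem_nhds ?_), g,
          hg.mono inter_subset_left, fun y hy x hx e => ?_⟩
        · rintro ⟨z, hz, e⟩
          exact hz.2 (a1 (b2 hz.1) (b2 hx₀) e ▸ n3)
        · have : x ∈ N := by_contra fun k => hy.2 ⟨x, ⟨hx, k⟩, e⟩
          rw [← e]
          exact n1 this
      · exact ⟨(f '' K')ᶜ, (hK'.image hf.continuous).isClosed.isOpen_compl.mem_nhds hy,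
          fun _ => 0, contDiffOn_const, fun y hy x hx e => absurd ⟨x, hx, e⟩ hy⟩
  refine ⟨L, hL, ?_⟩
  filter_upwards [isOpen_interior.mem_nhdsSet.2 b1] with x hx
  exact hLt (f x) x (interior_subset hx) rfl

theorem small_image {f : E → F} {O : Set E} (hO : IsOpen O) (hf : ContDiffOn ℝ ∞ f O)
    (h : Module.finrank ℝ E < Module.finrank ℝ F) : dimH (f '' O) < Module.finrank ℝ F := by
  have h1 : dimH (f '' O) ≤ dimH O := dimH_image_le_of_locally_lipschitzOn fun x hx => by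
    obtain ⟨C, u, hu, hl⟩ :=
      ((hf.contDiffAt (hO.mem_nhds hx)).of_le (by simp : (1 : ℕ∞ω) ≤ ∞)).exists_lipschitzOnWith
    exact ⟨C, u, mem_nhdsWithin_of_mem_nhds hu, hl⟩
  exact ((h1.trans (dimH_mono (subset_univ _))).trans_eq
    (Real.dimH_univ_eq_finrank E)).trans_lt (Nat.cast_lt.2 h)

theorem dense_of_small {ι : Type} [Finite ι] {B : ι → Set F}
    (h : ∀ i, dimH (B i) < Module.finrank ℝ F) : Dense (⋃ i, B i)ᶜ := by
  rcases isEmpty_or_nonempty ι with e | e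
  · rw [iUnion_of_empty, compl_empty]
    exact dense_univ
  · obtain ⟨j, hj⟩ := Finite.exists_max fun i => dimH (B i)
    refine dense_compl_of_dimH_lt_finrank ?_
    rw [dimH_iUnion]
    exact (iSup_le hj).trans_lt (h j)

theorem approx {H : E → F} (hH : Continuous H) {Q C O : Set E} {U : Set F} (hQ : IsCompact Q)
    (hU : IsOpen U) (hQU : MapsTo H Q U) (hC : IsClosed C) (hO : IsOpen O) (hCO : C ⊆ O)
    (hs : ContDiffOn ℝ ∞ H O) :
    ∃ σ : E → F, ContDiff ℝ ∞ σ ∧ EqOn σ H C ∧ ∀ p ∈ Q, segment ℝ (H p) (σ p) ⊆ U := by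
  obtain ⟨ε, hε, hth⟩ := (hQ.image hH).exists_thickening_subset_open hU hQU.image_subset
  obtain ⟨σ, h1, h2⟩ := Util_pou
    (t := fun p => {v | p ∈ C → v = H p} ∩ Metric.ball (H p) ε)
    (fun p => Convex.inter (fun u hu v hv a b _ _ hab hp => by
      rw [hu hp, hv hp, ← add_smul, hab, one_smul]) (convex_ball _ _)) fun p => by
      by_cases hp : p ∈ C
      · exact ⟨O, hO.mem_nhds (hCO hp), H, hs, fun y _ => ⟨fun _ => rfl, Metric.mem_ball_self hε⟩⟩
      · exact ⟨Cᶜ ∩ H ⁻¹' Metric.ball (H p) ε, inter_mem (hC.isOpen_compl.mem_nhds hp)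
          (hH.continuousAt (Metric.ball_mem_nhds _ hε)), fun _ => H p, contDiffOn_const,
          fun y hy => ⟨fun k => absurd k hy.1, Metric.mem_ball_comm.1 hy.2⟩⟩
  refine ⟨σ, h1, fun p hp => (h2 p).1 hp, fun p hp => ?_⟩
  exact ((convex_ball (H p) ε).segment_subset (Metric.mem_ball_self hε) (h2 p).2).trans
    ((Metric.ball_subset_thickening (mem_image_of_mem H hp) ε).trans hth)

end Pool.Agent.Work.MP_7ba843_gt.C
end
end

-- merged part: Pool.Agent.Work.MP_7ba843_gt.C.AlgM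
section
/-! Nielsen moves.

PLAN. Derived moves: left multiplication, multiplication by an inverse, exchange of two entries
`(a, b) → (a b, b) → (a b, b⁻¹) → (a b, a) → (a b, a⁻¹) → (b, a⁻¹) → (b, a)`; permutations by
`Equiv.Perm.swap_induction_on`. `NE.aut`: each move is the precomposition with an automorphism of
the free group (`FreeGroup.lift` both ways, `MonoidHom.toMulEquiv`). `NE.mul_mem`:
`Subgroup.closure_induction` in the form `∀ x, NE (update v i x) (update v i (x * w))`.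
`closed_moves`: let `Q v v' := P v → P v'`; from `mSwap` and `mInv` get adjacent exchanges, then all
permutations (`Equiv.Perm.mclosure_swap_castSucc_succ`), from `mTh` and inversions the move
`v 1 ↦ v 1 * v 0`, then conjugate by a permutation with `σ 1 = i`, `σ 0 = j`. About 280 lines. -/

set_option linter.unusedSectionVars false
set_option linter.unusedVariables false

open Set Filter Topology Function

noncomputable section
namespace Pool.Agent.Work.MP_7ba843_gt.C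

variable {ι G G' : Type} [Group G] [Group G']

theorem Conj.refl (v : ι → G) : Conj v v := by
  exact ⟨1, fun j => by simp⟩

theorem Conj.symm {v v' : ι → G} (h : Conj v v') : Conj v' v := by
  obtain ⟨w, hw⟩ := h
  exact ⟨w⁻¹, fun j => by rw [hw]; group⟩

theorem Conj.trans {v v' v'' : ι → G} (h : Conj v v') (h' : Conj v' v'') : Conj v v'' := by
  obtain ⟨w, hw⟩ := h
  obtain ⟨w', hw'⟩ := h'
  exact ⟨w * w', fun j => by rw [hw', hw]; group⟩

variable [DecidableEq ι]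

theorem AlgM_upd {v v' : ι → G} {w a a' : G} (h : ∀ j, v' j = w⁻¹ * v j * w) (i : ι)
    (e : a' = w⁻¹ * a * w) (j : ι) : update v' i a' j = w⁻¹ * update v i a j * w := by
  simp only [update_apply]
  split_ifs
  exacts [e, h j]

theorem Conj.mInv {v v' : ι → G} (h : Conj v v') (i : ι) : Conj (mInv i v) (mInv i v') := by
  obtain ⟨w, hw⟩ := h
  exact ⟨w, AlgM_upd hw i (by rw [hw]; group)⟩

theorem Conj.mSwap {v v' : ι → G} (h : Conj v v') (i j : ι) :
    Conj (mSwap i j v) (mSwap i j v') := by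
  obtain ⟨w, hw⟩ := h
  exact ⟨w, AlgM_upd (AlgM_upd hw i (by rw [hw]; group)) j (by rw [hw]; group)⟩

theorem Conj.mTh {v v' : ι → G} (h : Conj v v') (i j : ι) : Conj (mTh i j v) (mTh i j v') := by
  obtain ⟨w, hw⟩ := h
  exact ⟨w, AlgM_upd (AlgM_upd hw i (by rw [hw]; group)) j (by rw [hw, hw]; group)⟩

theorem AlgM_inv (v : ι → G) (i : ι) (a : G) : NE (update v i a) (update v i a⁻¹) :=
  .single (Or.inl ⟨i, by rw [update_idem, update_self]⟩)

theorem AlgM_mul (v : ι → G) {i j : ι} (h : i ≠ j) (a : G) :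
    NE (update v i a) (update v i (a * v j)) :=
  .single (Or.inr ⟨i, j, h, by rw [update_idem, update_self, update_of_ne h.symm]⟩)

theorem AlgM_inv1 (v : ι → G) {i j : ι} (h : i ≠ j) (a b : G) :
    NE (update (update v i a) j b) (update (update v i a⁻¹) j b) := by
  rw [update_comm h, update_comm h]
  exact AlgM_inv _ _ _

theorem AlgM_mul1 (v : ι → G) {i j : ι} (h : i ≠ j) (a b : G) :
    NE (update (update v i a) j b) (update (update v i (a * b)) j b) := by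
  rw [update_comm h, update_comm h]
  simpa only [update_self] using AlgM_mul (update v j b) h a

theorem AlgM_mul2 (v : ι → G) {i j : ι} (h : i ≠ j) (a b : G) :
    NE (update (update v i a) j b) (update (update v i a) j (b * a)) := by
  simpa only [update_self] using AlgM_mul (update v i a) h.symm b

theorem AlgM_div (v : ι → G) {i j : ι} (h : i ≠ j) (a : G) :
    NE (update v i (a * v j)) (update v i a) := by
  have k := ((AlgM_inv (update v i (a * v j)) j (v j)).trans (AlgM_mul1 v h _ _)).trans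
    (AlgM_inv _ j _)
  rwa [inv_inv, mul_inv_cancel_right, update_comm h, update_comm h, update_eq_self] at k

theorem AlgM_swap (v : ι → G) {i j : ι} (h : i ≠ j) : NE v (v ∘ Equiv.swap j i) := by
  have k := (((((AlgM_mul1 v h (v i) (v j)).trans (AlgM_inv1 v h _ _)).trans (AlgM_mul2 v h _ _)).trans
    (AlgM_inv _ j _)).trans (AlgM_mul1 v h _ _)).trans (AlgM_inv1 v h _ _)
  rw [update_eq_self, update_eq_self] at k
  simp only [mul_inv_rev, inv_inv, mul_inv_cancel_left, inv_mul_cancel_right] at k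
  rwa [Equiv.comp_swap_eq_update]

theorem NE.symm {v v' : ι → G} (h : NE v v') : NE v' v := by
  induction h with
  | refl => exact .refl
  | @tail a b _ m ih =>
    refine Relation.ReflTransGen.trans ?_ ih
    rcases m with ⟨i, rfl⟩ | ⟨i, j, h, rfl⟩
    · have := AlgM_inv a i (a i)⁻¹
      rwa [inv_inv, update_eq_self] at this
    · have := AlgM_div a h (a i)
      rwa [update_eq_self] at this

theorem NE.map (f : G →* G') {v v' : ι → G} (h : NE v v') : NE (f ∘ v) (f ∘ v') := by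
  induction h with
  | refl => exact .refl
  | tail _ m ih =>
    refine ih.tail ?_
    rcases m with ⟨i, rfl⟩ | ⟨i, j, k, rfl⟩
    · exact Or.inl ⟨i, by rw [comp_update, map_inv]; rfl⟩
    · exact Or.inr ⟨i, j, k, by rw [comp_update, map_mul]; rfl⟩

theorem NE.perm [Finite ι] (v : ι → G) (σ : Equiv.Perm ι) : NE v (v ∘ σ) := by
  induction σ using Equiv.Perm.swap_induction_on generalizing v with
  | one => exact .refl
  | swap_mul f x y h ih => exact (AlgM_swap v h.symm).trans (ih _)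

theorem NE.mul_mem (v : ι → G) (i : ι) {w : G} (hw : w ∈ Subgroup.closure (v '' {j | j ≠ i})) :
    NE v (update v i (v i * w)) := by
  suffices h : ∀ x, NE (update v i x) (update v i (x * w)) by simpa only [update_eq_self] using h (v i)
  induction hw using Subgroup.closure_induction with
  | mem x hx =>
    obtain ⟨j, hj, rfl⟩ := hx
    exact AlgM_mul v (Ne.symm hj)
  | one => exact fun x => by rw [mul_one]; exact .refl
  | mul a b _ _ ha hb => exact fun x => by rw [← mul_assoc]; exact (ha x).trans (hb _)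
  | inv a _ ha => exact fun x => by simpa only [inv_mul_cancel_right] using (ha (x * a⁻¹)).symm

theorem AlgM_le {v v' : ι → G} (h : NE v v') :
    Subgroup.closure (range v') ≤ Subgroup.closure (range v) := by
  induction h with
  | refl => exact le_rfl
  | @tail a b _ m ih =>
    refine le_trans ((Subgroup.closure_le _).2 ?_) ih
    have k : ∀ j, a j ∈ Subgroup.closure (range a) := fun j => Subgroup.subset_closure ⟨j, rfl⟩
    rintro _ ⟨l, rfl⟩
    rcases m with ⟨i, rfl⟩ | ⟨i, j, -, rfl⟩ <;> rw [update_apply] <;> split_ifs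
    exacts [inv_mem (k i), k l, mul_mem (k i) (k j), k l]

theorem NE.closure {v v' : ι → G} (h : NE v v') :
    Subgroup.closure (range v) = Subgroup.closure (range v') := by
  exact le_antisymm (AlgM_le h.symm) (AlgM_le h)

theorem AlgM_lift (v : ι → G) (i : ι) (x : FreeGroup ι) :
    (FreeGroup.lift v).comp (FreeGroup.lift (update FreeGroup.of i x)) =
      FreeGroup.lift (update v i (FreeGroup.lift v x)) := by
  refine FreeGroup.ext_hom _ _ fun j => ?_
  simp only [MonoidHom.comp_apply, FreeGroup.lift_apply_of, update_apply]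
  split_ifs <;> simp

theorem NE.aut {v v' : ι → G} (h : NE v v') :
    ∃ α : FreeGroup ι ≃* FreeGroup ι, ∀ x, FreeGroup.lift v (α x) = FreeGroup.lift v' x := by
  induction h with
  | refl => exact ⟨.refl _, fun _ => rfl⟩
  | @tail a b _ m ih =>
    obtain ⟨α, hα⟩ := ih
    suffices k : ∃ β : FreeGroup ι ≃* FreeGroup ι, ∀ x, FreeGroup.lift a (β x) = FreeGroup.lift b x by
      obtain ⟨β, hβ⟩ := k
      exact ⟨β.trans α, fun x => (hα _).trans (hβ x)⟩
    have e : FreeGroup.lift (FreeGroup.of : ι → FreeGroup ι) = MonoidHom.id _ :=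
      FreeGroup.ext_hom _ _ fun j => by simp
    rcases m with ⟨i, rfl⟩ | ⟨i, j, h, rfl⟩
    · have k : (FreeGroup.lift (update FreeGroup.of i (FreeGroup.of i)⁻¹)).comp
          (FreeGroup.lift (update FreeGroup.of i (FreeGroup.of i)⁻¹)) = MonoidHom.id _ := by
        rw [AlgM_lift, ← e]
        simp
      exact ⟨MonoidHom.toMulEquiv _ _ k k, fun x => by
        simpa using DFunLike.congr_fun (AlgM_lift a i (FreeGroup.of i)⁻¹) x⟩
    · refine ⟨MonoidHom.toMulEquiv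
        (FreeGroup.lift (update FreeGroup.of i (FreeGroup.of i * FreeGroup.of j)))
        (FreeGroup.lift (update FreeGroup.of i (FreeGroup.of i * (FreeGroup.of j)⁻¹))) (by
          rw [AlgM_lift, ← e]
          simp [update_of_ne h.symm]) (by
          rw [AlgM_lift, ← e]
          simp [update_of_ne h.symm]), fun x => by
          simpa using DFunLike.congr_fun (AlgM_lift a i (FreeGroup.of i * FreeGroup.of j)) x⟩

theorem closed_moves {g : ℕ} {P : (Fin g → G) → Prop} (h1 : ∀ v i, P v → P (mInv i v))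
    (h2 : ∀ v (i j : Fin g), j.1 = i.1 + 1 → P v → P (mSwap i j v))
    (h3 : ∀ v (i j : Fin g), i.1 = 0 → j.1 = 1 → P v → P (mTh i j v)) {v v' : Fin g → G}
    (h : NE v v') (hv : P v) : P v' := by
  have inv : ∀ v i a, P (update v i a) → P (update v i a⁻¹) := fun v i a k => by
    simpa only [C.mInv, update_idem, update_self] using h1 _ i k
  have inv1 : ∀ v i j a b, i ≠ j → P (update (update v i a) j b) → P (update (update v i a⁻¹) j b) :=
    fun v i j a b e k => by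
      rw [update_comm e] at k ⊢
      exact inv _ _ _ k
  have perm : ∀ (σ : Equiv.Perm (Fin g)) v, P v → P (v ∘ σ) := fun σ => by
    rcases g with _ | n
    · exact fun v k => Subsingleton.elim v (v ∘ σ) ▸ k
    have hσ : σ ∈ (⊤ : Submonoid (Equiv.Perm (Fin (n + 1)))) := trivial
    rw [← Equiv.Perm.mclosure_swap_castSucc_succ] at hσ
    induction hσ using Submonoid.closure_induction with
    | mem x hx =>
      obtain ⟨i, rfl⟩ := hx
      intro v k
      have := inv1 _ _ _ _ _ (Fin.castSucc_lt_succ (i := i)).ne (inv _ _ _ (h2 v i.castSucc i.succ rfl k))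
      rwa [inv_inv, inv_inv, ← Equiv.comp_swap_eq_update, Equiv.swap_comm] at this
    | one => exact fun _ k => k
    | mul a b _ _ ha hb => exact fun v k => hb _ (ha v k)
  induction h with
  | refl => exact hv
  | @tail a b _ m ih =>
    rcases m with ⟨i, rfl⟩ | ⟨i, j, e, rfl⟩
    · exact h1 a i ih
    have g2 : 1 < g := by
      have := i.2
      have := j.2
      have : i.1 ≠ j.1 := fun k => e (Fin.ext k)
      omega
    let z : Fin g := ⟨0, by omega⟩
    let o : Fin g := ⟨1, g2⟩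
    have zo : z ≠ o := fun k => absurd (congrArg Fin.val k) zero_ne_one
    have key : ∀ w, P w → P (update w o (w o * w z)) := fun w k => by
      have k1 : P (update (update w z (w z)) o (w o)) := by rwa [update_eq_self, update_eq_self]
      have k2 := inv _ _ _ (h3 _ z o rfl rfl (inv1 _ _ _ _ _ zo (inv _ _ _ k1)))
      simp only [update_self, update_of_ne zo, inv_inv, mul_inv_rev] at k2
      rwa [update_comm zo, update_idem, update_comm zo.symm, update_idem, update_eq_self] at k2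
    let σ : Equiv.Perm (Fin g) := Equiv.swap z j * Equiv.swap o (Equiv.swap z j i)
    have s1 : σ o = i := by simp [σ]
    have s0 : σ z = j := by
      have : z ≠ Equiv.swap z j i := fun k => e (by
        rw [← Equiv.swap_apply_self z j i, ← k, Equiv.swap_apply_left])
      simp [σ, Equiv.swap_apply_of_ne_of_ne zo this]
    have k := perm σ⁻¹ _ (key _ (perm σ a ih))
    rw [update_comp_equiv] at k
    simp only [comp_apply, s0, s1] at k
    have e1 : (a ∘ σ) ∘ (σ⁻¹ : Equiv.Perm (Fin g)) = a := funext fun x => by simp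
    rwa [e1, show Equiv.symm (σ⁻¹ : Equiv.Perm (Fin g)) o = i from s1] at k

end Pool.Agent.Work.MP_7ba843_gt.C
end
end
end

-- merged part: Pool.Agent.Work.MP_7ba843_gt.C.PF
section
/-! Calculus of path functionals.

PLAN. Everything follows from `IsPF.sq`, `IsPF.const`, `IsPF.congr`. `IsPF.sub`: for
`u v w ∈ [0, 1]` apply `sq` to `c ∘ B` where `B` is the bilinear map with `B (0, 0) = u`,
`B (0, 1) = v`, `B (1, 1) = w`, `B (1, 0) = u`. `IsPF.cat` is the case `u = 0, v = 1 / 2, w = 1`.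
`IsPF.star`: cone from `x`. `loc2glob`: `lebesgue_number_lemma_of_metric` on `Icc 0 1` and induction
on `k` for the pieces `[0, k / n]`, or `IsClosed.Icc_subset_of_forall_mem_nhdsGT_of_Icc_subset` /
`IsPreconnected.induction₂'` for the relation
`γ (c u) * h (c ∘ seg u v) * (γ (c v))⁻¹ ∈ H` on `Icc 0 1`. About 250 lines. -/

set_option linter.unusedSectionVars false
set_option linter.unusedVariables false

open Set Filter Topology Function

noncomputable section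
namespace Pool.Agent.Work.MP_7ba843_gt.C

variable {Y Z : Type} [TopologicalSpace Y] [TopologicalSpace Z] {G : Type} [Group G] {S : Set Y}
  {h : (ℝ → Y) → G}

theorem IsP.mono {S' : Set Y} {c : ℝ → Y} (hc : IsP S c) (hS : S ⊆ S') : IsP S' c := by
  exact ⟨hc.1, hc.2.mono_right hS⟩

theorem IsP.map {S' : Set Z} {c : ℝ → Y} (hc : IsP S c) {f : Y → Z} (hf : ContinuousOn f S)
    (hm : MapsTo f S S') : IsP S' (f ∘ c) := by
  exact ⟨hf.comp hc.1 hc.2, hm.comp hc.2⟩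

theorem IsP.cat {c d : ℝ → Y} (hc : IsP S c) (hd : IsP S d) (e : c 1 = d 0) :
    IsP S (cat c d) ∧ cat c d 0 = c 0 ∧ cat c d 1 = d 1 := by
  have e1 : EqOn (C.cat c d) (fun s => c (2 * s)) (Icc 0 (1 / 2)) := fun s hs => by
    simp only [C.cat, if_pos hs.2]
  have e2 : EqOn (C.cat c d) (fun s => d (2 * s - 1)) (Icc (1 / 2) 1) := fun s hs => by
    by_cases h2 : s ≤ 1 / 2
    · have : s = 1 / 2 := le_antisymm h2 hs.1
      subst this
      simp only [C.cat, le_refl, if_true]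
      norm_num [e]
    · simp only [C.cat, if_neg h2]
  have m1 : MapsTo (fun s : ℝ => 2 * s) (Icc 0 (1 / 2)) (Icc 0 1) := fun s hs =>
    ⟨by linarith only [hs, hs.1], by linarith only [hs, hs.2]⟩
  have m2 : MapsTo (fun s : ℝ => 2 * s - 1) (Icc (1 / 2) 1) (Icc 0 1) := fun s hs =>
    ⟨by linarith only [hs, hs.1], by linarith [hs.2]⟩
  have hu : Icc (0 : ℝ) 1 = Icc 0 (1 / 2) ∪ Icc (1 / 2) 1 :=
    (Icc_union_Icc_eq_Icc (by norm_num) (by norm_num)).symm
  refine ⟨⟨?_, ?_⟩, ?_, ?_⟩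
  · rw [hu]
    refine ContinuousOn.union_of_isClosed ?_ ?_ isClosed_Icc isClosed_Icc
    · exact (hc.1.comp (by fun_prop) m1).congr e1
    · exact (hd.1.comp (by fun_prop) m2).congr e2
  · rw [hu]
    rintro s (hs | hs)
    · rw [e1 hs]; exact hc.2 (m1 hs)
    · rw [e2 hs]; exact hd.2 (m2 hs)
  · rw [e1 ⟨le_rfl, by norm_num⟩]; norm_num
  · rw [e2 ⟨by norm_num, le_rfl⟩]; norm_num

theorem IsP.rev {c : ℝ → Y} (hc : IsP S c) : IsP S fun s => c (1 - s) := by
  have m1 : MapsTo (fun s : ℝ => 1 - s) (Icc 0 1) (Icc 0 1) := fun s hs =>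
    ⟨by linarith [hs.2], by linarith [hs.1]⟩
  exact ⟨hc.1.comp (by fun_prop) m1, hc.2.comp m1⟩

theorem IsPF.mono (H : IsPF S h) {S' : Set Y} (hS : S' ⊆ S) : IsPF S' h := by
  exact ⟨H.congr, fun a ha => H.const a (hS ha), fun K h1 h2 => H.sq K h1 (h2.mono_right hS)⟩

theorem IsPF.comap (H : IsPF S h) {T : Set Z} {f : Z → Y} (hf : ContinuousOn f T)
    (hm : MapsTo f T S) : IsPF T fun c => h (f ∘ c) := by
  refine ⟨fun c d e => H.congr _ _ fun s hs => ?_, fun a ha => H.const _ (hm ha),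
    fun K h1 h2 => H.sq (f ∘ K) (hf.comp h1 h2) (hm.comp h2)⟩
  simp only [comp_apply, e hs]

theorem IsPF.htp (H : IsPF S h) {c d : ℝ → Y} {K : ℝ × ℝ → Y} (h1 : ContinuousOn K Sq)
    (h2 : MapsTo K Sq S) (h3 : ∀ s ∈ Icc (0 : ℝ) 1, K (0, s) = c s ∧ K (1, s) = d s)
    (h4 : ∀ t ∈ Icc (0 : ℝ) 1, K (t, 0) = c 0 ∧ K (t, 1) = c 1) : h c = h d := by
  have z : (0 : ℝ) ∈ Icc (0 : ℝ) 1 := ⟨le_rfl, zero_le_one⟩
  have o : (1 : ℝ) ∈ Icc (0 : ℝ) 1 := ⟨zero_le_one, le_rfl⟩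
  have q := H.sq K h1 h2
  have c0 : c 0 ∈ S := (h3 0 z).1 ▸ h2 (mk_mem_prod z z)
  have c1 : c 1 ∈ S := (h3 1 o).1 ▸ h2 (mk_mem_prod z o)
  rw [H.congr _ c fun s hs => (h3 s hs).1, H.congr _ d fun s hs => (h3 s hs).2,
    H.congr _ (fun _ => c 1) fun t ht => (h4 t ht).2,
    H.congr _ (fun _ => c 0) fun t ht => (h4 t ht).1, H.const _ c0, H.const _ c1] at q
  simpa using q

theorem PF_star {E : Type} [NormedAddCommGroup E] [NormedSpace ℝ E] {T : Set E}
    {k : (ℝ → E) → G} (H : IsPF T k) {C : Set E} (hC : C ⊆ T) {x : E} (hx : StarConvex ℝ x C)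
    {c : ℝ → E} (hc : IsP C c) : k (seg x (c 0)) * k c = k (seg x (c 1)) := by
  have z : (0 : ℝ) ∈ Icc (0 : ℝ) 1 := ⟨le_rfl, zero_le_one⟩
  have hxC : x ∈ C := hx.mem ⟨_, hc.2 z⟩
  have h1 : ContinuousOn (fun p : ℝ × ℝ => c p.1) Sq :=
    hc.1.comp continuousOn_fst fun p hp => hp.1
  have q := H.sq (fun p => x + p.2 • (c p.1 - x))
    (continuousOn_const.add (continuousOn_snd.smul (h1.sub continuousOn_const)))
    fun p hp => hC (hx.add_smul_sub_mem (hc.2 hp.1) hp.2.1 hp.2.2)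
  rw [H.congr (fun t => x + (1 : ℝ) • (c t - x)) c fun t _ => by simp,
    H.congr (fun t => x + (0 : ℝ) • (c t - x)) (fun _ => x) fun t _ => by simp,
    H.const x (hC hxC), one_mul] at q
  exact q

theorem PF_seg {E : Type} [NormedAddCommGroup E] [NormedSpace ℝ E] {T : Set E} {a b : E}
    (hs : segment ℝ a b ⊆ T) : IsP T (seg a b) := by
  refine ⟨?_, fun t ht => hs ?_⟩
  · unfold seg; fun_prop
  · rw [segment_eq_image']; exact ⟨t, ht, rfl⟩

theorem PF_tri {E : Type} [NormedAddCommGroup E] [NormedSpace ℝ E] {T : Set E}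
    {k : (ℝ → E) → G} (H : IsPF T k) {C : Set E} (hC : C ⊆ T) (hx : Convex ℝ C) {a b c : E}
    (ha : a ∈ C) (hb : b ∈ C) (hc : c ∈ C) : k (seg a b) * k (seg b c) = k (seg a c) := by
  have q := PF_star H hC (hx ha) (PF_seg (hx.segment_subset hb hc))
  have e0 : seg b c 0 = b := by simp [seg]
  have e1 : seg b c 1 = c := by simp [seg]
  rwa [e0, e1] at q

theorem IsPF.sub (H : IsPF S h) {c : ℝ → Y} (hc : IsP S c) {u v w : ℝ} (hu : u ∈ Icc (0 : ℝ) 1)
    (hv : v ∈ Icc (0 : ℝ) 1) (hw : w ∈ Icc (0 : ℝ) 1) :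
    h (c ∘ seg u v) * h (c ∘ seg v w) = h (c ∘ seg u w) := by
  exact PF_tri (H.comap hc.1 hc.2) Subset.rfl (convex_Icc 0 1) hu hv hw

theorem IsPF.cat (H : IsPF S h) {c d : ℝ → Y} (hc : IsP S c) (hd : IsP S d) (e : c 1 = d 0) :
    h (cat c d) = h c * h d := by
  have q := H.sub (hc.cat hd e).1 (u := 0) (v := 1 / 2) (w := 1) ⟨le_rfl, zero_le_one⟩
    ⟨by norm_num, by norm_num⟩ ⟨zero_le_one, le_rfl⟩
  rw [H.congr (C.cat c d ∘ seg 0 1) (C.cat c d) fun s _ => by simp [seg],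
    H.congr (C.cat c d ∘ seg 0 (1 / 2)) c fun s hs => ?_,
    H.congr (C.cat c d ∘ seg (1 / 2) 1) d fun s hs => ?_] at q
  · exact q.symm
  · simp only [comp_apply, C.cat, seg, smul_eq_mul]
    split_ifs with h2
    · have : s = 0 := by linarith only [hs, h2, hs.1]
      subst this
      norm_num [e]
    · congr 1; ring
  · simp only [comp_apply, C.cat, seg, smul_eq_mul]
    rw [if_pos (by linarith only [hs, hs.2])]
    congr 1; ring

theorem IsPF.rev (H : IsPF S h) {c : ℝ → Y} (hc : IsP S c) : h (fun s => c (1 - s)) = (h c)⁻¹ := by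
  have z : (0 : ℝ) ∈ Icc (0 : ℝ) 1 := ⟨le_rfl, zero_le_one⟩
  have q := H.sub hc (u := 0) (v := 1) (w := 0) z ⟨zero_le_one, le_rfl⟩ z
  rw [H.congr (c ∘ seg 0 1) c fun s _ => by simp [seg],
    H.congr (c ∘ seg 0 0) (fun _ => c 0) fun s _ => by simp [seg],
    H.congr (c ∘ seg 1 0) (fun s => c (1 - s)) fun s _ => by simp [seg, sub_eq_add_neg],
    H.const _ (hc.2 z)] at q
  exact eq_inv_of_mul_eq_one_right q

theorem IsPF.gauge (H : IsPF S h) {T : Set Z} {K : ℝ × Z → Y} (h1 : ContinuousOn K (Icc 0 1 ×ˢ T))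
    (h2 : MapsTo K (Icc 0 1 ×ˢ T) S) :
    Gauge T (fun c => h ((fun z => K (0, z)) ∘ c)) (fun c => h ((fun z => K (1, z)) ∘ c))
      fun z => h fun t => K (t, z) := by
  intro c hc
  have h3 : ContinuousOn (fun p : ℝ × ℝ => c p.2) Sq :=
    hc.1.comp continuousOn_snd fun p hp => hp.2
  have hm : MapsTo (fun p : ℝ × ℝ => (p.1, c p.2)) Sq (Icc 0 1 ×ˢ T) :=
    fun p hp => mk_mem_prod hp.1 (hc.2 hp.2)
  have q := H.sq (fun p => K (p.1, c p.2)) (h1.comp (continuousOn_fst.prodMk h3) hm) (h2.comp hm)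
  rw [mul_assoc, eq_inv_mul_iff_mul_eq]
  exact q.symm

theorem loc2glob (H : IsPF S h) (N : Subgroup G) (γ : Y → G)
    (loc : ∀ y ∈ S, ∃ O ∈ 𝓝 y, ∀ c, IsP (S ∩ O) c → γ (c 0) * h c * (γ (c 1))⁻¹ ∈ N)
    {c : ℝ → Y} (hc : IsP S c) : γ (c 0) * h c * (γ (c 1))⁻¹ ∈ N := by
  have z : (0 : ℝ) ∈ Icc (0 : ℝ) 1 := ⟨le_rfl, zero_le_one⟩
  have o : (1 : ℝ) ∈ Icc (0 : ℝ) 1 := ⟨zero_le_one, le_rfl⟩
  have key := (isPreconnected_Icc (a := (0 : ℝ)) (b := 1)).induction₂'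
    (fun u v => γ (c u) * h (c ∘ seg u v) * (γ (c v))⁻¹ ∈ N) ?_ ?_ z o
  · rwa [H.congr (c ∘ seg 0 1) c fun s _ => by simp [seg]] at key
  · intro x hx
    obtain ⟨O, hO, hl⟩ := loc (c x) (hc.2 hx)
    have h1 : c ⁻¹' O ∈ 𝓝[Icc 0 1] x := hc.1 x hx hO
    obtain ⟨ε, hε, hb⟩ := Metric.mem_nhdsWithin_iff.1 h1
    have hcv : Convex ℝ (Metric.ball x ε ∩ Icc (0 : ℝ) 1) :=
      (convex_ball x ε).inter (convex_Icc 0 1)
    have hp : ∀ u ∈ Metric.ball x ε ∩ Icc (0 : ℝ) 1, ∀ v ∈ Metric.ball x ε ∩ Icc (0 : ℝ) 1,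
        γ (c u) * h (c ∘ seg u v) * (γ (c v))⁻¹ ∈ N := by
      intro u hu v hv
      have q := hl (c ∘ seg u v) ((PF_seg (hcv.segment_subset hu hv)).map
        (hc.1.mono inter_subset_right) fun t ht => ⟨hc.2 ht.2, hb ht⟩)
      simpa [seg] using q
    have hxx : x ∈ Metric.ball x ε ∩ Icc (0 : ℝ) 1 := ⟨Metric.mem_ball_self hε, hx⟩
    filter_upwards [inter_mem (mem_nhdsWithin_of_mem_nhds (Metric.ball_mem_nhds x hε))
      self_mem_nhdsWithin] with y hy
    exact ⟨hp x hxx y hy, hp y hy x hxx⟩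
  · intro u v w hu hv hw h1 h2
    have q := N.mul_mem h1 h2
    rw [← H.sub hc hu hv hw]
    have e : γ (c u) * (h (c ∘ seg u v) * h (c ∘ seg v w)) * (γ (c w))⁻¹ =
        γ (c u) * h (c ∘ seg u v) * (γ (c v))⁻¹ * (γ (c v) * h (c ∘ seg v w) * (γ (c w))⁻¹) := by
      group
    rw [e]; exact q

section
variable {E : Type} [NormedAddCommGroup E] [NormedSpace ℝ E] {T : Set E} {k : (ℝ → E) → G}

@[simp] theorem seg_zero (a b : E) : seg a b 0 = a := by
  simp [seg]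

@[simp] theorem seg_one (a b : E) : seg a b 1 = b := by
  simp [seg]

theorem isP_seg {a b : E} (hs : segment ℝ a b ⊆ T) : IsP T (seg a b) := by
  exact PF_seg hs

theorem IsPF.seg_self (H : IsPF T k) {a : E} (ha : a ∈ T) : k (seg a a) = 1 := by
  rw [H.congr (seg a a) (fun _ => a) fun s _ => by simp [seg], H.const a ha]

theorem IsPF.seg_inv (H : IsPF T k) {a b : E} (hs : IsP T (seg a b)) :
    k (seg b a) = (k (seg a b))⁻¹ := by
  rw [← H.rev hs]
  refine H.congr _ _ fun s _ => ?_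
  simp only [seg]
  module

theorem IsPF.star (H : IsPF T k) {C : Set E} (hC : C ⊆ T) {x : E} (hx : StarConvex ℝ x C)
    {c : ℝ → E} (hc : IsP C c) : k c = (k (seg x (c 0)))⁻¹ * k (seg x (c 1)) := by
  rw [eq_inv_mul_iff_mul_eq]
  exact PF_star H hC hx hc

theorem IsPF.cvx (H : IsPF T k) {C : Set E} (hC : C ⊆ T) (hx : Convex ℝ C) {c : ℝ → E}
    (hc : IsP C c) : k c = k (seg (c 0) (c 1)) := by
  have z : (0 : ℝ) ∈ Icc (0 : ℝ) 1 := ⟨le_rfl, zero_le_one⟩
  have q := PF_star H hC (hx (hc.2 z)) hc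
  rwa [H.seg_self (hC (hc.2 z)), one_mul] at q

theorem IsPF.tri (H : IsPF T k) {C : Set E} (hC : C ⊆ T) (hx : Convex ℝ C) {a b c : E}
    (ha : a ∈ C) (hb : b ∈ C) (hc : c ∈ C) : k (seg a b) * k (seg b c) = k (seg a c) := by
  exact PF_tri H hC hx ha hb hc

end

theorem Gauge.tj {T : Set E3} {k k' : (ℝ → E3) → G} {γ : E3 → G} (H : Gauge T k k' γ) {j : ℕ}
    (hj : Segs T j) : tj k' j = (γ p0)⁻¹ * tj k j * γ p0 := by
  obtain ⟨h1, h2, h3, h4, h5⟩ := hj
  simp only [C.tj]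
  rw [H _ h1, H _ h2, H _ h3, H _ h4, H _ h5]
  simp only [seg_zero, seg_one]
  group

theorem Gauge.tc {T : Set E3} {k k' : (ℝ → E3) → G} {γ : E3 → G} (H : Gauge T k k' γ)
    (hj : SegsC T) : tc k' = (γ p0)⁻¹ * tc k * γ p0 := by
  obtain ⟨h1, h2, h3, h4, h5⟩ := hj
  simp only [C.tc]
  rw [H _ h1, H _ h2, H _ h3, H _ h4, H _ h5]
  simp only [seg_zero, seg_one]
  group

theorem Segs.mono {T T' : Set E3} {j : ℕ} (H : Segs T j) (hT : T ⊆ T') : Segs T' j := by
  obtain ⟨h1, h2, h3, h4, h5⟩ := H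
  exact ⟨h1.mono hT, h2.mono hT, h3.mono hT, h4.mono hT, h5.mono hT⟩

theorem Segs.loop {T : Set E3} {j : ℕ} (H : Segs T j) : ∃ l, IsP T l ∧ l 0 = p0 ∧ l 1 = p0 ∧
    ∀ (G : Type) [Group G] (k : (ℝ → E3) → G), IsPF T k → k l = C.tj k j := by
  obtain ⟨h1, h2, h3, h4, h5⟩ := H
  have e2 := (seg_one _ _).trans (seg_zero _ _).symm |> h1.cat h2
  have f3 := (e2.2.2.trans (seg_one _ _)).trans (seg_zero _ ![8 * (j : ℝ) + 9, 5, 1]).symm
  have e3 := e2.1.cat h3 f3
  have f4 := (e3.2.2.trans (seg_one _ _)).trans (seg_zero _ ![8 * (j : ℝ) + 9, 1, 1]).symm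
  have e4 := e3.1.cat h4 f4
  have f5 := (e4.2.2.trans (seg_one _ _)).trans (seg_zero _ p0).symm
  have e5 := e4.1.cat h5 f5
  refine ⟨_, e5.1, ?_, ?_, fun G _ k hk => ?_⟩
  · rw [e5.2.1, e4.2.1, e3.2.1, e2.2.1, seg_zero]
  · rw [e5.2.2, seg_one]
  · rw [hk.cat e4.1 h5 f5, hk.cat e3.1 h4 f4, hk.cat e2.1 h3 f3,
      hk.cat h1 h2 ((seg_one _ _).trans (seg_zero _ _).symm)]
    rfl

end Pool.Agent.Work.MP_7ba843_gt.C
end
end

-- merged part: Pool.Agent.Work.MP_7ba843_gt.C.ColF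
section
-- merged part: Pool.Agent.Work.MP_7ba843_gt.C.EmbL
section
/-! Formal properties of isotopies, embeddings and families.

PLAN. `Ist.trans`: `f t = ξ'.f t ∘ ξ.f t`, `d = ξ.d.trans ξ'.d`. `Ist.symm`:
`f t = ξ.d.symm ∘ ξ.f (1 - t)`. Derivatives of diffeomorphisms: `Ns.Dif.bij`. `Emb.nhd`: `nhd_inj`
and `exists_compact_between`. `Fam.nhd`: `nhd_inj` for `(t, x) ↦ (t, Φ t x)` on `Icc 0 1 ×ˢ K`
(its derivative is injective because its first component is the projection and its restriction to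
`0 × E` is the derivative of `Φ t`), then `generalized_tube_lemma`. About 250 lines. -/

set_option linter.unusedSectionVars false
set_option linter.unusedVariables false

open Set Filter Topology Function
open scoped ContDiff

noncomputable section
namespace Pool.Agent.Work.MP_7ba843_gt.C

open Pool.Agent.Work.MP_bf98aa_gt.Ns (Dif)

variable {V E F : Type} [NormedAddCommGroup V] [NormedSpace ℝ V] [FiniteDimensional ℝ V]
  [NormedAddCommGroup E] [NormedSpace ℝ E] [FiniteDimensional ℝ E]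
  [NormedAddCommGroup F] [NormedSpace ℝ F] [FiniteDimensional ℝ F] {A : Amb V}

theorem EmbL_mem (ξ : Ist A) {y : V} (h : y ∈ A.M) : ξ.d y ∈ A.M := by
  rw [← ξ.one]
  exact ξ.maps 1 ⟨zero_le_one, le_rfl⟩ y h

theorem EmbL_left (d : Dif V) (y : V) : d.symm (d y) = y := d.left_inv y

theorem EmbL_chain {f : E → V} {j : F → E} (hf : ContDiff ℝ ∞ f) (hj : ContDiff ℝ ∞ j) {x : F}
    (h1 : Injective (fderiv ℝ f (j x))) (h2 : Injective (fderiv ℝ j x)) :
    Injective (fderiv ℝ (fun y => f (j y)) x) := by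
  rw [fderiv_fun_comp x (hf.differentiable (by simp) _) (hj.differentiable (by simp) _)]
  exact h1.comp h2

/-- The track of a family is immersive where the family is. -/
theorem EmbL_track {Φ : ℝ → E → V} (hd : Differentiable ℝ fun p : ℝ × E => Φ p.1 p.2) (t : ℝ)
    (x : E) : Injective (fderiv ℝ (fun p : ℝ × E => (p.1, Φ p.1 p.2)) (t, x)) ↔
      Injective (fderiv ℝ (Φ t) x) := by
  have h4 : fderiv ℝ (Φ t) x = _ := (MP_bf98aa_gt.Ns.flow_slice (hd (t, x))).fderiv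
  rw [(hasFDerivAt_fst.prodMk (hd (t, x)).hasFDerivAt).fderiv, h4, injective_iff_map_eq_zero,
    injective_iff_map_eq_zero]
  refine ⟨fun h b hb => (Prod.mk.inj (h (0, b) (Prod.ext rfl hb))).2, ?_⟩
  rintro h ⟨a, b⟩ e
  obtain ⟨e1, e2⟩ := Prod.mk.inj e
  have e3 : a = 0 := e1
  subst e3
  rw [h b e2]
  rfl

theorem Ist.exists_refl (A : Amb V) : ∃ ξ : Ist A, (∀ t y, ξ.f t y = y) ∧ ∀ y, ξ.d y = y := by
  exact ⟨⟨fun _ y => y, Dif.refl V, continuous_snd, fun _ => rfl, fun _ => rfl, fun _ _ _ h => h,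
    fun _ h => h⟩, fun _ _ => rfl, fun _ => rfl⟩

theorem Ist.exists_trans (ξ ξ' : Ist A) :
    ∃ ζ : Ist A, (∀ t y, ζ.f t y = ξ'.f t (ξ.f t y)) ∧ ∀ y, ζ.d y = ξ'.d (ξ.d y) := by
  refine ⟨⟨fun t y => ξ'.f t (ξ.f t y), ξ.d.trans ξ'.d,
    ξ'.cont.comp (continuous_fst.prodMk ξ.cont), fun y => by rw [ξ.zero, ξ'.zero],
    fun y => ?_, fun t ht y hy => ξ'.maps t ht _ (ξ.maps t ht y hy),
    fun y hy => ξ.inv _ (ξ'.inv y hy)⟩, fun _ _ => rfl, fun _ => rfl⟩
  rw [ξ.one, ξ'.one]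
  rfl

theorem Ist.exists_symm (ξ : Ist A) :
    ∃ ζ : Ist A, (∀ t y, ζ.f t y = ξ.d.symm (ξ.f (1 - t) y)) ∧ ∀ y, ζ.d y = ξ.d.symm y := by
  refine ⟨⟨fun t y => ξ.d.symm (ξ.f (1 - t) y), ξ.d.symm,
    ξ.d.smooth_inv.continuous.comp (ξ.cont.comp (f := fun p : ℝ × V => (1 - p.1, p.2))
      (by fun_prop)), fun y => ?_, fun y => ?_,
    fun t ht y hy => ξ.inv _ (ξ.maps _ ⟨sub_nonneg.2 ht.2, sub_le_self _ ht.1⟩ y hy),
    fun y hy => EmbL_mem ξ hy⟩, fun _ _ => rfl, fun _ => rfl⟩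
  · rw [sub_zero, ξ.one, EmbL_left]
  · rw [sub_self, ξ.zero]

theorem Ist.mem (ξ : Ist A) {y : V} (h : y ∈ A.M) : ξ.d y ∈ A.M := by
  exact EmbL_mem ξ h

theorem Emb.mono {K K' : Set E} {Φ : E → V} (h : Emb A K' Φ) (hK : K ⊆ K') : Emb A K Φ := by
  exact ⟨h.smooth, h.maps.filter_mono (nhdsSet_mono hK), h.inj.mono hK, fun x hx => h.imm x (hK hx)⟩

theorem Emb.mem {K : Set E} {Φ : E → V} (h : Emb A K Φ) {x : E} (hx : x ∈ K) : Φ x ∈ A.M := by
  exact h.maps.self_of_nhdsSet x hx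

theorem Emb.nhd {K : Set E} {Φ : E → V} (h : Emb A K Φ) (hK : IsCompact K) {O : Set E}
    (hO : O ∈ 𝓝ˢ K) : ∃ K', IsCompact K' ∧ K ⊆ interior K' ∧ K' ⊆ O ∧ Emb A K' Φ := by
  obtain ⟨W, hW, hKW, h1, h2⟩ := nhd_inj h.smooth hK h.inj h.imm
  obtain ⟨U, hU, hKU, hUO⟩ := mem_nhdsSet_iff_exists.1 (inter_mem hO h.maps)
  obtain ⟨K', k1, k2, k3⟩ := exists_compact_between hK (hW.inter hU) (subset_inter hKW hKU)
  refine ⟨K', k1, k2, fun x hx => (hUO (k3 hx).2).1, h.smooth, ?_,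
    h1.mono fun x hx => (k3 hx).1, fun x hx => h2 x (k3 hx).1⟩
  filter_upwards [hU.mem_nhdsSet.2 fun x hx => (k3 hx).2] with x hx using (hUO hx).2

theorem Emb.ist {K : Set E} {Φ : E → V} (h : Emb A K Φ) (ξ : Ist A) :
    Emb A K fun x => ξ.d (Φ x) := by
  refine ⟨ξ.d.smooth.comp h.smooth, h.maps.mono fun x hx => ξ.mem hx,
    fun x hx y hy e => h.inj hx hy (ξ.d.toEquiv.injective e), fun x hx => ?_⟩
  exact EmbL_chain ξ.d.smooth h.smooth (ξ.d.bij _).1 (h.imm x hx)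

theorem Emb.comp {K : Set E} {Φ : E → V} (h : Emb A K Φ) {K' : Set F} {j : F → E}
    (hj : ContDiff ℝ ∞ j) (h1 : MapsTo j K' K) (h2 : InjOn j K')
    (h3 : ∀ x ∈ K', Injective (fderiv ℝ j x)) : Emb A K' fun x => Φ (j x) := by
  exact ⟨h.smooth.comp hj, (hj.continuous.tendsto_nhdsSet h1).eventually h.maps,
    fun x hx y hy e => h2 hx hy (h.inj (h1 hx) (h1 hy) e),
    fun x hx => EmbL_chain h.smooth hj (h.imm _ (h1 hx)) (h3 x hx)⟩

theorem Emb.dif {K K' : Set E} {Φ : E → V} (h : Emb A K Φ) (θ : Dif E) (h1 : MapsTo θ K' K) :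
    Emb A K' fun x => Φ (θ x) := by
  exact h.comp θ.smooth h1 θ.toEquiv.injective.injOn fun x _ => (θ.bij x).1

theorem Fam.nhd {K : Set E} {Φ : ℝ → E → V} (h : Fam A K Φ) (hK : IsCompact K)
    (hM : ∀ᶠ x in 𝓝ˢ K, ∀ t ∈ Icc (0 : ℝ) 1, Φ t x ∈ A.M) {O : Set E} (hO : O ∈ 𝓝ˢ K) :
    ∃ K', IsCompact K' ∧ K ⊆ interior K' ∧ K' ⊆ O ∧ Fam A K' Φ := by
  have hd : Differentiable ℝ fun p : ℝ × E => Φ p.1 p.2 := h.smooth.differentiable (by simp)
  obtain ⟨W, hW, hKW, h1, h2⟩ := nhd_inj (f := fun p : ℝ × E => (p.1, Φ p.1 p.2))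
    (contDiff_fst.prodMk h.smooth) (isCompact_Icc (a := (0 : ℝ)) (b := 1) |>.prod hK)
    (by
      rintro ⟨t, x⟩ ⟨ht, hx⟩ ⟨s, y⟩ ⟨-, hy⟩ e
      obtain ⟨e1, e2⟩ := Prod.mk.inj e
      dsimp only at e1 e2 ht hx hy
      subst e1
      rw [h.inj t ht hx hy e2])
    fun p hp => (EmbL_track hd p.1 p.2).2 (h.imm p.1 hp.1 p.2 hp.2)
  obtain ⟨u, w, -, hw, hu, hKw, huw⟩ := generalized_tube_lemma isCompact_Icc hK hW hKW
  obtain ⟨U, hU, hKU, hUO⟩ := mem_nhdsSet_iff_exists.1 (inter_mem hO hM)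
  obtain ⟨K', k1, k2, k3⟩ := exists_compact_between hK (hw.inter hU) (subset_inter hKw hKU)
  have k4 : ∀ t ∈ Icc (0 : ℝ) 1, ∀ x ∈ K', (t, x) ∈ W := fun t ht x hx => huw ⟨hu ht, (k3 hx).1⟩
  refine ⟨K', k1, k2, fun x hx => (hUO (k3 hx).2).1, h.smooth,
    fun t ht x hx => (hUO (k3 hx).2).2 t ht, fun t ht x hx y hy e => ?_,
    fun t ht x hx => (EmbL_track hd t x).1 (h2 _ (k4 t ht x hx))⟩
  exact (Prod.mk.inj (h1 (k4 t ht x hx) (k4 t ht y hy) (Prod.ext rfl e))).2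

theorem Emb.fam {K : Set E} {Φ : E → V} (h : Emb A K Φ) {K' : Set F} (hK' : IsCompact K')
    {j : ℝ → F → E} (hj : ContDiff ℝ ∞ fun p : ℝ × F => j p.1 p.2)
    (h1 : ∀ t ∈ Icc (0 : ℝ) 1, MapsTo (j t) K' K) (h2 : ∀ t ∈ Icc (0 : ℝ) 1, InjOn (j t) K')
    (h3 : ∀ t ∈ Icc (0 : ℝ) 1, ∀ x ∈ K', Injective (fderiv ℝ (j t) x)) :
    Fam A K' (fun t x => Φ (j t x)) ∧ ∀ᶠ x in 𝓝ˢ K', ∀ t ∈ Icc (0 : ℝ) 1, Φ (j t x) ∈ A.M := by
  refine ⟨⟨h.smooth.comp hj, fun t ht x hx => h.mem (h1 t ht hx),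
    fun t ht x hx y hy e => h2 t ht hx hy (h.inj (h1 t ht hx) (h1 t ht hy) e),
    fun t ht x hx => EmbL_chain h.smooth (hj.comp (contDiff_const.prodMk contDiff_id))
      (h.imm _ (h1 t ht hx)) (h3 t ht x hx)⟩, ?_⟩
  obtain ⟨U, hU, hKU, hUO⟩ := mem_nhdsSet_iff_exists.1 h.maps
  obtain ⟨u, w, -, hw, hu, hKw, huw⟩ := generalized_tube_lemma
    (isCompact_Icc (a := (0 : ℝ)) (b := 1)) hK' (hU.preimage hj.continuous)
    fun p hp => hKU (h1 p.1 hp.1 hp.2)
  filter_upwards [hw.mem_nhdsSet.2 hKw] with x hx t ht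
  exact hUO (huw (show (t, x) ∈ u ×ˢ w from ⟨hu ht, hx⟩))

theorem Mv.of_eq {Y : Set V} {K : Set E} {Φ Φ' : E → V} (h : ∀ᶠ x in 𝓝ˢ K, Φ x = Φ' x) :
    Mv A Y K Φ Φ' := by
  obtain ⟨ξ, h1, h2⟩ := Ist.exists_refl A
  exact ⟨ξ, fun t _ y _ => h1 t y, h.mono fun x hx => by rw [h2, hx]⟩

theorem Mv.symm {Y : Set V} {K : Set E} {Φ Φ' : E → V} (h : Mv A Y K Φ Φ') : Mv A Y K Φ' Φ := by
  obtain ⟨ξ, h1, h2⟩ := h
  obtain ⟨ζ, k1, k2⟩ := ξ.exists_symm
  refine ⟨ζ, fun t ht y hy => ?_, h2.mono fun x hx => by rw [k2, ← hx, EmbL_left]⟩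
  have e : ξ.d y = y := by rw [← ξ.one, h1 1 ⟨zero_le_one, le_rfl⟩ y hy]
  rw [k1, h1 _ ⟨sub_nonneg.2 ht.2, sub_le_self _ ht.1⟩ y hy]
  exact (congrArg ξ.d.symm e).symm.trans (EmbL_left ξ.d y)

theorem Mv.trans {Y : Set V} {K : Set E} {Φ Φ' Φ'' : E → V} (h : Mv A Y K Φ Φ')
    (h' : Mv A Y K Φ' Φ'') : Mv A Y K Φ Φ'' := by
  obtain ⟨ξ, h1, h2⟩ := h
  obtain ⟨ξ', h3, h4⟩ := h'
  obtain ⟨ζ, k1, k2⟩ := ξ.exists_trans ξ'
  refine ⟨ζ, fun t ht y hy => by rw [k1, h1 t ht y hy, h3 t ht y hy], ?_⟩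
  filter_upwards [h2, h4] with x e1 e2
  rw [k2, e1, e2]

theorem Mv.comp {Y : Set V} {K : Set E} {Φ Φ' : E → V} (h : Mv A Y K Φ Φ') {K' : Set F}
    {j : F → E} (hj : Continuous j) (h1 : MapsTo j K' K) :
    Mv A Y K' (fun x => Φ (j x)) fun x => Φ' (j x) := by
  obtain ⟨ξ, k1, k2⟩ := h
  exact ⟨ξ, k1, (hj.tendsto_nhdsSet h1).eventually k2⟩

theorem Mc.of_eq {G : Set V} {K : Set E} {Φ Φ' : E → V} (h : ∀ᶠ x in 𝓝ˢ K, Φ x = Φ' x) :
    Mc A G K Φ Φ' := by
  obtain ⟨ξ, -, h2⟩ := Ist.exists_refl A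
  exact ⟨ξ, ∅, isCompact_empty, empty_subset _, fun y _ => h2 y, h.mono fun x hx => by rw [h2, hx]⟩

theorem Mc.trans {G : Set V} {K : Set E} {Φ Φ' Φ'' : E → V} (h : Mc A G K Φ Φ')
    (h' : Mc A G K Φ' Φ'') : Mc A G K Φ Φ'' := by
  obtain ⟨ξ, C, c1, c2, h1, h2⟩ := h
  obtain ⟨ξ', C', c3, c4, h3, h4⟩ := h'
  obtain ⟨ζ, -, k2⟩ := ξ.exists_trans ξ'
  refine ⟨ζ, C ∪ C', c1.union c3, union_subset c2 c4, fun y hy => ?_, ?_⟩
  · rw [k2, h1 y fun k => hy (Or.inl k), h3 y fun k => hy (Or.inr k)]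
  · filter_upwards [h2, h4] with x e1 e2
    rw [k2, e1, e2]

theorem Same.refl (B S : Set V) : Same A B S B S := by
  obtain ⟨ξ, -, h2⟩ := Ist.exists_refl A
  exact ⟨ξ, by simp only [image_congr fun y _ => h2 y, image_id'],
    by simp only [image_congr fun y _ => h2 y, image_id']⟩

theorem Same.symm {B S B' S' : Set V} (h : Same A B S B' S') : Same A B' S' B S := by
  obtain ⟨ξ, rfl, rfl⟩ := h
  obtain ⟨ζ, -, k2⟩ := ξ.exists_symm
  exact ⟨ζ, by simp only [image_image, k2, EmbL_left, image_id'],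
    by simp only [image_image, k2, EmbL_left, image_id']⟩

theorem Same.trans {B S B' S' B'' S'' : Set V} (h : Same A B S B' S') (h' : Same A B' S' B'' S'') :
    Same A B S B'' S'' := by
  obtain ⟨ξ, rfl, rfl⟩ := h
  obtain ⟨ξ', rfl, rfl⟩ := h'
  obtain ⟨ζ, -, k2⟩ := ξ.exists_trans ξ'
  exact ⟨ζ, by rw [image_image, funext k2], by rw [image_image, funext k2]⟩

theorem Same.of_ist (ξ : Ist A) {B S : Set E} {Φ Φ' : E → V} (hS : S ⊆ B)
    (h : ∀ x ∈ B, ξ.d (Φ x) = Φ' x) : Same A (Φ '' B) (Φ '' S) (Φ' '' B) (Φ' '' S) := by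
  refine ⟨ξ, ?_, ?_⟩
  · rw [image_image]
    exact image_congr h
  · rw [image_image]
    exact image_congr fun x hx => h x (hS hx)

end Pool.Agent.Work.MP_7ba843_gt.C
end
end

-- merged part: Pool.Agent.Work.MP_7ba843_gt.C.Flow
section
/-! Flows of time dependent fields and regular families of domains.

PLAN. `tflow`: the field `(t, x) ↦ (1, v (t, x))` on `ℝ × E` is constant off a compact set
(`Ns.lip_of_const`, `Ns.exists_Flow`); the first coordinate of the flow is `s + t`;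
`φ t x = (F.φ t (0, x)).2` with inverse `y ↦ (F.φ (-t) (t, y)).2`; uniqueness on `[0, 1]` from
`ODE_solution_unique_of_mem_Icc_right` with the Lipschitz constant. `iso_fam`: follow
`SpunKnot.FlowBAux.iso_all` in Work/MP_e1e788_gt/FlowB.lean (may be imported): with a basis `b`,
`n = ∑ (∂_i G) • b i`, `q = ∑ (∂_i G) ^ 2`, the field is
`χ • (-(∂_t G) / (q + (G - c) ^ 2)) • n` with a cut-off `χ` (`Ns.exists_cut`) equal to one on
`Icc 0 1 ×ˢ C` and supported where the denominator is positive. For `t ∈ [0, 1]` and `x ∉ C` the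
time derivative vanishes (`uniqueDiffOn_Icc`), so the field vanishes and `u t = G (t, φ t x) - c`
satisfies `|u'| ≤ K |u|`; Gronwall in both directions on `[0, t]` gives the zero set, the
intermediate value theorem the sign. About 300 lines. -/

set_option linter.unusedSectionVars false
set_option linter.unusedVariables false

open Set Filter Topology Function
open scoped ContDiff

noncomputable section
namespace Pool.Agent.Work.MP_7ba843_gt.C

open Pool.Agent.Work.MP_bf98aa_gt.Ns (Dif)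

variable {V E F : Type} [NormedAddCommGroup V] [NormedSpace ℝ V] [FiniteDimensional ℝ V]
  [NormedAddCommGroup E] [NormedSpace ℝ E] [FiniteDimensional ℝ E]
  [NormedAddCommGroup F] [NormedSpace ℝ F] [FiniteDimensional ℝ F] {A : Amb V}

theorem tflow {v : ℝ × E → E} (hv : ContDiff ℝ ∞ v) (hc : HasCompactSupport v) :
    ∃ φ : ℝ → E → E, ContDiff ℝ ∞ (fun p : ℝ × E => φ p.1 p.2) ∧ (∀ x, φ 0 x = x) ∧
      (∀ t, ∃ d : Dif E, ∀ x, d x = φ t x) ∧
      (∀ t x, HasDerivAt (fun s => φ s x) (v (t, φ t x)) t) ∧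
      ∀ γ : ℝ → E, (∀ t ∈ Icc (0 : ℝ) 1, HasDerivAt γ (v (t, γ t)) t) →
        ∀ t ∈ Icc (0 : ℝ) 1, γ t = φ t (γ 0) := by
  have hX : ContDiff ℝ ∞ fun z : ℝ × E => ((1 : ℝ), v z) := contDiff_const.prodMk hv
  obtain ⟨L, hL⟩ := MP_bf98aa_gt.Ns.lip_of_const hX hc (c := (1, 0)) fun y hy => by
    rw [image_eq_zero_of_notMem_tsupport hy]
  obtain ⟨F⟩ := MP_bf98aa_gt.Ns.exists_Flow hX hL
  have f1 : ∀ s z, (F.φ s z).1 = z.1 + s := fun s z => by
    have h : ∀ r, HasDerivAt (fun r => (F.φ r z).1 - r) 0 r := fun r =>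
      ((((ContinuousLinearMap.fst ℝ ℝ E).hasFDerivAt).comp_hasDerivAt r (F.deriv r z)).sub
        (hasDerivAt_id r)).congr_deriv (sub_self (1 : ℝ))
    have := is_const_of_deriv_eq_zero (fun r => (h r).differentiableAt) (fun r => (h r).deriv) s 0
    rw [F.zero] at this
    linarith only [this]
  have f2 : ∀ t x, (t, (F.φ t (0, x)).2) = F.φ t (0, x) := fun t x =>
    Prod.ext (by rw [f1, zero_add]) rfl
  have f3 : ∀ t y, ((0 : ℝ), (F.φ (-t) (t, y)).2) = F.φ (-t) (t, y) := fun t y =>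
    Prod.ext (by rw [f1, add_neg_cancel]) rfl
  refine ⟨fun t x => (F.φ t (0, x)).2,
    (F.smooth.comp (contDiff_fst.prodMk (contDiff_const.prodMk contDiff_snd))).snd,
    fun x => congrArg Prod.snd (F.zero (0, x)), fun t => ⟨⟨⟨fun x => (F.φ t (0, x)).2, fun y => (F.φ (-t) (t, y)).2,
      fun x => ?_, fun y => ?_⟩,
      (F.smooth.comp (contDiff_const.prodMk (contDiff_const.prodMk contDiff_id))).snd,
      (F.smooth.comp (contDiff_const.prodMk (contDiff_const.prodMk contDiff_id))).snd⟩,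
      fun x => rfl⟩, fun t x => ?_, fun γ hγ t ht => ?_⟩
  · simp only [f2]
    rw [← F.add, neg_add_cancel, F.zero]
  · simp only [f3]
    rw [← F.add, add_neg_cancel, F.zero]
  · simp only [f2]
    exact ((ContinuousLinearMap.snd ℝ ℝ E).hasFDerivAt).comp_hasDerivAt t (F.deriv t (0, x))
  · have h : ∀ s ∈ Icc (0 : ℝ) 1, HasDerivAt (fun s => (s, γ s)) (1, v (s, γ s)) s :=
      fun s hs => (hasDerivAt_id s).prodMk (hγ s hs)
    exact congrArg Prod.snd (ODE_solution_unique (v := fun _ z => ((1 : ℝ), v z)) (fun _ => hL)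
      (f := fun s => (s, γ s)) (g := fun s => F.φ s (0, γ 0))
      (fun s hs => (h s hs).continuousAt.continuousWithinAt)
      (fun s hs => (h s (Ico_subset_Icc_self hs)).hasDerivWithinAt)
      (fun s _ => (F.deriv s _).continuousAt.continuousWithinAt)
      (fun s _ => (F.deriv s _).hasDerivWithinAt) (F.zero _).symm ht)

theorem Flow_sign {u u' : ℝ → ℝ} {K : ℝ} (hd : ∀ s ∈ Icc (0 : ℝ) 1, HasDerivAt u (u' s) s)
    (hb : ∀ s ∈ Icc (0 : ℝ) 1, ‖u' s‖ ≤ K * ‖u s‖) {t : ℝ} (ht : t ∈ Icc (0 : ℝ) 1) :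
    (0 ≤ u t ↔ 0 ≤ u 0) ∧ (u t = 0 ↔ u 0 = 0) := by
  have k1 : u 0 = 0 → ∀ s ∈ Icc (0 : ℝ) 1, u s = 0 := fun h =>
    eq_zero_of_abs_deriv_le_mul_abs_self_of_eq_zero_right (f' := u') (K := K)
      (fun s hs => (hd s hs).continuousAt.continuousWithinAt)
      (fun s hs => (hd s (Ico_subset_Icc_self hs)).hasDerivWithinAt) h
      fun s hs => hb s (Ico_subset_Icc_self hs)
  have k2 : ∀ r ∈ Icc (0 : ℝ) 1, u r = 0 → u 0 = 0 := fun r hr h => by
    have m : ∀ s ∈ Icc (0 : ℝ) r, r - s ∈ Icc (0 : ℝ) 1 := fun s hs =>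
      ⟨by linarith [hs.2], by linarith [hs.1, hr.2]⟩
    have d : ∀ s ∈ Icc (0 : ℝ) r, HasDerivAt (fun s => u (r - s)) (-u' (r - s)) s :=
      fun s hs => (hd _ (m s hs)).comp_const_sub r s
    have := eq_zero_of_abs_deriv_le_mul_abs_self_of_eq_zero_right (f := fun s => u (r - s))
      (f' := fun s => -u' (r - s)) (K := K) (a := 0) (b := r)
      (fun s hs => (d s hs).continuousAt.continuousWithinAt)
      (fun s hs => (d s (Ico_subset_Icc_self hs)).hasDerivWithinAt) (by simpa using h)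
      (fun s hs => by simpa using hb _ (m s (Ico_subset_Icc_self hs))) r ⟨hr.1, le_rfl⟩
    simpa using this
  have c : ContinuousOn u (Icc 0 t) := fun s hs =>
    (hd s ⟨hs.1, hs.2.trans ht.2⟩).continuousAt.continuousWithinAt
  refine ⟨⟨fun h => not_lt.1 fun h' => ?_, fun h => not_lt.1 fun h' => ?_⟩, k2 t ht,
    fun h => k1 h t ht⟩
  · obtain ⟨s, hs, e⟩ := intermediate_value_Icc ht.1 c ⟨h'.le, h⟩
    exact h'.ne (k2 s ⟨hs.1, hs.2.trans ht.2⟩ e)
  · obtain ⟨s, hs, e⟩ := intermediate_value_Icc' ht.1 c ⟨h'.le, h⟩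
    exact h'.ne (k1 (k2 s ⟨hs.1, hs.2.trans ht.2⟩ e) t ht)

theorem iso_fam {G : ℝ × E → ℝ} (hG : ContDiff ℝ ∞ G) {c : ℝ} {C : Set E} (hC : IsCompact C)
    (hout : ∀ t ∈ Icc (0 : ℝ) 1, ∀ x ∉ C, G (t, x) = G (0, x))
    (hreg : ∀ t ∈ Icc (0 : ℝ) 1, ∀ x ∈ C, G (t, x) = c → fderiv ℝ (fun y => G (t, y)) x ≠ 0) :
    ∃ (m : ℝ → E → E) (d : Dif E), Isot m ∧ (∀ x, d x = m 1 x) ∧
      (∀ t ∈ Icc (0 : ℝ) 1, ∀ x ∉ C, m t x = x) ∧ (∀ t ∈ Icc (0 : ℝ) 1, ∀ x ∈ C, m t x ∈ C) ∧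
      ∀ t ∈ Icc (0 : ℝ) 1, ∀ x,
        (c ≤ G (t, m t x) ↔ c ≤ G (0, x)) ∧ (G (t, m t x) = c ↔ G (0, x) = c) := by
  obtain ⟨b, -⟩ : ∃ b : Module.Basis (Fin (Module.finrank ℝ E)) ℝ E, True :=
    ⟨Module.finBasis ℝ E, trivial⟩
  have hd : ∀ z, HasFDerivAt G (fderiv ℝ G z) z := fun z =>
    (hG.differentiable (by simp) z).hasFDerivAt
  have hD : ∀ w : ℝ × E, ContDiff ℝ ∞ fun z => fderiv ℝ G z w := fun w =>
    (hG.fderiv_right (m := ∞) (by simp)).clm_apply contDiff_const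
  obtain ⟨a, ha⟩ : ∃ a : ℝ × E → ℝ, a = fun z => fderiv ℝ G z (1, 0) := ⟨_, rfl⟩
  obtain ⟨g, hg⟩ : ∃ g : Fin (Module.finrank ℝ E) → ℝ × E → ℝ,
      g = fun i z => fderiv ℝ G z (0, b i) := ⟨_, rfl⟩
  obtain ⟨d, hd'⟩ : ∃ d : ℝ × E → ℝ, d = fun z => ∑ i, g i z ^ 2 + (G z - c) ^ 2 := ⟨_, rfl⟩
  have sa : ContDiff ℝ ∞ a := ha ▸ hD _
  have sg : ∀ i, ContDiff ℝ ∞ (g i) := fun i => hg ▸ hD _
  have sd : ContDiff ℝ ∞ d :=
    hd' ▸ (ContDiff.sum fun i _ => (sg i).pow 2).add ((hG.sub contDiff_const).pow 2)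
  have a0 : ∀ s ∈ Icc (0 : ℝ) 1, ∀ x ∉ C, a (s, x) = 0 := by
    intro s hs x hx
    have h1 : HasDerivAt (fun s => G (s, x)) (fderiv ℝ G (s, x) (1, 0)) s :=
      (hd (s, x)).comp_hasDerivAt s ((hasDerivAt_id s).prodMk (hasDerivAt_const s x))
    rw [ha]
    exact (uniqueDiffOn_Icc zero_lt_one s hs).eq_deriv _ h1.hasDerivWithinAt
      ((hasDerivWithinAt_const s _ (G (0, x))).congr (fun r hr => hout r hr x hx) (hout s hs x hx))
  have d0 : ∀ z ∈ Icc (0 : ℝ) 1 ×ˢ C, d z ≠ 0 := by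
    rintro ⟨s, x⟩ hx h
    rw [hd'] at h
    have h1 : 0 ≤ ∑ i, g i (s, x) ^ 2 := by positivity
    have h2 := sq_nonneg (G (s, x) - c)
    have h3 : ∑ i, g i (s, x) ^ 2 = 0 := by linarith only [h1, h, h2]
    rw [Finset.sum_eq_zero_iff_of_nonneg fun _ _ => sq_nonneg _] at h3
    refine hreg s hx.1 x hx.2 (sub_eq_zero.1 (pow_eq_zero_iff two_ne_zero |>.1 (by linarith only [h2, h, h1]))) ?_
    have h4 : HasFDerivAt (fun y => G (s, y))
        ((fderiv ℝ G (s, x)).comp (ContinuousLinearMap.inr ℝ ℝ E)) x :=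
      (hd (s, x)).comp x (hasFDerivAt_prodMk_right s x)
    rw [h4.fderiv]
    refine ContinuousLinearMap.coe_injective (b.ext fun i => ?_)
    have h5 := pow_eq_zero_iff two_ne_zero |>.1 (h3 i (Finset.mem_univ i))
    rw [hg] at h5
    exact h5
  obtain ⟨χ, K', O, sχ, hK', hU, -, hO, -, χ1, χ0, -⟩ := MP_bf98aa_gt.Ns.exists_cut
    (isCompact_Icc.prod hC) (isOpen_ne_fun sd.continuous continuous_const) d0
  obtain ⟨v, hv⟩ : ∃ v : ℝ × E → E, v = fun z => (χ z * (-a z / d z)) • ∑ i, g i z • b i :=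
    ⟨_, rfl⟩
  have v0 : ∀ z ∉ K', v z = 0 := fun z hz => by simp [hv, χ0 z hz]
  have sv : ContDiff ℝ ∞ v := by
    refine contDiff_iff_contDiffAt.2 fun z => ?_
    by_cases hz : z ∈ K'
    · rw [hv]
      exact (sχ.contDiffAt.mul (sa.neg.contDiffAt.div sd.contDiffAt (hU hz))).smul
        (ContDiff.sum fun i _ => (sg i).smul contDiff_const).contDiffAt
    · refine (contDiffAt_const (c := (0 : E))).congr_of_eventuallyEq ?_
      filter_upwards [hK'.isClosed.isOpen_compl.mem_nhds hz] with w hw using v0 w hw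
  obtain ⟨K, hK⟩ := (isCompact_Icc.prod hC).exists_bound_of_continuousOn
    (f := fun z : ℝ × E => a z * (G z - c) / d z) (s := Icc (0 : ℝ) 1 ×ˢ C)
    ((sa.continuous.mul (hG.continuous.sub continuous_const)).continuousOn.div
      sd.continuous.continuousOn d0)
  obtain ⟨φ, h1, h2, h3, h4, h5⟩ := tflow sv (HasCompactSupport.intro hK' v0)
  have inj : ∀ t, Injective (φ t) := fun t => by
    obtain ⟨e, he⟩ := h3 t
    rw [← funext he]
    exact e.toEquiv.injective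
  have fix : ∀ t ∈ Icc (0 : ℝ) 1, ∀ x ∉ C, φ t x = x := fun t ht x hx =>
    (h5 (fun _ => x) (fun s hs => (hasDerivAt_const s x).congr_deriv (by
      simp [hv, a0 s hs x hx])) t ht).symm
  obtain ⟨e, he⟩ := h3 1
  refine ⟨φ, e, ⟨h1, h2, fun t _ => inj t, fun t _ x => ?_⟩, he, fix,
    fun t ht x hx => not_not.1 fun k => k ((inj t (fix t ht _ k)).symm ▸ hx), fun t ht x => ?_⟩
  · obtain ⟨e, he⟩ := h3 t
    rw [← funext he]
    exact (e.bij x).1
  have := Flow_sign (u := fun s => G (s, φ s x) - c) (K := max K 0)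
    (u' := fun s => a (s, φ s x) * (G (s, φ s x) - c) / d (s, φ s x) * (G (s, φ s x) - c))
    (fun s hs => ?_) (fun s hs => ?_) ht
  · simpa only [sub_nonneg, sub_eq_zero, h2] using this
  · refine (((hd (s, φ s x)).comp_hasDerivAt s
      ((hasDerivAt_id s).prodMk (h4 s x))).sub_const c).congr_deriv ?_
    generalize φ s x = y
    have e1 : ∀ z, ((1 : ℝ), v z) = ((1 : ℝ), (0 : E)) +
        (χ z * (-a z / d z)) • ∑ i, g i z • ((0 : ℝ), b i) := fun z => by
      ext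
      · simp [Prod.fst_sum]
      · simp [Prod.snd_sum, hv]
    have e2 : ∀ z, fderiv ℝ G z (1, v z) = a z + χ z * (-a z / d z) * ∑ i, g i z ^ 2 := fun z => by
      rw [e1, map_add, map_smul, map_sum]
      simp only [map_smul, smul_eq_mul, ha, hg, sq]
    rw [e2]
    by_cases hz : y ∈ C
    · have e3 := d0 (s, y) ⟨hs, hz⟩
      have e4 : ∑ i, g i (s, y) ^ 2 = d (s, y) - (G (s, y) - c) ^ 2 := by rw [hd']; ring
      rw [e4, χ1 _ (hO ⟨hs, hz⟩)]
      field_simp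
      ring
    · simp [a0 s hs y hz]
  · rw [norm_mul]
    refine mul_le_mul_of_nonneg_right ?_ (norm_nonneg _)
    by_cases hz : φ s x ∈ C
    · exact (hK (s, φ s x) ⟨hs, hz⟩).trans (le_max_left _ _)
    · simp [a0 s hs _ hz]

end Pool.Agent.Work.MP_7ba843_gt.C
end
end

-- merged part: Pool.Agent.Work.MP_7ba843_gt.C.DefK
section
/-! The lattice models. FROZEN: do not edit. -/

open Set Filter Topology
open scoped ContDiff

noncomputable section
namespace Pool.Agent.Work.MP_7ba843_gt.C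

open Pool.Agent.Work.MP_bf98aa_gt.Ns (Dif)
open Pool.Agent.Work.MP_735653_gt Pool.Agent.Work.MP_7ba843_gt.N

/-- the smooth neighbourhood of a complex -/
def NK (K : Finset (Cell 3)) : Set E3 := {x | 1 / 2 ≤ FK K x}

/-- its boundary -/
def BK (K : Finset (Cell 3)) : Set E3 := {x | FK K x = 1 / 2}

/-- `K'` collapses to `K` in the direction `j`, from the free coordinate `v` along `v + ε` -/
structure PCol {D : ℕ} (K K' : Finset (Cell D)) (j : Fin D) (v ε : ℤ) : Prop where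
  down : Down K
  down' : Down K'
  sub : K ⊆ K'
  even : v % 2 = 0
  sgn : ε = 1 ∨ ε = -1
  new : ∀ c ∈ K', c ∉ K → (c j = v ∨ c j = v + ε) ∧
    (Function.update c j v ∈ K' ∧ Function.update c j v ∉ K) ∧
    (Function.update c j (v + ε) ∈ K' ∧ Function.update c j (v + ε) ∉ K) ∧
    Function.update c j (v - ε) ∉ K'

/-- `θ` carries the neighbourhood of `K` to that of `K'` -/
def Meq (K K' : Finset (Cell 3)) (θ : Dif E3) : Prop :=
  ∀ x, (θ x ∈ NK K' ↔ x ∈ NK K) ∧ (θ x ∈ BK K' ↔ x ∈ BK K)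

/-- the neighbourhood of `K'` shrinks onto that of `K` -/
def Shr (K K' : Finset (Cell 3)) : Prop :=
  NK K ⊆ NK K' ∧ ∃ (θ : Dif E3) (H : ℝ × E3 → E3), Meq K' K θ ∧ Continuous H ∧
    (∀ x, H (0, x) = x) ∧ (∀ x, H (1, x) = θ x) ∧
    ∀ t ∈ Icc (0 : ℝ) 1, ∀ x ∈ NK K', H (t, x) ∈ NK K'

/-- a diffeomorphism of neighbourhoods that matches two tuples up to conjugacy -/
def Rl {ι G : Type} [Group G] (K : Finset (Cell 3)) (τ : ((ℝ → E3) → G) → ι → G)
    (K' : Finset (Cell 3)) (τ' : ((ℝ → E3) → G) → ι → G) : Prop :=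
  ∃ θ : Dif E3, Meq K K' θ ∧ ∀ h, IsPF (NK K') h → Conj (τ' h) (τ fun c => h (θ ∘ c))

/-- a tuple that depends only on the gauge class on `S` -/
def GInv {ι G : Type} [Group G] (S : Set E3) (τ : ((ℝ → E3) → G) → ι → G) : Prop :=
  ∀ h h' γ, Gauge S h h' γ → Conj (τ h) (τ h')

/-- the quadratic form of the ellipses -/
def qf (c α : ℝ) (x : E3) : ℝ := ((x 0 - c) / α) ^ 2 + ((x 2 - 1) / (22 / 5)) ^ 2

/-- a half turn about a vertical axis, cut off between two ellipses -/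
structure IsRot (c α : ℝ) (θ : Dif E3) : Prop where
  q : ∀ x, qf c α (θ x) = qf c α x
  y : ∀ x, θ x 1 = x 1
  rigid : ∀ x, qf c α x ≤ 23 / 25 → θ x = ![2 * c - x 0, x 1, 2 - x 2]
  out : ∀ x, 1 ≤ qf c α x → θ x = x

open Classical in
/-- a complex given by a predicate -/
def cx (g : ℕ) (P : ℤ → ℤ → ℤ → Prop) : Finset (Cell 3) :=
  (Fintype.piFinset fun _ => Finset.Icc (-2) (4 * (g : ℤ) + 2)).filter fun a => P (a 0) (a 1) (a 2)

theorem mem_cx {g : ℕ} {P : ℤ → ℤ → ℤ → Prop} {a : Cell 3} :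
    a ∈ cx g P ↔ (∀ i, -2 ≤ a i ∧ a i ≤ 4 * (g : ℤ) + 2) ∧ P (a 0) (a 1) (a 2) := by
  simp only [cx, Finset.mem_filter, Fintype.mem_piFinset, Finset.mem_Icc]

/-- the graph with half of the base -/
def P1 (g : ℕ) (x y z : ℤ) : Prop :=
  (Gp g x y ∧ z = 0) ∨ (0 ≤ x ∧ x ≤ 4 * g + 2 ∧ y = 0 ∧ 0 ≤ z ∧ z ≤ 2)

/-- the graph with the base -/
def PR (g : ℕ) (x y z : ℤ) : Prop :=
  (Gp g x y ∧ z = 0) ∨ (0 ≤ x ∧ x ≤ 4 * g + 2 ∧ y = 0 ∧ -2 ≤ z ∧ z ≤ 2)

/-- without the first tooth -/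
def PA (g : ℕ) (x y z : ℤ) : Prop := PR g x y z ∧ ¬ (x = 0 ∧ 1 ≤ y)

/-- with the first notch filled -/
def PB (g : ℕ) (x y z : ℤ) : Prop := PA g x y z ∨ (x = 5 ∧ 1 ≤ y ∧ y ≤ 2 ∧ z = 0)

/-- the theta graph -/
def PC (g : ℕ) (x y z : ℤ) : Prop := PB g x y z ∧ ¬ ((x = 5 ∨ x = 6) ∧ y = 1)

/-- with a longer top -/
def PD (g : ℕ) (x y z : ℤ) : Prop := PC g x y z ∨ ((x = 0 ∨ x = 1) ∧ y = 2 ∧ z = 0)

/-- with half of the roof -/
def PE (g : ℕ) (x y z : ℤ) : Prop := PD g x y z ∨ (0 ≤ x ∧ x ≤ 8 ∧ y = 2 ∧ 0 ≤ z ∧ z ≤ 2)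

/-- with the roof -/
def PT (g : ℕ) (x y z : ℤ) : Prop := PD g x y z ∨ (0 ≤ x ∧ x ≤ 8 ∧ y = 2 ∧ -2 ≤ z ∧ z ≤ 2)

/-- a smooth staircase, constant near the vertices -/
def stair (g : ℕ) (t : ℝ) : ℝ :=
  1 + 4 * ∑ i ∈ Finset.range (2 * g + 1), Real.smoothTransition (t - 4 * (i : ℕ) - 5 / 2)

/-- the contraction towards the core graph -/
def tau (g : ℕ) (ε : ℝ) (x : E3) : E3 := fun i => ε * x i + (1 - ε) * stair g (x i)

/-- the cross section of the tubes -/
def cs (u v : ℝ) : ℝ := psi 0 (u + 1) * psi 0 (v + 1)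

/-- the function of the statement -/
def Fg (g : ℕ) (x : E3) : ℝ := FK (gr3 g) x - 1 / 2

end Pool.Agent.Work.MP_7ba843_gt.C
end
end

-- merged part: Pool.Agent.Work.MP_7ba843_gt.C.FKa
section
/-! Elementary properties of the smoothed indicator functions and of the model sets.

PLAN. `psi a t = U (t - 2 a) - U (t - 2 a - 2)` with `U t = smoothTransition (t + 1 / 2)`
(`Real.smoothTransition.monotone`, `zero_of_nonpos`, `one_of_one_le`, `PD_sym`). `sum_psi`
telescopes (`Int.le_induction`). `FK_prod` is `Finset.prod_univ_sum`. `FK_le_one`: `FK_eq`,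
`PD_univ`, or compare with a large box. `FK_box`: `FK_mono`, `FK_prod`, `sum_psi`. For
`Cb_sub` and `core_sub` show `FK = 1` on these sets with `FK_box` (bar: cells `[0, 4g+2] × 0 × 0`;
tooth `i`: `2 i × [0, 2] × 0`; bridge: `[4j+2, 4j+4] × 2 × 0`) and use continuity of `FK`.
About 300 lines. -/

set_option linter.unusedSectionVars false
set_option linter.unusedVariables false

open Set Filter Topology Function
open scoped ContDiff

noncomputable section
namespace Pool.Agent.Work.MP_7ba843_gt.C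

open Pool.Agent.Work.MP_bf98aa_gt.Ns (Dif)
open Pool.Agent.Work.MP_735653_gt Pool.Agent.Work.MP_7ba843_gt.N

variable {D : ℕ}

theorem psi_nonneg (a : ℤ) (t : ℝ) : 0 ≤ psi a t :=
  sub_nonneg.2 (Real.smoothTransition.monotone (by linarith only []))

theorem psi_supp {a : ℤ} {t : ℝ} (h : psi a t ≠ 0) : 2 * a - 1 / 2 < t ∧ t < 2 * a + 5 / 2 := by
  refine ⟨not_le.1 fun k => h ?_, not_le.1 fun k => h ?_⟩
  · rw [psi, Real.smoothTransition.zero_of_nonpos (by linarith only [k]),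
      Real.smoothTransition.zero_of_nonpos (by linarith only [k]), sub_self]
  · rw [psi, Real.smoothTransition.one_of_one_le (by linarith only [k]),
      Real.smoothTransition.one_of_one_le (by linarith only [k]), sub_self]

theorem psi_one {a : ℤ} {t : ℝ} (h1 : 2 * a + 1 / 2 ≤ t) (h2 : t ≤ 2 * a + 3 / 2) : psi a t = 1 := by
  rw [psi, Real.smoothTransition.one_of_one_le (by linarith only [h1]),
    Real.smoothTransition.zero_of_nonpos (by linarith only [h2]), sub_zero]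

theorem psi_refl (c a : ℤ) (t : ℝ) : psi (c - 1 - a) (2 * c - t) = psi a t := by
  have e1 : 2 * (c : ℝ) - t - 2 * ((c - 1 - a : ℤ) : ℝ) + 1 / 2 = 1 - (t - 2 * a - 2 + 1 / 2) := by
    push_cast
    ring
  have e2 : 2 * (c : ℝ) - t - 2 * ((c - 1 - a : ℤ) : ℝ) - 2 + 1 / 2 = 1 - (t - 2 * a + 1 / 2) := by
    push_cast
    ring
  rw [psi, psi, e1, e2, PD_sym, PD_sym]
  ring

theorem psi_shift (c a : ℤ) (t : ℝ) : psi (a + c) (t + 2 * c) = psi a t := by
  have e1 : t + 2 * (c : ℝ) - 2 * ((a + c : ℤ) : ℝ) = t - 2 * a := by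
    push_cast
    ring
  rw [psi, psi, e1]

theorem FKa_tel {a b : ℤ} (hab : a ≤ b) (t : ℝ) : ∑ c ∈ Finset.Icc a b, psi c t =
    Real.smoothTransition (t - 2 * a + 1 / 2) - Real.smoothTransition (t - 2 * b - 2 + 1 / 2) := by
  induction b, hab using Int.leInduction with
  | base => rw [Finset.Icc_self, Finset.sum_singleton, psi]
  | succ b hb ih =>
    have e : Finset.Icc a (b + 1) = insert (b + 1) (Finset.Icc a b) := Finset.ext fun c => by
      simp only [Finset.mem_insert, Finset.mem_Icc]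
      omega
    have e1 : t - 2 * ((b + 1 : ℤ) : ℝ) + 1 / 2 = t - 2 * b - 2 + 1 / 2 := by
      push_cast
      ring
    rw [e, Finset.sum_insert (by simp), ih, psi, e1]
    ring

theorem sum_psi {a b : ℤ} (hab : a ≤ b) {t : ℝ} (h1 : 2 * a + 1 / 2 ≤ t) (h2 : t ≤ 2 * b + 3 / 2) :
    ∑ c ∈ Finset.Icc a b, psi c t = 1 := by
  rw [FKa_tel hab, Real.smoothTransition.one_of_one_le (by linarith only [h1]),
    Real.smoothTransition.zero_of_nonpos (by linarith only [h2]), sub_zero]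

theorem FK_nonneg (K : Finset (Cell D)) (x : Fin D → ℝ) : 0 ≤ FK K x :=
  Finset.sum_nonneg fun _ _ => Finset.prod_nonneg fun _ _ => psi_nonneg _ _

theorem FKa_sum_le (T : Finset ℤ) (t : ℝ) : ∑ c ∈ T, psi c t ≤ 1 := by
  obtain ⟨a, ha⟩ := T.bddBelow
  obtain ⟨b, hb⟩ := T.bddAbove
  refine (Finset.sum_le_sum_of_subset_of_nonneg (t := Finset.Icc (min a b) b)
    (fun c hc => Finset.mem_Icc.2 ⟨(min_le_left _ _).trans (ha hc), hb hc⟩)
    fun _ _ _ => psi_nonneg _ _).trans ?_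
  rw [FKa_tel (min_le_right _ _)]
  exact (sub_le_self _ (Real.smoothTransition.nonneg _)).trans (Real.smoothTransition.le_one _)

theorem FKa_mono {K K' : Finset (Cell D)} (h : K ⊆ K') (x : Fin D → ℝ) : FK K x ≤ FK K' x :=
  Finset.sum_le_sum_of_subset_of_nonneg h fun _ _ _ => Finset.prod_nonneg fun _ _ => psi_nonneg _ _

theorem FKa_prod (T : Fin D → Finset ℤ) (x : Fin D → ℝ) :
    FK (Fintype.piFinset T) x = ∏ i, ∑ a ∈ T i, psi a (x i) :=
  (Finset.prod_univ_sum T fun i a => psi a (x i)).symm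

theorem FK_le_one (K : Finset (Cell D)) (x : Fin D → ℝ) : FK K x ≤ 1 := by
  refine (FKa_mono (K' := Fintype.piFinset fun i => K.image (· i)) (fun a ha =>
    Fintype.mem_piFinset.2 fun i => Finset.mem_image_of_mem _ ha) x).trans ?_
  rw [FKa_prod]
  exact Finset.prod_le_one (fun _ _ => Finset.sum_nonneg fun _ _ => psi_nonneg _ _)
    fun _ _ => FKa_sum_le _ _

theorem FK_mono {K K' : Finset (Cell D)} (h : K ⊆ K') (x : Fin D → ℝ) : FK K x ≤ FK K' x :=
  FKa_mono h x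

theorem FK_congr {K K' : Finset (Cell D)} {x : Fin D → ℝ}
    (h : ∀ a : Cell D, (∀ i, 2 * (a i : ℝ) - 1 / 2 < x i ∧ x i < 2 * (a i : ℝ) + 5 / 2) →
      (a ∈ K ↔ a ∈ K')) : FK K x = FK K' x := by
  have k : ∀ a : Cell D, ∏ i, psi (a i) (x i) ≠ 0 → (a ∈ K ↔ a ∈ K') := fun a e =>
    h a fun i => psi_supp (Finset.prod_ne_zero_iff.1 e i (Finset.mem_univ i))
  refine (Finset.sum_subset (Finset.inter_subset_left (s₂ := K')) fun a ha n => ?_).symm.trans
    (Finset.sum_subset Finset.inter_subset_right fun a ha n => ?_)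
  · exact by_contra fun e => n (Finset.mem_inter.2 ⟨ha, (k a e).1 ha⟩)
  · exact by_contra fun e => n (Finset.mem_inter.2 ⟨(k a e).2 ha, ha⟩)

theorem FK_prod (T : Fin D → Finset ℤ) (x : Fin D → ℝ) :
    FK (Fintype.piFinset T) x = ∏ i, ∑ a ∈ T i, psi a (x i) :=
  FKa_prod T x

theorem FK_box {K : Finset (Cell D)} {l u : Cell D} (hl : ∀ i, l i ≤ u i)
    (h : ∀ a : Cell D, (∀ i, l i ≤ a i ∧ a i ≤ u i) → a ∈ K) {x : Fin D → ℝ}
    (hx : ∀ i, 2 * (l i : ℝ) + 1 / 2 ≤ x i ∧ x i ≤ 2 * (u i : ℝ) + 3 / 2) : FK K x = 1 := by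
  refine (FK_le_one K x).antisymm (le_trans (le_of_eq ?_)
    (FK_mono (K := Fintype.piFinset fun i => Finset.Icc (l i) (u i))
      (fun a ha => h a fun i => Finset.mem_Icc.1 (Fintype.mem_piFinset.1 ha i)) x))
  rw [FK_prod]
  exact (Finset.prod_eq_one fun i _ => sum_psi (hl i) (hx i).1 (hx i).2).symm

theorem FK_pos {K : Finset (Cell D)} {x : Fin D → ℝ} (h : FK K x ≠ 0) :
    ∃ a ∈ K, ∀ i, 2 * (a i : ℝ) - 1 / 2 < x i ∧ x i < 2 * (a i : ℝ) + 5 / 2 := by
  obtain ⟨a, ha, e⟩ := Finset.exists_ne_zero_of_sum_ne_zero h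
  exact ⟨a, ha, fun i => psi_supp (Finset.prod_ne_zero_iff.1 e i (Finset.mem_univ i))⟩

theorem NK_compact (K : Finset (Cell 3)) : IsCompact (NK K) := by
  refine (K.isCompact_biUnion (f := fun a => Icc (fun i => 2 * (a i : ℝ) - 1 / 2)
    fun i => 2 * (a i : ℝ) + 5 / 2) fun _ _ => isCompact_Icc).of_isClosed_subset
    (isClosed_le continuous_const (contDiff_FK K).continuous) fun x hx => ?_
  obtain ⟨a, ha, e⟩ := FK_pos (K := K) (x := x) (lt_of_lt_of_le (by norm_num) hx).ne'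
  exact mem_biUnion ha ⟨fun i => (e i).1.le, fun i => (e i).2.le⟩

theorem NK_mono {K K' : Finset (Cell 3)} (h : K ⊆ K') : NK K ⊆ NK K' :=
  fun x hx => le_trans hx (FK_mono h x)

theorem BK_sub (K : Finset (Cell 3)) : BK K ⊆ NK K :=
  fun _ hx => Eq.ge hx

theorem Bx_convex (a b : E3) : Convex ℝ (Bx a b) := by
  have e : Bx a b = Icc a b := Set.ext fun x => forall_and
  rw [e]
  exact convex_Icc a b

theorem FKa_mem {a b c d e f : ℝ} {x : E3} : x ∈ Icc (![a, b, c] : E3) ![d, e, f] ↔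
    (a ≤ x 0 ∧ x 0 ≤ d) ∧ (b ≤ x 1 ∧ x 1 ≤ e) ∧ c ≤ x 2 ∧ x 2 ≤ f := by
  refine ⟨fun h => ⟨⟨h.1 0, h.2 0⟩, ⟨h.1 1, h.2 1⟩, h.1 2, h.2 2⟩,
    fun h => ⟨fun i => ?_, fun i => ?_⟩⟩
  · fin_cases i
    exacts [h.1.1, h.2.1.1, h.2.2.1]
  · fin_cases i
    exacts [h.1.2, h.2.1.2, h.2.2.2]

theorem FKa_Ls (a b : ℝ) : Ls a b = Icc ![a, 5, 1] ![b, 5, 1] := Set.ext fun x => by
  rw [FKa_mem]
  exact ⟨fun h => ⟨⟨h.1, h.2.1⟩, ⟨h.2.2.1.ge, h.2.2.1.le⟩, h.2.2.2.ge, h.2.2.2.le⟩,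
    fun h => ⟨h.1.1, h.1.2, h.2.1.2.antisymm h.2.1.1, h.2.2.2.antisymm h.2.2.1⟩⟩

theorem Ls_compact (a b : ℝ) : IsCompact (Ls a b) := by
  rw [FKa_Ls]
  exact isCompact_Icc

theorem Ls_convex (a b : ℝ) : Convex ℝ (Ls a b) := by
  rw [FKa_Ls]
  exact convex_Icc _ _

theorem FKa_bar (g : ℕ) : Icc ![1, 1, 1] ![8 * (g : ℝ) + 5, 1, 1] ⊆ tree g := fun x h =>
  have k := FKa_mem.1 h
  ⟨k.2.2.2.antisymm k.2.2.1, .inl ⟨k.2.1.2.antisymm k.2.1.1, k.1⟩⟩

theorem FKa_tooth {g i : ℕ} (hi : i ≤ 2 * g + 1) :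
    Icc ![4 * (i : ℝ) + 1, 1, 1] ![4 * (i : ℝ) + 1, 5, 1] ⊆ tree g := fun x h =>
  have k := FKa_mem.1 h
  ⟨k.2.2.2.antisymm k.2.2.1, .inr ⟨i, hi, k.1.2.antisymm k.1.1, k.2.1⟩⟩

theorem tree_compact (g : ℕ) : IsCompact (tree g) := by
  have e : tree g = Icc ![1, 1, 1] ![8 * (g : ℝ) + 5, 1, 1] ∪
      ⋃ i ≤ 2 * g + 1, Icc ![4 * ((i : ℕ) : ℝ) + 1, 1, 1] ![4 * ((i : ℕ) : ℝ) + 1, 5, 1] := by
    refine Subset.antisymm ?_ (union_subset (FKa_bar g) (iUnion₂_subset fun i hi => FKa_tooth hi))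
    rintro x ⟨h, k | ⟨i, hi, k⟩⟩
    · exact .inl (FKa_mem.2 ⟨k.2, ⟨k.1.ge, k.1.le⟩, h.ge, h.le⟩)
    · exact .inr (mem_iUnion₂.2 ⟨i, hi, FKa_mem.2 ⟨⟨k.1.ge, k.1.le⟩, k.2, h.ge, h.le⟩⟩)
  rw [e]
  exact isCompact_Icc.union ((finite_le_nat _).isCompact_biUnion fun _ _ => isCompact_Icc)

theorem core_compact (g : ℕ) : IsCompact (core g) :=
  (tree_compact g).union ((finite_lt_nat g).isCompact_biUnion fun _ _ => Ls_compact _ _)

theorem FKa_Cb (g : ℕ) : Cb g = Icc ![1 / 2, 1 / 2, 1 / 2] ![8 * (g : ℝ) + 11 / 2, 3 / 2, 3 / 2] ∪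
    ⋃ i ≤ 2 * g + 1, Icc ![4 * ((i : ℕ) : ℝ) + 1 / 2, 1 / 2, 1 / 2]
      ![4 * ((i : ℕ) : ℝ) + 3 / 2, 11 / 2, 3 / 2] := by
  refine Subset.antisymm ?_ ?_
  · rintro x ⟨h1, h2, h3, h4, h5, k | ⟨i, k⟩⟩
    · exact .inl (FKa_mem.2 ⟨⟨h4, h5⟩, ⟨h2, k⟩, by linarith only [h1, (abs_le.1 h1).1],
        by linarith only [h1, (abs_le.1 h1).2]⟩)
    · have k1 := abs_le.1 k
      have hi : (i : ℝ) < (2 * g + 2 : ℕ) := by
        push_cast
        linarith only [h5, k1, k1.1]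
      exact .inr (mem_iUnion₂.2 ⟨i, Nat.lt_succ_iff.1 (Nat.cast_lt.1 hi), FKa_mem.2
        ⟨⟨by linarith only [k1, k1.1], by linarith only [k1, k1.2]⟩, ⟨h2, h3⟩, by linarith only [h1, (abs_le.1 h1).1],
          by linarith only [h1, (abs_le.1 h1).2]⟩⟩)
  · rintro x (h | h)
    · obtain ⟨⟨a, b⟩, ⟨c, d⟩, e, f⟩ := FKa_mem.1 h
      exact ⟨abs_le.2 ⟨by linarith only [e], by linarith only [f]⟩, c, by linarith only [d], a, b, .inl d⟩
    · obtain ⟨i, hi, h⟩ := mem_iUnion₂.1 h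
      obtain ⟨⟨a, b⟩, ⟨c, d⟩, e, f⟩ := FKa_mem.1 h
      have h1 : (i : ℝ) ≤ 2 * g + 1 := by exact_mod_cast hi
      have h2 : (0 : ℝ) ≤ i := i.cast_nonneg
      exact ⟨abs_le.2 ⟨by linarith only [e], by linarith only [f]⟩, c, d, by linarith only [a], by linarith only [b, h1],
        .inr ⟨i, abs_le.2 ⟨by linarith only [a], by linarith only [b]⟩⟩⟩

theorem Cb_compact (g : ℕ) : IsCompact (Cb g) := by
  rw [FKa_Cb]
  exact isCompact_Icc.union ((finite_le_nat _).isCompact_biUnion fun _ _ => isCompact_Icc)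

theorem p0_mem (g : ℕ) : p0 ∈ tree g :=
  ⟨rfl, .inl ⟨rfl, le_rfl, by
    have : (0 : ℝ) ≤ g := g.cast_nonneg
    change (1 : ℝ) ≤ _
    linarith only []⟩⟩

theorem tree_sub (g : ℕ) : tree g ⊆ interior (Cb g) := by
  rintro x ⟨h, k⟩
  refine mem_interior_iff_mem_nhds.2 (mem_of_superset (Metric.closedBall_mem_nhds x one_half_pos)
    fun y hy => ?_)
  have d : ∀ i, |y i - x i| ≤ 1 / 2 := fun i => (dist_le_pi_dist y x i).trans hy
  obtain ⟨a0, b0⟩ := abs_le.1 (d 0)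
  obtain ⟨a1, b1⟩ := abs_le.1 (d 1)
  rcases k with ⟨k1, k2, k3⟩ | ⟨i, hi, k1, k2, k3⟩
  · exact ⟨h ▸ d 2, by linarith only [a1, k1], by linarith only [b1, k1], by linarith only [a0, k2], by linarith only [b0, k3], .inl (by linarith only [b1, k1])⟩
  · have h1 : (i : ℝ) ≤ 2 * g + 1 := by exact_mod_cast hi
    have h2 : (0 : ℝ) ≤ i := i.cast_nonneg
    exact ⟨h ▸ d 2, by linarith only [a1, k2], by linarith only [b1, k3], by linarith only [a0, k1], by linarith only [b0, k1, h1], .inr ⟨i, k1 ▸ d 0⟩⟩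

theorem FKa_int {g : ℕ} {l0 u0 l1 u1 : ℤ} (h0 : l0 ≤ u0) (h1 : l1 ≤ u1)
    (hG : ∀ k h, l0 ≤ k → k ≤ u0 → l1 ≤ h → h ≤ u1 → Gp g k h) {x : E3}
    (a0 : 2 * (l0 : ℝ) + 1 / 2 ≤ x 0) (b0 : x 0 ≤ 2 * (u0 : ℝ) + 3 / 2)
    (a1 : 2 * (l1 : ℝ) + 1 / 2 ≤ x 1) (b1 : x 1 ≤ 2 * (u1 : ℝ) + 3 / 2)
    (e : 1 / 2 ≤ x 2 ∧ x 2 ≤ 3 / 2) : x ∈ interior (NK (gr3 g)) := by
  have k : FK (gr3 g) x = 1 := by
    refine FK_box (l := ![l0, l1, 0]) (u := ![u0, u1, 0]) (fun i => ?_)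
      (fun a h => mem_gr3.2 ⟨hG _ _ (h 0).1 (h 0).2 (h 1).1 (h 1).2, (h 2).2.antisymm (h 2).1⟩)
      fun i => ?_
    · fin_cases i
      exacts [h0, h1, le_rfl]
    · fin_cases i
      exacts [⟨a0, b0⟩, ⟨a1, b1⟩, by simpa using e]
  exact interior_maximal (t := {x | 1 / 2 < FK (gr3 g) x})
    (fun y (hy : 1 / 2 < FK (gr3 g) y) => show 1 / 2 ≤ FK (gr3 g) y from hy.le)
    (isOpen_lt continuous_const (contDiff_FK _).continuous) (lt_of_lt_of_eq (by norm_num) k.symm)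

theorem FKa_line {g j : ℕ} (hj : j < g) :
    Ls (8 * j + 9 / 2) (8 * j + 19 / 2) ⊆ interior (NK (gr3 g)) := by
  rintro x ⟨a, b, c, d⟩
  refine FKa_int (l0 := 4 * j + 2) (u0 := 4 * j + 4) (l1 := 2) (u1 := 2) (by omega) le_rfl
    (fun k h _ _ _ _ => ?_) ?_ ?_ ?_ ?_ ⟨by linarith only [d], by linarith only [d]⟩
  · simp only [Gp, Tt, Tp]
    omega
  all_goals
    push_cast
    linarith only [a, b, c]

theorem Cb_sub (g : ℕ) : Cb g ⊆ interior (NK (gr3 g)) := by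
  rw [FKa_Cb]
  refine union_subset (fun x h => ?_) (iUnion₂_subset fun i hi x h => ?_)
  · obtain ⟨⟨a, b⟩, ⟨c, d⟩, e⟩ := FKa_mem.1 h
    refine FKa_int (l0 := 0) (u0 := 4 * g + 2) (l1 := 0) (u1 := 0) (by omega) le_rfl
      (fun k h _ _ _ _ => .inl ⟨by omega, by omega, by omega, by omega, by omega⟩) ?_ ?_ ?_ ?_ e
    all_goals
      push_cast
      linarith only [a, b, c, d]
  · obtain ⟨⟨a, b⟩, ⟨c, d⟩, e⟩ := FKa_mem.1 h
    refine FKa_int (l0 := 2 * i) (u0 := 2 * i) (l1 := 0) (u1 := 2) le_rfl (by omega)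
      (fun k h _ _ _ _ => .inl ⟨by omega, by omega, by omega, by omega, by omega⟩) ?_ ?_ ?_ ?_ e
    all_goals
      push_cast
      linarith only [a, b, c, d]

theorem core_sub (g : ℕ) : core g ⊆ interior (NK (gr3 g)) :=
  union_subset ((tree_sub g).trans (interior_subset.trans (Cb_sub g)))
    (iUnion₂_subset fun j hj x h => FKa_line hj ⟨by linarith only [h, h.1], by linarith only [h, h.2.1], h.2.2⟩)

theorem line_sub {g j : ℕ} (hj : j < g) :
    Ls (8 * j + 9 / 2) (8 * j + 19 / 2) ⊆ interior (NK (gr3 g)) :=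
  FKa_line hj

theorem segs_core {g j : ℕ} (hj : j < g) : Segs (core g) j := by
  have h1 : (j : ℝ) + 1 ≤ g := by exact_mod_cast hj
  have h2 : (0 : ℝ) ≤ j := j.cast_nonneg
  have k : ∀ {a b l u : E3}, Icc l u ⊆ core g → a ∈ Icc l u → b ∈ Icc l u →
      IsP (core g) (seg a b) := fun h ha hb =>
    isP_seg (((convex_Icc _ _).segment_subset ha hb).trans h)
  have t : tree g ⊆ core g := subset_union_left
  have m : ∀ {a b c d e f x y z : ℝ}, a ≤ x → x ≤ d → b ≤ y → y ≤ e → c ≤ z → z ≤ f →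
      (![x, y, z] : E3) ∈ Icc (![a, b, c] : E3) ![d, e, f] := fun a b c d e f =>
    FKa_mem.2 ⟨⟨a, b⟩, ⟨c, d⟩, e, f⟩
  have e1 : 4 * ((2 * j + 1 : ℕ) : ℝ) + 1 = 8 * j + 5 := by
    push_cast
    ring
  have e2 : 4 * ((2 * j + 2 : ℕ) : ℝ) + 1 = 8 * j + 9 := by
    push_cast
    ring
  have t1 := (FKa_tooth (g := g) (i := 2 * j + 1) (by omega)).trans t
  have t2 := (FKa_tooth (g := g) (i := 2 * j + 2) (by omega)).trans t
  have t3 : Ls (8 * j + 5) (8 * j + 9) ⊆ core g := fun x h => .inr (mem_iUnion₂.2 ⟨j, hj, h⟩)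
  rw [e1] at t1
  rw [e2] at t2
  rw [FKa_Ls] at t3
  refine ⟨k ((FKa_bar g).trans t) (m ?_ ?_ ?_ ?_ ?_ ?_) (m ?_ ?_ ?_ ?_ ?_ ?_),
    k t1 (m ?_ ?_ ?_ ?_ ?_ ?_) (m ?_ ?_ ?_ ?_ ?_ ?_), k t3 (m ?_ ?_ ?_ ?_ ?_ ?_) (m ?_ ?_ ?_ ?_ ?_ ?_),
    k t2 (m ?_ ?_ ?_ ?_ ?_ ?_) (m ?_ ?_ ?_ ?_ ?_ ?_),
    k ((FKa_bar g).trans t) (m ?_ ?_ ?_ ?_ ?_ ?_) (m ?_ ?_ ?_ ?_ ?_ ?_)⟩
  all_goals linarith only [h1]

end Pool.Agent.Work.MP_7ba843_gt.C
end
end

-- merged part: Pool.Agent.Work.MP_7ba843_gt.C.ArcH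
section
/-! A smooth homotopy between the bridges of two embeddings.

PLAN. Let `c s = Φ ![s, 5, 1]`, `c' s = Φ' ![s, 5, 1]`. In `tj` the four segments other than the
bridge lie in `Cb g` (they lie in the tree), so by `IsPF.congr` and cancellation `η` takes the same
value on the images of the bridge; cut off the two end pieces of length `1 / 2` (`IsPF.tri` for the
pulled back functionals, `IsPF.comap`, `Ls_convex`, `line_sub`), which lie in `Cb g`. `IsHol.inj`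
gives homotopies `K j` on the square between `u ↦ c (8 j + 11 / 2 + 3 u)` and the same for `c'`.
With `cl t = max 0 (min 1 t)` put
`H₀ (t, s) = c s + ∑ j < g, (K j (cl (3 t - 1), cl ((s - 8 j - 11 / 2) / 3)) -
c (8 j + 11 / 2 + 3 * cl ((s - 8 j - 11 / 2) / 3)))`; the `j`-th summand vanishes for `s` outside
the `j`-th interval and for `t ≤ 1 / 3`. For `t ≥ 2 / 3`, `H₀ (t, s) = c s + ∑ j, b j s • (c' s - c s)`
where `b j` is any smooth function equal to one on `[8 j + 11 / 2, 8 j + 17 / 2]` and zero off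
`(8 j + 5, 8 j + 9)`, so it is smooth there. `approx` with the closed set
`C = {t ≤ 0} ∪ {1 ≤ t} ∪ {∀ j < g, s ∉ Ioo (8 j + 109 / 20) (8 j + 171 / 20)}`, the compact set
`Q = Icc (-1) 2 ×ˢ ⋃ j < g, Icc (8 j + 9 / 2) (8 j + 19 / 2)` and `U = A.U`; `H = r ∘ σ`. About 300
lines. -/

set_option linter.unusedSectionVars false
set_option linter.unusedVariables false

open Set Filter Topology Function
open scoped ContDiff

noncomputable section
namespace Pool.Agent.Work.MP_7ba843_gt.C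

open Pool.Agent.Work.MP_bf98aa_gt.Ns (Dif)
open Pool.Agent.Work.MP_735653_gt Pool.Agent.Work.MP_7ba843_gt.N

variable {V E F : Type} [NormedAddCommGroup V] [NormedSpace ℝ V] [FiniteDimensional ℝ V]
  [NormedAddCommGroup E] [NormedSpace ℝ E] [FiniteDimensional ℝ E]
  [NormedAddCommGroup F] [NormedSpace ℝ F] [FiniteDimensional ℝ F] {A : Amb V}

variable {G : Type} [Group G] {η : (ℝ → V) → G}

/-- one bridge: a continuous correction term -/
theorem ArcH_one {M : Set V} {c c' : ℝ → V} (hc : ContDiff ℝ ∞ c) (hc' : ContDiff ℝ ∞ c') {a : ℝ}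
    (e : ∀ s ∈ Icc (a - 1) (a + 4), s ∉ Ioo a (a + 3) → c s = c' s) {K : ℝ × ℝ → V}
    (k1 : ContinuousOn K Sq) (k2 : MapsTo K Sq M)
    (k3 : ∀ u ∈ Icc (0 : ℝ) 1, K (0, u) = c (a + 3 * u) ∧ K (1, u) = c' (a + 3 * u))
    (k4 : ∀ t ∈ Icc (0 : ℝ) 1, K (t, 0) = c a ∧ K (t, 1) = c (a + 3)) :
    ∃ (T : ℝ × ℝ → V) (D : ℝ → V), Continuous T ∧ ContDiff ℝ ∞ D ∧
      (∀ p : ℝ × ℝ, p.2 ∉ Ioo a (a + 3) ∨ p.1 ≤ 1 / 3 → T p = 0) ∧
      (∀ p : ℝ × ℝ, 2 / 3 ≤ p.1 → T p = D p.2) ∧ (∀ s ∈ Icc (a - 1) (a + 4), D s = c' s - c s) ∧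
      ∀ p : ℝ × ℝ, p.2 ∈ Ioo a (a + 3) → c p.2 + T p ∈ M := by
  obtain ⟨cl, c0, c1, c2, c3, c4⟩ : ∃ cl : ℝ → ℝ, Continuous cl ∧ (∀ t, cl t ∈ Icc (0 : ℝ) 1) ∧
      (∀ t ≤ 0, cl t = 0) ∧ (∀ t, 1 ≤ t → cl t = 1) ∧ ∀ t ∈ Icc (0 : ℝ) 1, cl t = t :=
    ⟨fun t => max 0 (min 1 t), by fun_prop,
      fun t => ⟨le_max_left _ _, max_le zero_le_one (min_le_left _ _)⟩,
      fun t h => max_eq_left ((min_le_right _ _).trans h),
      fun t h => by simp only [min_eq_left h, max_eq_right zero_le_one],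
      fun t h => by simp only [min_eq_right h.2, max_eq_right h.1]⟩
  have m : ∀ s ∈ Ioo a (a + 3), a + 3 * cl ((s - a) / 3) = s := fun s h => by
    rw [c4 _ ⟨by linarith only [h, h.1], by linarith [h.2]⟩]
    ring
  have o : ∀ s, s ∉ Ioo a (a + 3) → cl ((s - a) / 3) = 0 ∨ cl ((s - a) / 3) = 1 := fun s h =>
    (not_and_or.1 h).imp (fun k => c2 _ (by linarith [not_lt.1 k])) fun k =>
      c3 _ (by linarith [not_lt.1 k])
  have z : ∀ s, s ∉ Ioo a (a + 3) →
      c' (a + 3 * cl ((s - a) / 3)) - c (a + 3 * cl ((s - a) / 3)) = 0 := fun s h => by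
    rcases o s h with k | k <;> rw [k, e _ ⟨by linarith only [], by linarith only []⟩ fun k => by
      linarith [k.1, k.2], sub_self]
  have d : ∀ s ∈ Icc (a - 1) (a + 4),
      c' (a + 3 * cl ((s - a) / 3)) - c (a + 3 * cl ((s - a) / 3)) = c' s - c s := fun s h => by
    by_cases k : s ∈ Ioo a (a + 3)
    · rw [m s k]
    · rw [z s k, e s h k, sub_self]
  refine ⟨fun p => K (cl (3 * p.1 - 1), cl ((p.2 - a) / 3)) - c (a + 3 * cl ((p.2 - a) / 3)),
    fun s => c' (a + 3 * cl ((s - a) / 3)) - c (a + 3 * cl ((s - a) / 3)), ?_, ?_, ?_, ?_, d, ?_⟩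
  · exact (k1.comp_continuous (by fun_prop) fun p => ⟨c1 _, c1 _⟩).sub
      (hc.continuous.comp (by fun_prop))
  · refine contDiff_iff_contDiffAt.2 fun s => ?_
    by_cases k : s ∈ Icc a (a + 3)
    · refine (hc'.sub hc).contDiffAt.congr_of_eventuallyEq ?_
      filter_upwards [Icc_mem_nhds (by linarith [k.1] : a - 1 < s) (by linarith [k.2] : s < a + 4)]
        with x hx using d x hx
    · refine (contDiffAt_const (c := 0)).congr_of_eventuallyEq ?_
      filter_upwards [isClosed_Icc.isOpen_compl.mem_nhds k] with x hx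
        using z x fun k => hx (Ioo_subset_Icc_self k)
  · rintro p (k | k)
    · rcases o _ k with k | k <;> simp only [k, k4 _ (c1 _), mul_zero, add_zero, mul_one, sub_self]
    · simp only [c2 _ (by linarith only [k] : 3 * p.1 - 1 ≤ 0), k3 _ (c1 _), sub_self]
  · intro p k
    simp only [c3 _ (by linarith only [k] : 1 ≤ 3 * p.1 - 1), k3 _ (c1 _)]
  · intro p k
    simp only [m _ k, add_sub_cancel]
    exact k2 ⟨c1 _, c1 _⟩

theorem ArcH_box {g i : ℕ} (hi : i ≤ 2 * g) {u v : ℝ} (hu : u = 4 * i + 1 / 2)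
    (hv : v = 4 * i + 3 / 2) : Bx ![u, 1, 1] ![v, 5, 1] ⊆ Cb g := by
  intro x hx
  have h0 := hx 0
  have h1 := hx 1
  have h2 := hx 2
  have : (i : ℝ) ≤ 2 * g := by exact_mod_cast hi
  have : (0 : ℝ) ≤ i := i.cast_nonneg
  simp only [Matrix.cons_val_zero, Matrix.cons_val_one, Matrix.cons_val] at h0 h1 h2
  exact ⟨abs_le.2 ⟨by linarith only [h2], by linarith only [h2]⟩, by linarith only [h1], by linarith only [h1], by linarith only [hu, h0], by linarith,
    .inr ⟨i, abs_le.2 ⟨by linarith only [hu, h0], by linarith only [hv, h0]⟩⟩⟩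

theorem ArcH_base {g j : ℕ} (hj : j < g) : Bx ![1, 1, 1] ![8 * j + 9, 1, 1] ⊆ Cb g := by
  intro x hx
  have h0 := hx 0
  have h1 := hx 1
  have h2 := hx 2
  have : (j : ℝ) + 1 ≤ g := by exact_mod_cast hj
  simp only [Matrix.cons_val_zero, Matrix.cons_val_one, Matrix.cons_val] at h0 h1 h2
  exact ⟨abs_le.2 ⟨by linarith only [h2], by linarith only [h2]⟩, by linarith only [h1], by linarith only [h1], by linarith only [h0], by linarith only [h0, this],
    .inl (by linarith only [h1])⟩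

theorem ArcH_mem {a b x y z : ℝ} (h : a ≤ x ∧ x ≤ b) (h' : 1 ≤ y ∧ y ≤ z) :
    ![x, y, 1] ∈ Bx ![a, 1, 1] ![b, z, 1] := fun i => by
  fin_cases i
  exacts [h, h', ⟨le_rfl, le_rfl⟩]

theorem ArcH_ls {a b x : ℝ} (h : a ≤ x) (h' : x ≤ b) : ![x, 5, 1] ∈ Ls a b := ⟨h, h', rfl, rfl⟩

theorem ArcH_val (hη : IsHol A.M η) {g : ℕ} {Φ Φ' : E3 → V} (h : Emb A (NK (gr3 g)) Φ)
    (h' : Emb A (NK (gr3 g)) Φ') (e : EqOn Φ Φ' (Cb g)) {j : ℕ} (hj : j < g)
    (ht : tj (fun c => η (Φ ∘ c)) j = tj (fun c => η (Φ' ∘ c)) j) :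
    η (Φ ∘ seg ![8 * j + 11 / 2, 5, 1] ![8 * j + 17 / 2, 5, 1]) =
      η (Φ' ∘ seg ![8 * j + 11 / 2, 5, 1] ![8 * j + 17 / 2, 5, 1]) := by
  have j0 : (0 : ℝ) ≤ j := j.cast_nonneg
  have k : ∀ {u v a b : E3}, Bx u v ⊆ Cb g → a ∈ Bx u v → b ∈ Bx u v →
      η (Φ ∘ seg a b) = η (Φ' ∘ seg a b) := fun s ha hb => hη.congr _ _ fun t ht =>
    e (s ((isP_seg ((Bx_convex _ _).segment_subset ha hb)).2 ht))
  have b0 := ArcH_base hj
  have b1 := ArcH_box (i := 2 * j + 1) (g := g) (u := 8 * j + 9 / 2) (v := 8 * j + 11 / 2)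
    (by omega) (by push_cast; ring) (by push_cast; ring)
  have b2 := ArcH_box (i := 2 * j + 2) (g := g) (u := 8 * j + 17 / 2) (v := 8 * j + 19 / 2)
    (by omega) (by push_cast; ring) (by push_cast; ring)
  have s : ∀ {Ψ : E3 → V}, Emb A (NK (gr3 g)) Ψ →
      η (Ψ ∘ seg ![8 * j + 5, 5, 1] ![8 * j + 9, 5, 1]) =
      η (Ψ ∘ seg ![8 * j + 5, 5, 1] ![8 * j + 11 / 2, 5, 1]) *
        η (Ψ ∘ seg ![8 * j + 11 / 2, 5, 1] ![8 * j + 17 / 2, 5, 1]) *
        η (Ψ ∘ seg ![8 * j + 17 / 2, 5, 1] ![8 * j + 9, 5, 1]) := fun {Ψ} hΨ => by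
    have P := hη.toIsPF.comap (T := Ls (8 * j + 9 / 2) (8 * j + 19 / 2))
      hΨ.smooth.continuous.continuousOn fun x hx => hΨ.mem (interior_subset (line_sub hj hx))
    have t := fun x y z hx hx' hy hy' hz hz' => P.tri subset_rfl (Ls_convex _ _)
      (ArcH_ls (x := x) hx hx') (ArcH_ls (x := y) hy hy') (ArcH_ls (x := z) hz hz')
    rw [t, t] <;> linarith only []
  simp only [tj, s h, s h', p0] at ht
  rw [k b0 (ArcH_mem _ _) (ArcH_mem _ _), k (b := ![8 * j + 5, 5, 1]) b1 (ArcH_mem _ _) (ArcH_mem _ _),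
    k (b := ![8 * j + 11 / 2, 5, 1]) b1 (ArcH_mem _ _) (ArcH_mem _ _),
    k (b := ![8 * j + 9, 5, 1]) b2 (ArcH_mem _ _) (ArcH_mem _ _),
    k (b := ![8 * j + 9, 1, 1]) b2 (ArcH_mem _ _) (ArcH_mem _ _),
    k (b := ![1, 1, 1]) b0 (ArcH_mem _ _) (ArcH_mem _ _)] at ht
  · simpa only [mul_left_inj, mul_right_inj] using ht
  all_goals constructor <;> linarith only []

theorem ArcH_seg (a b u : ℝ) : seg ![a, 5, 1] ![b, 5, 1] u = ![a + (b - a) * u, 5, 1] := by
  funext i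
  fin_cases i <;> simp [seg, mul_comm]

theorem arc_htp (hη : IsHol A.M η) {g : ℕ} {Φ Φ' : E3 → V} (h : Emb A (NK (gr3 g)) Φ)
    (h' : Emb A (NK (gr3 g)) Φ') (e : EqOn Φ Φ' (Cb g))
    (ht : tup g (fun c => η (Φ ∘ c)) = tup g fun c => η (Φ' ∘ c)) :
    ∃ H : ℝ × ℝ → V, ContDiff ℝ ∞ H ∧ ∀ j < g, ∀ s ∈ Icc (8 * (j : ℝ) + 9 / 2) (8 * j + 19 / 2),
      (∀ t ∈ Icc (-1 : ℝ) 2, H (t, s) ∈ A.M) ∧ H (0, s) = Φ ![s, 5, 1] ∧ H (1, s) = Φ' ![s, 5, 1] ∧
      (s ∉ Ioo (8 * (j : ℝ) + 109 / 20) (8 * j + 171 / 20) → ∀ t, H (t, s) = Φ ![s, 5, 1]) := by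
  have L : ContDiff ℝ ∞ fun s : ℝ => (![s, 5, 1] : E3) := contDiff_pi.2 fun i => by
    fin_cases i
    exacts [contDiff_id, contDiff_const, contDiff_const]
  have hc := h.smooth.comp L
  have hc' := h'.smooth.comp L
  have mem : ∀ {Ψ : E3 → V}, Emb A (NK (gr3 g)) Ψ → ∀ j < g,
      ∀ s ∈ Icc (8 * (j : ℝ) + 9 / 2) (8 * j + 19 / 2), Ψ ![s, 5, 1] ∈ A.M := fun hΨ j hj s hs =>
    hΨ.mem (interior_subset (line_sub hj (ArcH_ls hs.1 hs.2)))
  have one : ∀ j : Fin g, _ := fun j => by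
    have e1 : ∀ s ∈ Icc (8 * ((j : ℕ) : ℝ) + 11 / 2 - 1) (8 * (j : ℕ) + 11 / 2 + 4),
        s ∉ Ioo (8 * ((j : ℕ) : ℝ) + 11 / 2) (8 * (j : ℕ) + 11 / 2 + 3) →
        Φ ![s, 5, 1] = Φ' ![s, 5, 1] := fun s hs k => by
      have := j.2
      rcases not_and_or.1 k with k | k
      · exact e (ArcH_box (i := 2 * j + 1) (by omega) rfl rfl (ArcH_mem
          ⟨by push_cast; linarith only [hs, hs.1], by push_cast; linarith only [k, not_lt.1 k]⟩ (by norm_num)))
      · exact e (ArcH_box (i := 2 * j + 2) (by omega) rfl rfl (ArcH_mem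
          ⟨by push_cast; linarith only [k, not_lt.1 k], by push_cast; linarith only [hs, hs.2]⟩ (by norm_num)))
    have s1 : ∀ u : ℝ, seg ![8 * ((j : ℕ) : ℝ) + 11 / 2, 5, 1] ![8 * (j : ℕ) + 17 / 2, 5, 1] u =
        ![8 * (j : ℕ) + 11 / 2 + 3 * u, 5, 1] := fun u => by
      rw [ArcH_seg]
      congr 3
      ring
    have P : ∀ {Ψ : E3 → V}, Emb A (NK (gr3 g)) Ψ → IsP A.M
        (Ψ ∘ seg ![8 * ((j : ℕ) : ℝ) + 11 / 2, 5, 1] ![8 * (j : ℕ) + 17 / 2, 5, 1]) := fun hΨ =>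
      (isP_seg ((Ls_convex _ _).segment_subset (ArcH_ls (by linarith only []) (by linarith only []))
        (ArcH_ls (by linarith only []) (by linarith only [])))).map hΨ.smooth.continuous.continuousOn
        fun x hx => hΨ.mem (interior_subset (line_sub j.2 hx))
    have K := hη.inj _ _ (P h) (P h') (by
      simp only [comp_apply, s1]
      exact e1 _ ⟨by linarith only [], by linarith only []⟩ fun k => by linarith only [k, k.1]) (by
      simp only [comp_apply, s1]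
      exact e1 _ ⟨by linarith only [], by linarith only []⟩ fun k => by linarith only [k, k.2])
      (ArcH_val hη h h' e j.2 (congrFun ht j))
    simp only [comp_apply, s1, mul_zero, add_zero, mul_one] at K
    exact K.elim fun K k => ArcH_one hc hc' e1 k.1 k.2.1 k.2.2.1 k.2.2.2
  choose T D t1 t2 t3 t4 t5 t6 using one
  simp only [comp_apply] at t5 t6
  have far : ∀ {i j : ℕ}, i ≠ j → ∀ s ∈ Icc (8 * (j : ℝ) + 9 / 2) (8 * j + 19 / 2),
      s ∉ Ioo (8 * (i : ℝ) + 109 / 20) (8 * i + 171 / 20) := fun {i j} n s hs k => by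
    rcases n.lt_or_gt with n | n
    · have : (i : ℝ) + 1 ≤ j := by exact_mod_cast n
      linarith only [this, hs, k, hs.1, k.2]
    · have : (j : ℝ) + 1 ≤ i := by exact_mod_cast n
      linarith only [this, hs, k, hs.2, k.1]
  have sub : ∀ {i : ℕ} {s : ℝ}, s ∉ Ioo (8 * (i : ℝ) + 109 / 20) (8 * i + 171 / 20) →
      s ∉ Icc (8 * (i : ℝ) + 11 / 2) (8 * i + 11 / 2 + 3) := fun n k =>
    n ⟨by linarith only [k, k.1], by linarith only [k, k.2]⟩
  have sum : ∀ j : Fin g, ∀ p : ℝ × ℝ,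
      p.2 ∈ Icc (8 * ((j : ℕ) : ℝ) + 9 / 2) (8 * (j : ℕ) + 19 / 2) → ∑ i, T i p = T j p :=
    fun j p hp => Finset.sum_eq_single j (fun i _ n => t3 i p (.inl fun k =>
      sub (far (Fin.val_ne_of_ne n) _ hp) (Ioo_subset_Icc_self k))) fun k => absurd (Finset.mem_univ j) k
  have val : ∀ j : Fin g, ∀ p : ℝ × ℝ,
      p.2 ∈ Icc (8 * ((j : ℕ) : ℝ) + 9 / 2) (8 * (j : ℕ) + 19 / 2) →
      Φ ![p.2, 5, 1] + ∑ i, T i p ∈ A.M := fun j p hp => by
    rw [sum j p hp]
    by_cases k : p.2 ∈ Ioo (8 * ((j : ℕ) : ℝ) + 11 / 2) (8 * (j : ℕ) + 11 / 2 + 3)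
    · exact t6 j p k
    · rw [t3 j p (.inl k), add_zero]
      exact mem h j j.2 _ hp
  have o1 : IsOpen ({p : ℝ × ℝ | p.1 < 1 / 3} ∪
      ⋂ i : Fin g, Prod.snd ⁻¹' (Icc (8 * ((i : ℕ) : ℝ) + 11 / 2) (8 * (i : ℕ) + 11 / 2 + 3))ᶜ) :=
    (isOpen_lt continuous_fst continuous_const).union
      (isOpen_iInter_of_finite fun i => isClosed_Icc.isOpen_compl.preimage continuous_snd)
  have o2 : IsOpen {p : ℝ × ℝ | 2 / 3 < p.1} := isOpen_lt continuous_const continuous_fst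
  obtain ⟨σ, s1, s2, s3⟩ := approx (H := fun p : ℝ × ℝ => Φ ![p.2, 5, 1] + ∑ i, T i p)
    (Q := Icc (-1) 2 ×ˢ ⋃ j : Fin g, Icc (8 * ((j : ℕ) : ℝ) + 9 / 2) (8 * (j : ℕ) + 19 / 2))
    (C := ({p | p.1 ≤ 0} ∪ ⋂ i : Fin g,
      Prod.snd ⁻¹' (Ioo (8 * ((i : ℕ) : ℝ) + 109 / 20) (8 * (i : ℕ) + 171 / 20))ᶜ) ∪ {p | 1 ≤ p.1})
    ((hc.continuous.comp continuous_snd).add (continuous_finsetSum _ fun i _ => t1 i))
    (isCompact_Icc.prod (isCompact_iUnion fun _ => isCompact_Icc)) A.isOpen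
    (fun p hp => (mem_iUnion.1 hp.2).elim fun j k => A.sub (val j p k))
    (((isClosed_le continuous_fst continuous_const).union (isClosed_iInter fun i =>
      isOpen_Ioo.isClosed_compl.preimage continuous_snd)).union
      (isClosed_le continuous_const continuous_fst)) (o1.union o2)
    (union_subset_union (union_subset_union (fun p (k : p.1 ≤ 0) => show p.1 < 1 / 3 by linarith only [k])
      (iInter_mono fun i p k => sub k)) fun p (k : 1 ≤ p.1) => show 2 / 3 < p.1 by linarith)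
    (fun p hp => ContDiffAt.contDiffWithinAt (by
      rcases hp with hp | hp
      · refine (hc.comp contDiff_snd).contDiffAt.congr_of_eventuallyEq ?_
        filter_upwards [o1.mem_nhds hp] with q hq
        rw [Finset.sum_eq_zero fun i _ => t3 i q (hq.symm.imp
          (fun k l => (mem_iInter.1 k i : q.2 ∉ _) (Ioo_subset_Icc_self l)) le_of_lt), add_zero]
        rfl
      · refine ((hc.add (ContDiff.sum (s := Finset.univ) fun i _ => t2 i)).comp
          contDiff_snd).contDiffAt.congr_of_eventuallyEq ?_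
        filter_upwards [o2.mem_nhds hp] with q hq
        rw [Finset.sum_congr rfl fun i _ => t4 i q (le_of_lt hq)]
        rfl))
  refine ⟨A.r ∘ σ, A.smooth.comp s1, fun j hj s hs => ⟨fun t k => A.maps _ (s3 (t, s)
    ⟨k, mem_iUnion.2 ⟨⟨j, hj⟩, hs⟩⟩ (right_mem_segment _ _ _)), ?_, ?_, fun n t => ?_⟩⟩
  · rw [comp_apply, s2 (.inl (.inl (le_refl (0 : ℝ))))]
    simp only
    rw [sum ⟨j, hj⟩ _ hs, t3 _ _ (.inr (by norm_num)), add_zero, A.fix _ (mem h j hj s hs)]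
  · rw [comp_apply, s2 (.inr (le_refl (1 : ℝ)))]
    simp only
    rw [sum ⟨j, hj⟩ _ hs, t4 _ _ (by norm_num), t5 _ _ ⟨by linarith only [hj, hs, hs.1], by linarith only [hj, hs, hs.2]⟩,
      add_sub_cancel, A.fix _ (mem h' j hj s hs)]
  · rw [comp_apply, s2 (.inl (.inr (mem_iInter.2 fun i => by
      by_cases k : (i : ℕ) = j
      exacts [k ▸ n, far k s hs])))]
    simp only
    rw [sum ⟨j, hj⟩ (t, s) hs,
      t3 ⟨j, hj⟩ (t, s) (.inl fun k => sub n (Ioo_subset_Icc_self k)), add_zero,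
      A.fix _ (mem h j hj s hs)]

end Pool.Agent.Work.MP_7ba843_gt.C
end
end

-- merged part: Pool.Agent.Work.MP_7ba843_gt.C.ColF
section
/-! A collapse gives a regular family of functions.

PLAN. Let `U t = smoothTransition (t + 1 / 2)`, `P x = ∑ c ∈ K' \ K with c j = v, ∏ k ≠ j,
psi (c k) (x k)`, so `FK K' x = FK K x + P x * ψ (x j)` with `ψ = psi v + psi (v + ε)`. For
`ε = 1` put `φ s t = U (t - 2 v - 4 s) - U (t - 2 v - 4)` and `G (s, x) = FK K x + P x * φ s (x j)`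
(for `ε = -1` either mirror, `φ s t = U (t - 2 v + 2) - U (t - 2 v - 2 + 4 s)`, or reduce to
`ε = 1` by the reflection `psi_refl`). Then `0 ≤ φ s ≤ ψ` for `s ∈ [0, 1]`. Regularity: assume
`G = 1 / 2` and the derivative vanishes at `x`, `t = x j`. If `φ s t = 0` then `t` is a minimum of
`φ s`, the derivative is that of `FK K` and `FK_regular` applies; if `φ s t = ψ t` likewise with
`K'`. Otherwise `μ = φ s t / ψ t ∈ (0, 1)` and on the hyperplane through `x`,
`G = (1 - μ) FK K + μ FK K'`. `ColF_sign`: for every down-closed `K` and every `k` the derivative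
of `FK K` in the direction `k` times `dk (nk (x k))` is `≤ 0` (see the proof of `FK_regular`,
`pD_anti`), and `ColF_reg`: if `0 < FK K x < 1` some such derivative is not zero (`pD_pivot`). So
the derivatives of `FK K` and `FK K'` in the directions `k ≠ j` vanish. If `P x = 0`, `FK_regular`
for `K` gives a contradiction. If `P x > 0`, let `Q b = FK K (update x j (2 b + 1))`, `Q' b` for
`K'`; `FK K x = ∑ b, psi b t * Q b` also for the derivatives in the directions `k ≠ j`, so for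
`b ∈ {v, v + 1}` with `psi b t > 0` both `Q b` and `Q' b = Q b + P` lie in `{0, 1}`. Hence `P = 1`,
`Q v = Q (v + 1) = Q (v - 1) = 0`, `Q (v + 2) = 1`, and along the line in the direction `j`
`G = U (t - 2 v - 4 s)`, whose derivative is positive where the value is `1 / 2`. About 400
lines. -/

set_option linter.unusedSectionVars false
set_option linter.unusedVariables false

open Set Filter Topology Function
open scoped ContDiff

noncomputable section
namespace Pool.Agent.Work.MP_7ba843_gt.C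

open Pool.Agent.Work.MP_bf98aa_gt.Ns (Dif)
open Pool.Agent.Work.MP_735653_gt Pool.Agent.Work.MP_7ba843_gt.N

section

open Real

variable {D : ℕ} {K : Finset (Cell D)} {x : Fin D → ℝ} {j : Fin D} {v ε : ℤ}

theorem ColF_line {F : (Fin D → ℝ) → ℝ} (hF : DifferentiableAt ℝ F x) (k : Fin D) :
    HasDerivAt (fun τ => F (update x k τ)) (fderiv ℝ F x (Pi.single k 1)) (x k) := by
  have h : HasFDerivAt F (fderiv ℝ F x) (update x k (x k)) := by
    rw [update_eq_self]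
    exact hF.hasFDerivAt
  exact h.comp_hasDerivAt (x k) (hasDerivAt_update x k (x k))

theorem ColF_st (z : ℝ) : HasDerivAt smoothTransition (deriv smoothTransition z) z :=
  ((smoothTransition.contDiff (n := 1)).differentiable (by simp) z).hasDerivAt

theorem ColF_dz {z : ℝ} (h : deriv smoothTransition z ≠ 0) : 0 < z ∧ z < 1 :=
  ⟨not_le.1 fun k => h (IsLocalMin.deriv_eq_zero (.of_forall fun y =>
    (smoothTransition.zero_of_nonpos k).trans_le (smoothTransition.nonneg y))),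
  not_le.1 fun k => h (IsLocalMax.deriv_eq_zero (.of_forall fun y =>
    (smoothTransition.le_one y).trans_eq (smoothTransition.one_of_one_le k).symm))⟩

/-- the local parameters -/
def ColF_r (x : Fin D → ℝ) (i : Fin D) : ℝ := smoothTransition (qk (nk (x i)) (x i))

theorem ColF_loc (K : Finset (Cell D)) (x : Fin D → ℝ) (i : Fin D) {t : ℝ}
    (ht : |t - 2 * nk (x i)| < 3 / 2) : FK K (update x i t) = pD (famK K fun i => nk (x i))
      (update (ColF_r x) i (smoothTransition (qk (nk (x i)) t))) := by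
  rw [FK_eq K (fun i => nk (x i)) _ fun k => ?_]
  · refine congrArg _ (funext fun k => ?_)
    rcases eq_or_ne k i with rfl | n
    · simp only [update_self]
    · simp only [update_of_ne n, ColF_r]
  · rcases eq_or_ne k i with rfl | n
    · rwa [update_self]
    · rw [update_of_ne n]
      linarith only [Reg_nk (x k)]

theorem ColF_der (K : Finset (Cell D)) (x : Fin D → ℝ) (i : Fin D) :
    fderiv ℝ (FK K) x (Pi.single i 1) =
      deriv smoothTransition (qk (nk (x i)) (x i)) * dk (nk (x i)) *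
        (pD (famK K fun i => nk (x i)) (update (ColF_r x) i 1) -
          pD (famK K fun i => nk (x i)) (update (ColF_r x) i 0)) := by
  have hq : HasDerivAt (qk (nk (x i))) (dk (nk (x i))) (x i) := by
    unfold qk
    simpa using (((hasDerivAt_id (x i)).sub_const (2 * (nk (x i) : ℝ))).const_mul
      (dk (nk (x i)))).add_const (1 / 2 : ℝ)
  have hS := (ColF_st _).comp (x i) hq
  refine ((ColF_line ((contDiff_FK K).differentiable (by simp) x) i).unique
    (((hS.mul_const (pD (famK K fun i => nk (x i)) (update (ColF_r x) i 1))).add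
      ((hS.const_sub 1).mul_const (pD (famK K fun i => nk (x i))
        (update (ColF_r x) i 0)))).congr_of_eventuallyEq ?_)).trans (by ring)
  have c : Continuous fun t : ℝ => |t - 2 * (nk (x i) : ℝ)| := by fun_prop
  filter_upwards [c.continuousAt.eventually_lt (continuousAt_const (y := 3 / 2))
    (by linarith only [Reg_nk (x i)] : |x i - 2 * (nk (x i) : ℝ)| < 3 / 2)] with t ht
  rw [ColF_loc K x i ht, pD_update]
  rfl

theorem ColF_upd {r : Fin D → ℝ} (h : ∀ i, r i ∈ Icc (0 : ℝ) 1) (i : Fin D) {e : ℝ}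
    (he : e ∈ Icc (0 : ℝ) 1) (k : Fin D) : update r i e k ∈ Icc (0 : ℝ) 1 := by
  rcases eq_or_ne k i with rfl | n
  · rwa [update_self]
  · rw [update_of_ne n]
    exact h k

theorem ColF_anti {𝒟 : Finset (Finset (Fin D))} (h : ∀ T ∈ 𝒟, ∀ S ⊆ T, S ∈ 𝒟) {r : Fin D → ℝ}
    (hr : ∀ i, r i ∈ Icc (0 : ℝ) 1) (i : Fin D) : pD 𝒟 (update r i 1) ≤ pD 𝒟 (update r i 0) :=
  pD_anti h (fun k => (ColF_upd hr i (by simp) k).1) (update_le_update_iff'.2 zero_le_one)
    fun k => (ColF_upd hr i (by simp) k).2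

theorem ColF_rI (x : Fin D → ℝ) (i : Fin D) : ColF_r x i ∈ Icc (0 : ℝ) 1 :=
  ⟨smoothTransition.nonneg _, smoothTransition.le_one _⟩

theorem ColF_sign (hK : Down K) (x : Fin D → ℝ) (i : Fin D) :
    fderiv ℝ (FK K) x (Pi.single i 1) * dk (nk (x i)) ≤ 0 := by
  rw [ColF_der, show ∀ a b c : ℝ, a * b * c * b = a * (b * b) * c from fun _ _ _ => by ring]
  exact mul_nonpos_of_nonneg_of_nonpos
    (mul_nonneg smoothTransition.monotone.deriv_nonneg (mul_self_nonneg _))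
    (sub_nonpos.2 (ColF_anti (famK_down hK _) (ColF_rI x) i))

theorem ColF_alg {𝒟 : Finset (Finset (Fin D))} (h : ∀ T ∈ 𝒟, ∀ S ⊆ T, S ∈ 𝒟) {r : Fin D → ℝ}
    (hr : ∀ i, r i ∈ Icc (0 : ℝ) 1) (h0 : 0 < r j) (h1 : r j < 1)
    (hc : ∀ i ≠ j, 0 < r i → r i < 1 → pD 𝒟 (update r i 1) = pD 𝒟 (update r i 0))
    (hj : pD 𝒟 (update r j 1) ≠ pD 𝒟 (update r j 0)) : pD 𝒟 r = 1 - r j := by
  have key : ∀ e : ℝ, e = 0 ∨ e = 1 → 0 < pD 𝒟 (update r j e) → 1 ≤ pD 𝒟 (update r j e) := by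
    intro e he p0
    by_contra p1
    have hI := ColF_upd hr j (e := e) (by rcases he with rfl | rfl <;> simp)
    obtain ⟨i, a0, a1, a2⟩ := pD_pivot h (fun i => (hI i).1) (fun i => (hI i).2) p0 (not_le.1 p1)
    have n : i ≠ j := by
      rintro rfl
      rw [update_self] at a0 a1
      rcases he with rfl | rfl <;> linarith only [a0, a1]
    rw [update_of_ne n] at a0 a1
    have e : ∀ c : ℝ, pD 𝒟 (update r i c) = r j * pD 𝒟 (update (update r j 1) i c) +
        (1 - r j) * pD 𝒟 (update (update r j 0) i c) := fun c => by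
      rw [update_comm n.symm, update_comm n.symm, ← pD_update, ← update_comm n.symm, update_eq_self]
    have k := hc i n a0 a1
    have k0 := ColF_anti h (ColF_upd hr j (e := 0) (by simp)) i
    have k1 := ColF_anti h (ColF_upd hr j (e := 1) (by simp)) i
    rw [e, e] at k
    rcases he with rfl | rfl <;> linarith only [k, h0, k1, h1, a2, k0, mul_nonneg_of_nonpos_of_nonpos (le_of_lt (Mathlib.Tactic.Linarith.sub_neg_of_lt h0)) (Mathlib.Tactic.Linarith.sub_nonpos_of_le k1), mul_pos_of_neg_of_neg (Mathlib.Tactic.Linarith.sub_neg_of_lt h1) (Mathlib.Tactic.Linarith.sub_neg_of_lt a2), mul_pos_of_neg_of_neg (Mathlib.Tactic.Linarith.sub_neg_of_lt h0) (Mathlib.Tactic.Linarith.sub_neg_of_lt a2), mul_nonneg_of_nonpos_of_nonpos (le_of_lt (Mathlib.Tactic.Linarith.sub_neg_of_lt h1)) (Mathlib.Tactic.Linarith.sub_nonpos_of_le k0)]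
  have nn : ∀ (𝒟 : Finset (Finset (Fin D))) (e : ℝ), e ∈ Icc (0 : ℝ) 1 →
      0 ≤ pD 𝒟 (update r j e) := fun 𝒟 e he =>
    Finset.sum_nonneg fun T _ => Finset.prod_nonneg fun i _ => by
      split_ifs
      · exact (ColF_upd hr j he i).1
      · exact sub_nonneg.2 (ColF_upd hr j he i).2
  have l := (ColF_anti h hr j).lt_of_ne hj
  have l0 := nn 𝒟 1 (by simp)
  have l1 : pD 𝒟 (update r j 0) ≤ 1 := by
    linarith only [nn, nn 𝒟ᶜ 0 (by simp), show pD 𝒟 (update r j 0) + pD 𝒟ᶜ (update r j 0) = 1 from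
      (Finset.sum_add_sum_compl _ _).trans (PD_univ _)]
  rw [← update_eq_self j r, pD_update, l1.antisymm (key 0 (.inl rfl) (l0.trans_lt l)),
    ← l0.antisymm (not_lt.1 fun k => (key 1 (.inr rfl) k).not_gt (l.trans_le l1)), update_self]
  ring

theorem ColF_key (hK : Down K) (h : ∀ k ≠ j, fderiv ℝ (FK K) x (Pi.single k 1) = 0)
    (hj : fderiv ℝ (FK K) x (Pi.single j 1) ≠ 0) : FK K x = 1 - ColF_r x j := by
  rw [ColF_der] at hj
  obtain ⟨q0, q1⟩ := ColF_dz (left_ne_zero_of_mul (left_ne_zero_of_mul hj))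
  rw [FK_eq K (fun i => nk (x i)) x fun k => by linarith only [q0, q1, Reg_nk (x k)]]
  refine ColF_alg (famK_down hK _) (ColF_rI x) (smoothTransition.pos_of_pos q0)
    (smoothTransition.lt_one_of_lt_one q1) (fun i n a0 a1 => ?_)
    (sub_ne_zero.1 (right_ne_zero_of_mul hj))
  have k := h i n
  rw [ColF_der] at k
  exact sub_eq_zero.1 ((mul_eq_zero.1 k).resolve_left (mul_ne_zero (deriv_smoothTransition_pos
    (not_le.1 fun l => a0.ne' (smoothTransition.zero_of_nonpos l))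
    (not_le.1 fun l => a1.ne (smoothTransition.one_of_one_le l))).ne' (Reg_dk _)))

/-- the coordinate along the collapse -/
def ColF_W (v ε : ℤ) (t : ℝ) : ℝ := ε * (t - 2 * v - 1) + 3 / 2

theorem ColF_dW (v ε : ℤ) (c t : ℝ) : HasDerivAt (fun t => smoothTransition (ColF_W v ε t - c))
    (deriv smoothTransition (ColF_W v ε t - c) * ε) t := by
  refine (ColF_st _).comp t (h := fun t => ColF_W v ε t - c) ?_
  unfold ColF_W
  simpa using (((((hasDerivAt_id t).sub_const (2 * (v : ℝ))).sub_const 1).const_mul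
    (ε : ℝ)).add_const (3 / 2 : ℝ)).sub_const c

theorem ColF_psi (hε : ε = 1 ∨ ε = -1) (t : ℝ) : psi v t + psi (v + ε) t =
    smoothTransition (ColF_W v ε t - 4 * 0) - smoothTransition (ColF_W v ε t - 4 * 1) := by
  unfold psi ColF_W
  rcases hε with rfl | rfl <;> push_cast
  · ring_nf
  · rw [show -1 * (t - 2 * v - 1) + 3 / 2 - 4 * 0 = 1 - (t - 2 * v - 2 + 1 / 2) by ring,
      show -1 * (t - 2 * v - 1) + 3 / 2 - 4 * 1 = 1 - (t - 2 * (v + -1) + 1 / 2) by ring,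
      PD_sym, PD_sym]
    ring_nf

theorem ColF_dk (hv : v % 2 = 0) (hε : ε = 1 ∨ ε = -1) {t : ℝ}
    (h : (0 < ColF_W v ε t - 4 * 0 ∧ ColF_W v ε t - 4 * 0 < 1) ∨
      (0 < ColF_W v ε t - 4 * 1 ∧ ColF_W v ε t - 4 * 1 < 1)) : dk (nk t) = -(ε : ℝ) := by
  have k : ∀ m : ℤ, 2 * (m : ℝ) - 1 < t → t < 2 * m + 1 → nk t = m := fun m a b =>
    Int.floor_eq_iff.2 ⟨by linarith only [a], by linarith only [b]⟩
  unfold ColF_W at h
  rcases hε with rfl | rfl <;> push_cast at h ⊢ <;> rcases h with ⟨a, b⟩ | ⟨a, b⟩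
  · rw [k v (by linarith only [a]) (by linarith only [b]), dk, if_neg (by omega)]
  · rw [k (v + 2) (by push_cast; linarith only [a]) (by push_cast; linarith only [b]), dk, if_neg (by omega)]
  · rw [k (v + 1) (by push_cast; linarith only [b]) (by push_cast; linarith only [a]), dk, if_pos (by omega), neg_neg]
  · rw [k (v - 1) (by push_cast; linarith only [b]) (by push_cast; linarith only [a]), dk, if_pos (by omega), neg_neg]

theorem ColF_dec {K' : Finset (Cell D)} (h : PCol K K' j v ε) :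
    ∃ P : (Fin D → ℝ) → ℝ, ContDiff ℝ ∞ P ∧ (∀ x, 0 ≤ P x) ∧ (∀ x τ, P (update x j τ) = P x) ∧
      ∀ x, FK K' x = FK K x + P x * (smoothTransition (ColF_W v ε (x j) - 4 * 0) -
        smoothTransition (ColF_W v ε (x j) - 4 * 1)) := by
  refine ⟨fun x => ∑ c ∈ (K' \ K).filter (fun c => c j = v),
    ∏ k ∈ Finset.univ.erase j, psi (c k) (x k), ContDiff.sum fun a _ => contDiff_prod fun i _ =>
      (Reg_psi (a i)).comp (contDiff_apply ℝ ℝ i), fun x => Finset.sum_nonneg fun _ _ =>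
        Finset.prod_nonneg fun _ _ => psi_nonneg _ _, fun x τ => Finset.sum_congr rfl fun c _ =>
          Finset.prod_congr rfl fun k hk => by rw [update_of_ne (Finset.ne_of_mem_erase hk)],
    fun x => ?_⟩
  have n : v + ε ≠ v := by rcases h.sgn with rfl | rfl <;> omega
  rw [FK, ← Finset.sum_sdiff h.sub, add_comm, ← ColF_psi h.sgn, mul_add,
    ← Finset.sum_filter_add_sum_filter_not (K' \ K) fun c => c j = v, Finset.sum_mul,
    Finset.sum_mul]
  refine congrArg₂ _ rfl (congrArg₂ _ (Finset.sum_congr rfl fun c hc => ?_) (Finset.sum_bij'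
    (fun c _ => update c j v) (fun c _ => update c j (v + ε)) ?_ ?_ ?_ ?_ ?_))
  · rw [← Finset.prod_erase_mul _ _ (Finset.mem_univ j), (Finset.mem_filter.1 hc).2]
  all_goals
    intro c hc
    simp only [Finset.mem_filter, Finset.mem_sdiff] at hc
    have k := h.new c hc.1.1 hc.1.2
  · simpa using k.2.1
  · simpa [n] using k.2.2.1
  · rw [update_idem, ← k.1.resolve_left hc.2, update_eq_self]
  · rw [update_idem, ← hc.2, update_eq_self]
  · rw [← Finset.prod_erase_mul _ _ (Finset.mem_univ j), k.1.resolve_left hc.2]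
    exact congrArg₂ _ (Finset.prod_congr rfl fun k hk => by
      rw [update_of_ne (Finset.ne_of_mem_erase hk)]) rfl

end

open Real in
theorem col_fam {D : ℕ} {K K' : Finset (Cell D)} {j : Fin D} {v ε : ℤ} (h : PCol K K' j v ε) :
    ∃ (G : ℝ × (Fin D → ℝ) → ℝ) (C : Set (Fin D → ℝ)), ContDiff ℝ ∞ G ∧ IsCompact C ∧
      (∀ x, G (0, x) = FK K' x) ∧ (∀ x, G (1, x) = FK K x) ∧
      (∀ t ∈ Icc (0 : ℝ) 1, ∀ x, G (t, x) ≤ FK K' x) ∧
      (∀ t ∈ Icc (0 : ℝ) 1, ∀ x ∉ C, G (t, x) = G (0, x)) ∧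
      ∀ t ∈ Icc (0 : ℝ) 1, ∀ x, G (t, x) = 1 / 2 → fderiv ℝ (fun y => G (t, y)) x ≠ 0 := by
  obtain ⟨P, cP, P0, Pj, hP⟩ := ColF_dec h
  have dF : ∀ (L : Finset (Cell D)) x k, HasDerivAt (fun τ => FK L (update x k τ))
      (fderiv ℝ (FK L) x (Pi.single k 1)) (x k) := fun L x =>
    ColF_line ((contDiff_FK L).differentiable (by simp) x)
  let φ : ℝ → ℝ → ℝ := fun s t =>
    smoothTransition (ColF_W v ε t - 4 * s) - smoothTransition (ColF_W v ε t - 4 * 1)
  have dφ : ∀ s t, HasDerivAt (φ s) ((deriv smoothTransition (ColF_W v ε t - 4 * s) -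
      deriv smoothTransition (ColF_W v ε t - 4 * 1)) * ε) t := fun s t =>
    sub_mul (α := ℝ) _ _ _ ▸ (ColF_dW v ε _ t).sub (ColF_dW v ε _ t)
  have φ0 : ∀ s ∈ Icc (0 : ℝ) 1, ∀ t, 0 ≤ φ s t := fun s hs t =>
    sub_nonneg.2 (smoothTransition.monotone (by linarith only [hs, hs.2]))
  have φ1 : ∀ s ∈ Icc (0 : ℝ) 1, ∀ t, φ s t ≤ φ 0 t := fun s hs t =>
    sub_le_sub_right (smoothTransition.monotone (by linarith [hs.1])) _
  replace hP : ∀ x, FK K' x = FK K x + P x * φ 0 (x j) := hP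
  have cG : ContDiff ℝ ∞ fun p : ℝ × (Fin D → ℝ) => FK K p.2 + P p.2 * φ p.1 (p.2 j) := by
    refine ((contDiff_FK K).comp contDiff_snd).add ((cP.comp contDiff_snd).mul
      ((smoothTransition.contDiff.comp ?_).sub (smoothTransition.contDiff.comp ?_))) <;>
      unfold ColF_W <;> fun_prop
  have hC : IsCompact (⋃ a ∈ K', Icc (fun i => 2 * (a i : ℝ) - 1 / 2)
      fun i => 2 * (a i : ℝ) + 5 / 2) := K'.isCompact_biUnion fun _ _ => isCompact_Icc
  refine ⟨_, _, cG, hC, fun x => (hP x).symm, fun x => by simp [φ],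
    fun s hs x => ?_, fun s hs x hx => ?_, fun s hs x hx h0 => ?_⟩
  · rw [hP]
    exact add_le_add_right (mul_le_mul_of_nonneg_left (φ1 s hs _) (P0 x)) _
  · have z : FK K' x = 0 := by_contra fun k => hx (by
      obtain ⟨a, ha, k⟩ := FK_pos k
      exact mem_biUnion ha ⟨fun i => (k i).1.le, fun i => (k i).2.le⟩)
    have := mul_le_mul_of_nonneg_left (φ1 s hs (x j)) (P0 x)
    linarith only [z, hP, P0, φ0, hs, this, hP x, FK_nonneg K x, mul_nonneg (P0 x) (φ0 s hs (x j))]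
  replace hx : FK K x + P x * φ s (x j) = 1 / 2 := hx
  have g : ∀ k, HasDerivAt (fun τ => FK K (update x k τ) +
      P (update x k τ) * φ s (update x k τ j)) 0 (x k) := fun k => by
    have := ColF_line (F := fun y => FK K y + P y * φ s (y j))
      ((cG.comp (contDiff_const.prodMk contDiff_id)).differentiable (by simp) x) k
    rwa [h0] at this
  set A := fun k => fderiv ℝ (FK K) x (Pi.single k 1)
  set A' := fun k => fderiv ℝ (FK K') x (Pi.single k 1)
  set a := deriv smoothTransition (ColF_W v ε (x j) - 4 * 0)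
  set b := deriv smoothTransition (ColF_W v ε (x j) - 4 * 1)
  set u := deriv smoothTransition (ColF_W v ε (x j) - 4 * s)
  have e1 : A j + P x * ((u - b) * ε) = 0 := by
    have := g j
    simp only [Pj, update_self] at this
    exact ((dF K x j).add ((dφ s _).const_mul _)).unique this
  have e2 : A' j = A j + P x * ((a - b) * ε) := by
    have := dF K' x j
    simp only [hP, Pj, update_self] at this
    exact this.unique ((dF K x j).add ((dφ 0 _).const_mul _))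
  have e3 : ∀ c : ℝ, P x * φ s (x j) = c * (P x * φ 0 (x j)) →
      (∀ y, φ s (x j) * y = c * (φ 0 (x j) * y)) → ∀ k ≠ j, (1 - c) * A k + c * A' k = 0 :=
    fun c _ hc k hk => by
      refine (((dF K x k).const_mul (1 - c)).add ((dF K' x k).const_mul c)).unique
        ((g k).congr_of_eventuallyEq (.of_forall fun τ => ?_))
      simp only [Pi.add_apply, hP, update_of_ne hk.symm]
      linear_combination -hc (P (update x k τ))
  rcases (φ0 s hs (x j)).eq_or_lt with z | z0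
  · obtain ⟨k, hk⟩ := FK_regular h.down x (by rw [← hx, ← z, mul_zero, add_zero])
    have m : (u - b) * ε = 0 :=
      IsLocalMin.hasDerivAt_eq_zero (.of_forall fun t => z ▸ φ0 s hs t) (dφ s _)
    rcases eq_or_ne k j with rfl | n
    · exact hk (by simpa [m] using e1)
    · exact hk (by simpa using e3 0 (by simp [← z]) (by simp [← z]) k n)
  rcases (φ1 s hs (x j)).eq_or_lt with z | z1
  · obtain ⟨k, hk⟩ := FK_regular h.down' x (by rw [← hx, hP, z])
    have m : (a - b) * ε - (u - b) * ε = 0 := IsLocalMin.hasDerivAt_eq_zero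
      (f := fun t => φ 0 t - φ s t)
      (.of_forall fun t => (sub_eq_zero.2 z.symm).trans_le (sub_nonneg.2 (φ1 s hs t)))
      ((dφ 0 _).sub (dφ s _))
    rcases eq_or_ne k j with rfl | n
    · exact hk (e2.trans (by rw [sub_eq_zero.1 m, e1]))
    · exact hk (by simpa using e3 1 (by simp [z]) (by simp [z]) k n)
  have ψ0 := z0.trans z1
  have c0 := div_pos z0 ψ0
  have c1 := sub_pos.2 ((div_lt_one ψ0).2 z1)
  have e4 : ∀ k ≠ j, A k = 0 ∧ A' k = 0 := fun k n => by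
    have k1 := e3 (φ s (x j) / φ 0 (x j)) (by field_simp) (fun y => by field_simp) k n
    have k2 := mul_nonpos_of_nonneg_of_nonpos c1.le (ColF_sign h.down x k)
    have k3 := mul_nonpos_of_nonneg_of_nonpos c0.le (ColF_sign h.down' x k)
    have k4 := congrArg (· * dk (nk (x k))) k1
    simp only [add_mul, mul_assoc, zero_mul] at k4
    exact ⟨(mul_eq_zero.1 ((mul_eq_zero.1 (k2.antisymm (by linarith only [k3, k4]))).resolve_left
      c1.ne')).resolve_right (Reg_dk _), (mul_eq_zero.1 ((mul_eq_zero.1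
        (k3.antisymm (by linarith only [k2, k4]))).resolve_left c0.ne')).resolve_right (Reg_dk _)⟩
  rcases (P0 x).eq_or_lt with z | p0
  · obtain ⟨k, hk⟩ := FK_regular h.down x (by rw [← hx, ← z, zero_mul, add_zero])
    rcases eq_or_ne k j with rfl | n
    · exact hk (by simpa [← z] using e1)
    · exact hk (e4 k n).1
  have u0 : 0 < P x * u := mul_pos p0 (deriv_smoothTransition_pos
    (not_le.1 fun k => by
      linarith only [z0, k, smoothTransition.zero_of_nonpos k,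
        smoothTransition.nonneg (ColF_W v ε (x j) - 4 * 1), sub_pos.1 z0])
    (not_le.1 fun k => by
      linarith only [z1, k, smoothTransition.one_of_one_le k,
        smoothTransition.le_one (ColF_W v ε (x j) - 4 * 0), (sub_lt_sub_iff_right _).1 z1]))
  have ee : (ε : ℝ) * ε = 1 := by rcases h.sgn with rfl | rfl <;> norm_num
  have f1 : A j * ε + P x * u - P x * b = 0 := by
    linear_combination ε * e1 - P x * (u - b) * ee
  have f2 : A' j * ε + P x * u - P x * a = 0 := by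
    linear_combination f1 + ε * e2 + P x * (a - b) * ee
  by_cases ha : a = 0
  · by_cases hb : b = 0
    · rw [ha, hb, sub_self, zero_mul, mul_zero, add_zero] at e2
      have n : A j ≠ 0 := fun k => by simp [k, hb, u0.ne'] at f1
      have k1 := ColF_key h.down (fun k n => (e4 k n).1) n
      have k2 := ColF_key h.down' (fun k n => (e4 k n).2) (e2.trans_ne n)
      linarith only [k1, k2, hP, p0, ψ0, hP x, mul_pos p0 ψ0]
    · have := ColF_sign h.down' x j
      rw [ColF_dk h.even h.sgn (.inr (ColF_dz hb)), mul_neg] at this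
      rw [ha] at f2
      linarith only [u0, f2, this]
  · have := ColF_sign h.down x j
    rw [ColF_dk h.even h.sgn (.inl (ColF_dz ha)), mul_neg] at this
    rw [show b = 0 from by_contra fun hb => by linarith only [c0, c1, ha, hb, (ColF_dz ha).2, (ColF_dz hb).1]] at f1
    linarith only [u0, f1, this]

end Pool.Agent.Work.MP_7ba843_gt.C
end
end
end

-- merged part: Pool.Agent.Work.MP_7ba843_gt.C.GP1
section
/-! One step of general position.

PLAN. Put `P a p = H p + (χ (ρ (H p) + β p • a) - χ (ρ (H p)))`. It equals `H p` if `β p = 0`, and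
`χ (ρ (H p) + β p • a)` if `p ∈ Ω` and `H p ∈ W`. Joint smoothness: near `(a, p)` with
`p ∈ tsupport β` the map `ρ ∘ H` is smooth; off `tsupport β` the map is locally `H`. Bad sets of
parameters, each the image of an open set under a smooth map (`small_image`, dimension at most
three, `finrank E4 = 4`): (1) `(t, s, s') ↦ (β (t, s) - β (t, s'))⁻¹ • (ρ (H (t, s')) - ρ (H (t, s)))`
on the open set where both values of `H` are in `W` and the values of `β` differ (if only one value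
of `β` is not zero, the other value of `H` is a value of `χ`, so it is in `W`);
(2) `p ↦ -(∂_s β p)⁻¹ • ∂_s (ρ ∘ H) p` where `H p ∈ W` and `∂_s β p ≠ 0` (the derivative of `χ`
is injective; if `∂_s β p = 0` then the derivative of `ρ ∘ H` vanishes and `H = χ ∘ ρ ∘ H` near
`p`); (3) `(p, u) ↦ (β p)⁻¹ • (ρ (y i u) - ρ (H p))`. `dense_of_small`. About 250 lines. -/

set_option linter.unusedSectionVars false
set_option linter.unusedVariables false

open Set Filter Topology Function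
open scoped ContDiff

noncomputable section
namespace Pool.Agent.Work.MP_7ba843_gt.C

open Pool.Agent.Work.MP_bf98aa_gt.Ns (Dif)

variable {V E F : Type} [NormedAddCommGroup V] [NormedSpace ℝ V] [FiniteDimensional ℝ V]
  [NormedAddCommGroup E] [NormedSpace ℝ E] [FiniteDimensional ℝ E]
  [NormedAddCommGroup F] [NormedSpace ℝ F] [FiniteDimensional ℝ F] {A : Amb V}

lemma GP1_rank : Module.finrank ℝ E4 = 4 := by
  simp [E4, E3, Module.finrank_prod]

lemma GP1_der {g : ℝ × ℝ → F} {p : ℝ × ℝ} (hg : DifferentiableAt ℝ g p) :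
    HasDerivAt (fun s => g (p.1, s)) (fderiv ℝ g p (0, 1)) p.2 :=
  HasFDerivAt.comp_hasDerivAt (f := fun s : ℝ => (p.1, s)) p.2 hg.hasFDerivAt
    ((hasDerivAt_const p.2 p.1).prodMk (hasDerivAt_id p.2))

lemma GP1_ev {α : Type} {g g' : ℝ × ℝ → α} {p : ℝ × ℝ} (h : g =ᶠ[𝓝 p] g') :
    (fun s => g (p.1, s)) =ᶠ[𝓝 p.2] fun s => g' (p.1, s) :=
  (Continuous.prodMk_right p.1).continuousAt.tendsto.eventually h

lemma GP1_bad1 {g : ℝ × ℝ → E4} {G : Set (ℝ × ℝ)} (hG : IsOpen G) (hg : ContDiffOn ℝ ∞ g G)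
    {β : ℝ × ℝ → ℝ} (hβ : ContDiff ℝ ∞ β) : ∃ B : Set E4, dimH B < Module.finrank ℝ E4 ∧
      ∀ a ∉ B, ∀ t s s', (t, s) ∈ G → (t, s') ∈ G →
        g (t, s) + β (t, s) • a = g (t, s') + β (t, s') • a → β (t, s) = β (t, s') := by
  have c1 : ContDiff ℝ ∞ fun q : ℝ × ℝ × ℝ => (q.1, q.2.1) := by fun_prop
  have c2 : ContDiff ℝ ∞ fun q : ℝ × ℝ × ℝ => (q.1, q.2.2) := by fun_prop
  refine ⟨(fun q : ℝ × ℝ × ℝ => (β (q.1, q.2.1) - β (q.1, q.2.2))⁻¹ •
    (g (q.1, q.2.2) - g (q.1, q.2.1))) '' {q | ((q.1, q.2.1) ∈ G ∧ (q.1, q.2.2) ∈ G) ∧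
      β (q.1, q.2.1) ≠ β (q.1, q.2.2)}, small_image ?_ ?_ ?_, fun a ha t s s' h1 h2 e => ?_⟩
  · exact ((hG.preimage c1.continuous).inter (hG.preimage c2.continuous)).inter
      (isOpen_ne_fun (hβ.comp c1).continuous (hβ.comp c2).continuous)
  · refine ContDiffOn.smul (ContDiffOn.inv ((hβ.comp c1).sub (hβ.comp c2)).contDiffOn
      fun q hq => sub_ne_zero.2 hq.2) ?_
    exact (hg.comp c2.contDiffOn fun q hq => hq.1.2).sub (hg.comp c1.contDiffOn fun q hq => hq.1.1)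
  · rw [GP1_rank]
    simp [Module.finrank_prod]
  · by_contra hn
    refine ha ⟨(t, s, s'), ⟨⟨h1, h2⟩, hn⟩, ?_⟩
    have h3 : g (t, s') - g (t, s) = (β (t, s) - β (t, s')) • a := by
      rw [sub_smul, sub_eq_sub_iff_add_eq_add, ← e, add_comm]
    simp only
    rw [h3, inv_smul_smul₀ (sub_ne_zero.2 hn)]

lemma GP1_bad2 {g : ℝ × ℝ → E4} {G : Set (ℝ × ℝ)} (hG : IsOpen G) (hg : ContDiffOn ℝ ∞ g G)
    {β : ℝ × ℝ → ℝ} (hβ : ContDiff ℝ ∞ β) : ∃ B : Set E4, dimH B < Module.finrank ℝ E4 ∧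
      ∀ a ∉ B, ∀ p ∈ G, fderiv ℝ g p (0, 1) + fderiv ℝ β p (0, 1) • a = 0 →
        fderiv ℝ β p (0, 1) = 0 := by
  have c1 : ContDiff ℝ ∞ fun p => fderiv ℝ β p (0, 1) :=
    (hβ.fderiv_right (m := ∞) le_rfl).clm_apply contDiff_const
  have c2 : ContDiffOn ℝ ∞ (fun p => fderiv ℝ g p (0, 1)) G :=
    (hg.fderiv_of_isOpen hG (m := ∞) le_rfl).clm_apply contDiffOn_const
  refine ⟨(fun p => (fderiv ℝ β p (0, 1))⁻¹ • -fderiv ℝ g p (0, 1)) ''
    {p | p ∈ G ∧ fderiv ℝ β p (0, 1) ≠ 0}, small_image ?_ ?_ ?_, fun a ha p hp e => ?_⟩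
  · exact hG.inter (isOpen_ne_fun c1.continuous continuous_const)
  · exact ContDiffOn.smul (ContDiffOn.inv c1.contDiffOn fun q hq => hq.2)
      (c2.mono fun q hq => hq.1).neg
  · rw [GP1_rank]
    simp [Module.finrank_prod]
  · by_contra hn
    refine ha ⟨p, ⟨hp, hn⟩, ?_⟩
    simp only
    rw [neg_eq_of_add_eq_zero_right e, inv_smul_smul₀ hn]

lemma GP1_bad3 {g : ℝ × ℝ → E4} {G : Set (ℝ × ℝ)} (hG : IsOpen G) (hg : ContDiffOn ℝ ∞ g G)
    {β : ℝ × ℝ → ℝ} (hβ : ContDiff ℝ ∞ β) {k : ℝ → E4} {K : Set ℝ} (hK : IsOpen K)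
    (hk : ContDiffOn ℝ ∞ k K) : ∃ B : Set E4, dimH B < Module.finrank ℝ E4 ∧
      ∀ a ∉ B, ∀ p ∈ G, ∀ u ∈ K, g p + β p • a = k u → β p = 0 := by
  refine ⟨(fun q : (ℝ × ℝ) × ℝ => (β q.1)⁻¹ • (k q.2 - g q.1)) ''
    {q | (q.1 ∈ G ∧ q.2 ∈ K) ∧ β q.1 ≠ 0}, small_image ?_ ?_ ?_, fun a ha p hp u hu e => ?_⟩
  · exact ((hG.preimage continuous_fst).inter (hK.preimage continuous_snd)).inter
      (isOpen_ne_fun (hβ.continuous.comp continuous_fst) continuous_const)
  · exact ContDiffOn.smul (ContDiffOn.inv (hβ.comp contDiff_fst).contDiffOn fun q hq => hq.2)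
      ((hk.comp contDiffOn_snd fun q hq => hq.1.2).sub (hg.comp contDiffOn_fst fun q hq => hq.1.1))
  · rw [GP1_rank]
    simp [Module.finrank_prod]
  · by_contra hn
    refine ha ⟨(p, u), ⟨⟨hp, hu⟩, hn⟩, ?_⟩
    simp only
    rw [← e, add_sub_cancel_left, inv_smul_smul₀ hn]

theorem gp1 {M : Set V} {y₀ : V} (c : Chart M y₀) {H : ℝ × ℝ → V} (hH : ContDiff ℝ ∞ H)
    {Ω : Set (ℝ × ℝ)} (hΩ : IsOpen Ω) (hM : MapsTo H Ω M) {β : ℝ × ℝ → ℝ} (hβ : ContDiff ℝ ∞ β)
    (hs : tsupport β ⊆ Ω ∩ H ⁻¹' c.W) {ι : Type} [Finite ι] {y : ι → ℝ → V}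
    (hy : ∀ i, ContDiff ℝ ∞ (y i)) :
    ∃ P : E4 → ℝ × ℝ → V, ContDiff ℝ ∞ (fun q : E4 × (ℝ × ℝ) => P q.1 q.2) ∧
      (∀ p, P 0 p = H p) ∧ (∀ a p, β p = 0 → P a p = H p) ∧ (∀ a, MapsTo (P a) Ω M) ∧
      Dense {a | (∀ t s s', (t, s) ∈ Ω → (t, s') ∈ Ω → P a (t, s) = P a (t, s') →
          β (t, s) = β (t, s') ∧ H (t, s) = H (t, s')) ∧
        (∀ p ∈ Ω, deriv (fun s => P a (p.1, s)) p.2 = 0 →
          deriv (fun s => β (p.1, s)) p.2 = 0 ∧ deriv (fun s => H (p.1, s)) p.2 = 0) ∧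
        ∀ p ∈ Ω, ∀ i u, P a p = y i u → β p = 0} := by
  have hG : IsOpen (H ⁻¹' c.W) := c.isOpen.preimage hH.continuous
  have hg : ContDiffOn ℝ ∞ (fun p => c.ρ (H p)) (H ⁻¹' c.W) :=
    c.sρ.comp hH.contDiffOn fun p hp => hp
  obtain ⟨P, hP⟩ : ∃ P : E4 → ℝ × ℝ → V,
      ∀ a p, P a p = H p + (c.χ (c.ρ (H p) + β p • a) - c.χ (c.ρ (H p))) := ⟨_, fun _ _ => rfl⟩
  have p0 : ∀ a p, β p = 0 → P a p = H p := fun a p h => by
    rw [hP, h, zero_smul, add_zero, sub_self, add_zero]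
  have p1 : ∀ a, ∀ p ∈ Ω, H p ∈ c.W → P a p = c.χ (c.ρ (H p) + β p • a) := fun a p h1 h2 => by
    rw [hP, c.χρ _ ⟨hM h1, h2⟩, add_sub_cancel]
  have p2 : ∀ p, β p ≠ 0 → p ∈ Ω ∧ H p ∈ c.W := fun p h => hs (subset_tsupport β h)
  have p3 : ∀ p, p ∉ tsupport β → ∀ᶠ q in 𝓝 p, β q = 0 := fun p h =>
    notMem_tsupport_iff_eventuallyEq.1 h
  have sm : ContDiff ℝ ∞ fun q : E4 × (ℝ × ℝ) => P q.1 q.2 := by
    refine contDiff_iff_contDiffAt.2 fun q => ?_
    by_cases h : q.2 ∈ tsupport β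
    · have h1 : ContDiffAt ℝ ∞ (fun q : E4 × (ℝ × ℝ) => c.ρ (H q.2)) q :=
        (hg.contDiffAt (hG.mem_nhds (hs h).2)).comp q contDiffAt_snd
      simp only [hP]
      exact (hH.comp contDiff_snd).contDiffAt.add ((c.sχ.contDiffAt.comp q (h1.add
        ((hβ.comp contDiff_snd).smul contDiff_fst).contDiffAt)).sub (c.sχ.contDiffAt.comp q h1))
    · refine (hH.comp contDiff_snd).contDiffAt.congr_of_eventuallyEq ?_
      filter_upwards [continuous_snd.continuousAt.tendsto.eventually (p3 _ h)] with z hz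
      exact p0 _ _ hz
  obtain ⟨B₁, d1, b1⟩ := GP1_bad1 hG hg hβ
  obtain ⟨B₂, d2, b2⟩ := GP1_bad2 hG hg hβ
  choose B₃ d3 b3 using fun i => GP1_bad3 hG hg hβ (c.isOpen.preimage (hy i).continuous)
    (k := fun u => c.ρ (y i u)) (c.sρ.comp (hy i).contDiffOn fun u hu => hu)
  refine ⟨P, sm, fun p => by rw [hP, smul_zero, add_zero, sub_self, add_zero], p0,
    fun a p hp => ?_, (dense_of_small (ι := ι ⊕ Bool)
      (B := Sum.elim B₃ fun b => bif b then B₁ else B₂) ?_).mono fun a ha => ?_⟩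
  · by_cases h : β p = 0
    · rw [p0 a p h]
      exact hM hp
    · rw [p1 a p hp (p2 p h).2]
      exact (c.χ_mem _).1
  · rintro (i | _ | _)
    · exact d3 i
    · exact d2
    · exact d1
  have a1 : a ∉ B₁ := fun h => ha (mem_iUnion.2 ⟨Sum.inr true, h⟩)
  have a2 : a ∉ B₂ := fun h => ha (mem_iUnion.2 ⟨Sum.inr false, h⟩)
  have a3 : ∀ i, a ∉ B₃ i := fun i h => ha (mem_iUnion.2 ⟨Sum.inl i, h⟩)
  refine ⟨fun t s s' h1 h2 e => ?_, fun p hp e => ?_, fun p hp i u e => ?_⟩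
  · have k : ∀ p p', P a p = P a p' → β p ≠ 0 → H p' ∈ c.W := fun p p' e h => by
      by_cases h' : β p' = 0
      · rw [← p0 a p' h', ← e, p1 a p (p2 p h).1 (p2 p h).2]
        exact (c.χ_mem _).2
      · exact (p2 p' h').2
    by_cases h : β (t, s) = 0 ∧ β (t, s') = 0
    · exact ⟨h.1.trans h.2.symm, by rw [← p0 a _ h.1, e, p0 a _ h.2]⟩
    · have w : H (t, s) ∈ c.W ∧ H (t, s') ∈ c.W := by
        rcases not_and_or.1 h with h | h
        · exact ⟨(p2 _ h).2, k _ _ e h⟩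
        · exact ⟨k _ _ e.symm h, (p2 _ h).2⟩
      have e1 := congrArg c.ρ e
      rw [p1 a _ h1 w.1, p1 a _ h2 w.2, c.ρχ, c.ρχ] at e1
      have e2 := b1 a a1 t s s' w.1 w.2 e1
      rw [e2, add_left_inj] at e1
      exact ⟨e2, by rw [← c.χρ _ ⟨hM h1, w.1⟩, e1, c.χρ _ ⟨hM h2, w.2⟩]⟩
  · by_cases h : H p ∈ c.W
    · have n1 : ∀ᶠ q in 𝓝 p, q ∈ Ω ∧ H q ∈ c.W := (hΩ.inter hG).mem_nhds ⟨hp, h⟩
      have dg := GP1_der ((hg.contDiffAt (hG.mem_nhds h)).differentiableAt (by simp))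
      have dβ := GP1_der (p := p) (hβ.differentiable (by simp) p)
      have dP : HasDerivAt (fun s => P a (p.1, s)) 0 p.2 := e ▸ DifferentiableAt.hasDerivAt
        (GP1_der (((sm.comp (contDiff_prodMk_right a)).differentiable (by simp)) p)).differentiableAt
      have hw : P a p ∈ c.W := by
        rw [p1 a p hp h]
        exact (c.χ_mem _).2
      have dρ := HasFDerivAt.comp_hasDerivAt (f := fun s => P a (p.1, s)) p.2
        ((c.sρ.contDiffAt (c.isOpen.mem_nhds hw)).differentiableAt (by simp)).hasFDerivAt dP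
      rw [map_zero] at dρ
      have e1 : fderiv ℝ (fun p => c.ρ (H p)) p (0, 1) + fderiv ℝ β p (0, 1) • a = 0 := by
        refine (dg.add (dβ.smul_const a)).unique (dρ.congr_of_eventuallyEq ?_)
        refine GP1_ev (g := fun q => c.ρ (H q) + β q • a) (g' := fun q => c.ρ (P a q)) ?_
        filter_upwards [n1] with q hq
        rw [p1 a q hq.1 hq.2, c.ρχ]
      have e2 := b2 a a2 p h e1
      rw [e2, zero_smul, add_zero] at e1
      rw [e1] at dg
      refine ⟨dβ.deriv.trans e2, ?_⟩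
      have dχ := HasFDerivAt.comp_hasDerivAt (f := fun s => c.ρ (H (p.1, s))) p.2
        (c.sχ.differentiable (by simp) _).hasFDerivAt dg
      rw [map_zero] at dχ
      refine (dχ.congr_of_eventuallyEq ?_).deriv
      refine GP1_ev (g := H) (g' := fun q => c.χ (c.ρ (H q))) ?_
      filter_upwards [n1] with q hq
      exact (c.χρ _ ⟨hM hq.1, hq.2⟩).symm
    · have n1 := p3 p fun h' => h (hs h').2
      refine ⟨(GP1_ev (g := β) (g' := fun _ => 0) n1).deriv_eq.trans (deriv_const _ _), ?_⟩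
      exact (GP1_ev (g := H) (g' := P a) (n1.mono fun q hq => (p0 a q hq).symm)).deriv_eq.trans e
  · by_contra h
    rw [p1 a p hp (p2 p h).2] at e
    exact h (b3 i a (a3 i) p (p2 p h).2 u (show y i u ∈ c.W from e ▸ (c.χ_mem _).2)
      (by rw [← e, c.ρχ]))

end Pool.Agent.Work.MP_7ba843_gt.C
end
end

-- merged part: Pool.Agent.Work.MP_7ba843_gt.C.Seg
section
-- merged part: Pool.Agent.Work.MP_7ba843_gt.C.IE
section
/-! The isotopy extension theorem.

PLAN. `left_inv` for `f (t, x) = (t, Φ t x)` on `Icc 0 1 ×ˢ K` gives `L`. Let `l` be a cut-off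
(`Ns.exists_cut`) equal to one on the compact set `f '' (Icc 0 1 ×ˢ (K ∩ K₁))`, with compact support
`D` in `univ ×ˢ (G ∩ A.U)`; the field is
`v (t, y) = l (t, y) • fderiv r y (fderiv (uncurry Φ) (L (t, y)) (1, 0))`, `C = Prod.snd '' D`, the
flow comes from `tflow`. The curve `t ↦ Φ t x` solves the equation on `[0, 1]`: differentiate
`r (Φ t x) = Φ t x` within `Icc 0 1` (`uniqueDiffOn_Icc`); if `x ∉ K₁` the time derivative
vanishes. Points outside `C` are fixed by uniqueness. Invariance of `M`, for all real times of the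
solution through a point of `M` at time `0` (forward) or `1` (backward, for `inv`): either the
curve meets the complement of `C` (then it is constant), or it stays in `C ⊆ U`; then
`u = γ - r γ` has `u' = Q (t, γ)`, `Q (t, y) = v (t, y) - fderiv r y (v (t, y))` is Lipschitz
(smooth with compact support) and vanishes at points of `M` (differentiate `r (r y) = r y` on
`U`), so `‖u'‖ ≤ K ‖u‖` and Gronwall
(`eq_zero_of_abs_deriv_le_mul_abs_self_of_eq_zero_right`) applies. To get uniqueness from any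
starting time it may be easier to use `ODE_solution_unique_univ` or to reprove what is needed from
`Ns.exists_Flow`. The corollaries combine `Fam.nhd`, `Emb.fam` and `IE` with `K₁ = K`, `G = univ`.
About 300 lines. -/

set_option linter.unusedSectionVars false
set_option linter.unusedVariables false

open Set Filter Topology Function
open scoped ContDiff

noncomputable section
namespace Pool.Agent.Work.MP_7ba843_gt.C

open Pool.Agent.Work.MP_bf98aa_gt.Ns (Dif)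

variable {V E F : Type} [NormedAddCommGroup V] [NormedSpace ℝ V] [FiniteDimensional ℝ V]
  [NormedAddCommGroup E] [NormedSpace ℝ E] [FiniteDimensional ℝ E]
  [NormedAddCommGroup F] [NormedSpace ℝ F] [FiniteDimensional ℝ F] {A : Amb V}

/-- Gronwall in both directions. -/
theorem IE_gron {u u' : ℝ → V} {c a : ℝ} (hd : ∀ t, HasDerivAt u (u' t) t)
    (hb : ∀ t, ‖u' t‖ ≤ c * ‖u t‖) (h0 : u a = 0) (b : ℝ) : u b = 0 := by
  have hc : Continuous u := continuous_iff_continuousAt.2 fun t => (hd t).continuousAt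
  rcases le_total a b with h | h
  · exact eq_zero_of_abs_deriv_le_mul_abs_self_of_eq_zero_right hc.continuousOn
      (fun t _ => (hd t).hasDerivWithinAt) h0 (fun t _ => hb t) b ⟨h, le_rfl⟩
  · have h1 : ∀ t, HasDerivAt (fun s => u (-s)) (-u' (-t)) t := fun t => by
      simpa only [neg_smul, one_smul, Function.comp_def] using
        (hd (-t)).scomp t (hasDerivAt_neg t)
    have h2 := eq_zero_of_abs_deriv_le_mul_abs_self_of_eq_zero_right (K := c) (a := -a) (b := -b)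
      (hc.comp continuous_neg).continuousOn (fun t _ => (h1 t).hasDerivWithinAt)
      (by simpa using h0) (fun t _ => by simpa using hb (-t)) (-b) ⟨neg_le_neg h, le_rfl⟩
    simpa using h2

theorem IE_lip {Q : ℝ × V → V} (hQ : ContDiff ℝ ∞ Q) (hc : HasCompactSupport Q) :
    ∃ c : ℝ, 0 ≤ c ∧ ∀ t y z, Q (t, z) = 0 → ‖Q (t, y)‖ ≤ c * ‖y - z‖ := by
  obtain ⟨c, hL⟩ := hQ.lipschitzWith_of_hasCompactSupport hc (by simp)
  refine ⟨c, c.2, fun t y z h => ?_⟩
  have := hL.dist_le_mul (t, y) (t, z)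
  rwa [h, dist_zero_right, dist_prod_same_left, dist_eq_norm] at this

/-- A solution that meets a stationary point is constant. -/
theorem IE_stat {v : ℝ × V → V} (hv : ContDiff ℝ ∞ v) (hc : HasCompactSupport v) {γ : ℝ → V}
    (hγ : ∀ t, HasDerivAt γ (v (t, γ t)) t) {a : ℝ} (h : ∀ t, v (t, γ a) = 0) (b : ℝ) :
    γ b = γ a := by
  obtain ⟨c, -, hL⟩ := IE_lip hv hc
  exact sub_eq_zero.1 (IE_gron (u := fun t => γ t - γ a) (a := a)
    (fun t => (hγ t).sub_const _) (fun t => hL t _ _ (h t)) (sub_self _) b)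

theorem IE_idem (A : Amb V) {z : V} (hz : z ∈ A.M) (w : V) :
    fderiv ℝ A.r z (fderiv ℝ A.r z w) = fderiv ℝ A.r z w := by
  have hd : Differentiable ℝ A.r := A.smooth.differentiable (by simp)
  have h1 := (hd (A.r z)).hasFDerivAt.comp z (hd z).hasFDerivAt
  have h2 : A.r =ᶠ[𝓝 z] A.r ∘ A.r :=
    mem_of_superset (A.isOpen.mem_nhds (A.sub hz)) fun y hy => (A.fix _ (A.maps y hy)).symm
  have h3 := (h1.congr_of_eventuallyEq h2).unique (hd z).hasFDerivAt
  rw [A.fix z hz] at h3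
  exact congrArg (fun L : V →L[ℝ] V => L w) h3

/-- Invariance of `M` under a tangent field with support in `U`. -/
theorem IE_inv (A : Amb V) {v : ℝ × V → V} (hv : ContDiff ℝ ∞ v) (hc : HasCompactSupport v)
    (h0 : ∀ t y, y ∉ A.U → v (t, y) = 0)
    (h1 : ∀ t, ∀ z ∈ A.M, fderiv ℝ A.r z (v (t, z)) = v (t, z)) {γ : ℝ → V}
    (hγ : ∀ t, HasDerivAt γ (v (t, γ t)) t) {a : ℝ} (ha : γ a ∈ A.M) (b : ℝ) : γ b ∈ A.M := by
  have hd : Differentiable ℝ A.r := A.smooth.differentiable (by simp)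
  have hQ : ContDiff ℝ ∞ fun p : ℝ × V => v p - fderiv ℝ A.r p.2 (v p) :=
    hv.sub ((((A.smooth.fderiv_right (m := ∞) le_rfl).comp contDiff_snd)).clm_apply hv)
  obtain ⟨c, hc0, hL⟩ := IE_lip hQ (HasCompactSupport.intro hc fun p hp => by
    rw [image_eq_zero_of_notMem_tsupport hp, map_zero, sub_zero])
  have h2 := IE_gron (u := fun t => γ t - A.r (γ t)) (c := c) (a := a)
    (fun t => (hγ t).sub ((hd (γ t)).hasFDerivAt.comp_hasDerivAt t (hγ t))) (fun t => ?_)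
    (sub_eq_zero.2 (A.fix _ ha).symm) b
  · by_cases hb : γ b ∈ A.U
    · rw [sub_eq_zero.1 h2]
      exact A.maps _ hb
    · rw [← IE_stat hv hc hγ (fun t => h0 t _ hb) a]
      exact ha
  · by_cases ht : γ t ∈ A.U
    · exact hL t _ _ (sub_eq_zero.2 (h1 t _ (A.maps _ ht)).symm)
    · rw [h0 t _ ht, map_zero, sub_zero, norm_zero]
      positivity

/-- Curves that agree on the unit interval have the same derivatives there. -/
theorem IE_uniq {γ δ : ℝ → V} {a b : V} {t : ℝ} (ht : t ∈ Icc (0 : ℝ) 1) (hγ : HasDerivAt γ a t)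
    (hδ : HasDerivAt δ b t) (h : ∀ s ∈ Icc (0 : ℝ) 1, γ s = δ s) : a = b :=
  (uniqueDiffOn_Icc zero_lt_one t ht).eq_deriv _ hγ.hasDerivWithinAt
    (hδ.hasDerivWithinAt.congr h (h t ht))

theorem IE_left {K : Set E} (hK : IsCompact K) {Φ : ℝ → E → V} (hΦ : Fam A K Φ) :
    ∃ L : ℝ × V → ℝ × E, ContDiff ℝ ∞ L ∧
      ∀ t ∈ Icc (0 : ℝ) 1, ∀ x ∈ K, L (t, Φ t x) = (t, x) := by
  have hd : Differentiable ℝ fun p : ℝ × E => Φ p.1 p.2 := hΦ.smooth.differentiable (by simp)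
  obtain ⟨L, h1, h2⟩ := left_inv (f := fun p : ℝ × E => (p.1, Φ p.1 p.2))
    (contDiff_fst.prodMk hΦ.smooth) (isCompact_Icc (a := (0 : ℝ)) (b := 1) |>.prod hK)
    (by
      rintro ⟨t, x⟩ ⟨ht, hx⟩ ⟨s, y⟩ ⟨-, hy⟩ h
      obtain ⟨h1, h2⟩ := Prod.mk.inj h
      dsimp only at h1 h2 ht hx hy
      subst h1
      rw [hΦ.inj t ht hx hy h2])
    (by
      rintro ⟨t, x⟩ ⟨ht, hx⟩
      rw [(hasFDerivAt_fst.prodMk (hd (t, x)).hasFDerivAt).fderiv]
      refine (injective_iff_map_eq_zero _).2 ?_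
      rintro ⟨a, b⟩ h
      obtain ⟨h1, h2⟩ := Prod.mk.inj h
      have h3 : a = 0 := h1
      subst h3
      have h4 : fderiv ℝ (Φ t) x = _ := (MP_bf98aa_gt.Ns.flow_slice (hd (t, x))).fderiv
      have h5 : b = 0 := (injective_iff_map_eq_zero _).1 (hΦ.imm t ht x hx) b (by
        rw [h4]; exact h2)
      rw [h5]
      rfl)
  exact ⟨L, h1, fun t ht x hx => h2.self_of_nhdsSet (t, x) ⟨ht, hx⟩⟩

theorem IE {K K₁ : Set E} (hK : IsCompact K) (hK₁ : IsClosed K₁) {Φ : ℝ → E → V} (hΦ : Fam A K Φ)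
    {G : Set V} (hG : IsOpen G) (stat : ∀ x ∈ K, x ∉ K₁ → ∀ t ∈ Icc (0 : ℝ) 1, Φ t x = Φ 0 x)
    (hin : ∀ t ∈ Icc (0 : ℝ) 1, ∀ x ∈ K, x ∈ K₁ → Φ t x ∈ G) :
    ∃ (ξ : Ist A) (C : Set V), IsCompact C ∧ C ⊆ G ∧
      (∀ t ∈ Icc (0 : ℝ) 1, ∀ y, y ∉ C → ξ.f t y = y) ∧
      ∀ t ∈ Icc (0 : ℝ) 1, ∀ x ∈ K, ξ.f t (Φ 0 x) = Φ t x := by
  have hd : Differentiable ℝ fun p : ℝ × E => Φ p.1 p.2 := hΦ.smooth.differentiable (by simp)
  have hr : Differentiable ℝ A.r := A.smooth.differentiable (by simp)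
  obtain ⟨L, hL, hLf⟩ := IE_left hK hΦ
  obtain ⟨l, D, O, hl, hD, hDU, -, hO, -, l1, l0, -⟩ := MP_bf98aa_gt.Ns.exists_cut
    (K := (fun p : ℝ × E => (p.1, Φ p.1 p.2)) '' (Icc (0 : ℝ) 1 ×ˢ (K ∩ K₁)))
    (U := Prod.snd ⁻¹' (G ∩ A.U))
    ((isCompact_Icc.prod (hK.inter_right hK₁)).image (continuous_fst.prodMk hΦ.smooth.continuous))
    ((hG.inter A.isOpen).preimage continuous_snd)
    (by
      rintro _ ⟨⟨t, x⟩, ⟨ht, hx, hx₁⟩, rfl⟩
      exact ⟨hin t ht x hx hx₁, A.sub (hΦ.maps t ht x hx)⟩)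
  obtain ⟨v, hv⟩ : ∃ v : ℝ × V → V, v = fun p => l p • fderiv ℝ A.r p.2
      (fderiv ℝ (fun p : ℝ × E => Φ p.1 p.2) (L p) (1, 0)) := ⟨_, rfl⟩
  have sv : ContDiff ℝ ∞ v := by
    rw [hv]
    exact hl.smul (((A.smooth.fderiv_right (m := ∞) le_rfl).comp contDiff_snd).clm_apply
      (((hΦ.smooth.fderiv_right (m := ∞) le_rfl).comp hL).clm_apply contDiff_const))
  have v0 : ∀ p, p ∉ D → v p = 0 := fun p hp => by simp only [hv, l0 p hp, zero_smul]
  have cv : HasCompactSupport v := HasCompactSupport.intro hD v0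
  have vC : ∀ t y, y ∉ Prod.snd '' D → v (t, y) = 0 := fun t y hy =>
    v0 _ fun h => hy ⟨_, h, rfl⟩
  have hC : Prod.snd '' D ⊆ G ∩ A.U := by
    rintro _ ⟨p, hp, rfl⟩
    exact hDU hp
  have vM : ∀ t, ∀ z ∈ A.M, fderiv ℝ A.r z (v (t, z)) = v (t, z) := fun t z hz => by
    simp only [hv, map_smul, IE_idem A hz]
  obtain ⟨φ, sφ, φ0, φd, φ', φu⟩ := tflow sv cv
  obtain ⟨d, hd1⟩ := φd 1
  have inv : ∀ y a, φ a y ∈ A.M → ∀ b, φ b y ∈ A.M := fun y a =>
    IE_inv A sv cv (fun t y hy => vC t y fun h => hy (hC h).2) vM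
      (γ := fun s => φ s y) fun t => φ' t y
  refine ⟨⟨φ, d, sφ.continuous, φ0, fun y => (hd1 y).symm, fun t _ y hy => ?_, fun y hy => ?_⟩,
    Prod.snd '' D, hD.image continuous_snd, fun y hy => (hC hy).1, fun t _ y hy => ?_,
    fun t ht x hx => ?_⟩
  · exact inv y 0 (by rwa [φ0]) t
  · have h1 := inv (d.symm y) 1 (by
      rw [← hd1, show d (d.symm y) = y from d.right_inv y]; exact hy) 0
    rwa [φ0] at h1
  · have h1 := IE_stat sv cv (γ := fun s => φ s y) (fun s => φ' s y) (a := 0)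
      (fun s => by rw [φ0]; exact vC s y hy) t
    rwa [φ0] at h1
  · refine (φu (fun s => Φ s x) (fun s hs => ?_) t ht).symm
    have h1 := MP_bf98aa_gt.Ns.flow_time (hd (s, x))
    refine h1.congr_deriv ?_
    simp only [hv, hLf s hs x hx]
    by_cases hx₁ : x ∈ K₁
    · rw [l1 _ (hO ⟨(s, x), ⟨hs, hx, hx₁⟩, rfl⟩), one_smul]
      exact IE_uniq hs h1 ((hr (Φ s x)).hasFDerivAt.comp_hasDerivAt s h1)
        fun u hu => (A.fix _ (hΦ.maps u hu x hx)).symm
    · rw [IE_uniq hs h1 (hasDerivAt_const s (Φ 0 x)) (stat x hx hx₁), map_zero, smul_zero]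

theorem Mv.of_fam {K : Set E} (hK : IsCompact K) {Φ : ℝ → E → V} (hΦ : Fam A K Φ)
    (hM : ∀ᶠ x in 𝓝ˢ K, ∀ t ∈ Icc (0 : ℝ) 1, Φ t x ∈ A.M) {p : E} (hp : p ∈ K)
    (hs : ∀ t ∈ Icc (0 : ℝ) 1, Φ t p = Φ 0 p) : Mv A {Φ 0 p} K (Φ 0) (Φ 1) := by
  obtain ⟨K', hK', hKK, -, hΦ'⟩ := hΦ.nhd hK hM univ_mem
  obtain ⟨ξ, C, -, -, -, h⟩ := IE hK' isClosed_univ hΦ' isOpen_univ
    (fun x _ hx => absurd (mem_univ x) hx) fun _ _ _ _ _ => mem_univ _
  refine ⟨ξ, fun t ht y hy => ?_, ?_⟩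
  · rw [show y = Φ 0 p from hy, h t ht p (interior_subset (hKK hp)), hs t ht]
  · filter_upwards [isOpen_interior.mem_nhdsSet.2 hKK] with x hx
    rw [← ξ.one, h 1 ⟨zero_le_one, le_rfl⟩ x (interior_subset hx)]

theorem Same.of_isot {K B S : Set E} (hB : IsCompact B) (hS : S ⊆ B) {Φ : E → V} (h : Emb A K Φ)
    {m : ℝ → E → E} (hm : Isot m) (h1 : ∀ t ∈ Icc (0 : ℝ) 1, MapsTo (m t) B K) :
    Same A (Φ '' B) (Φ '' S) (Φ '' (m 1 '' B)) (Φ '' (m 1 '' S)) := by
  obtain ⟨hF, -⟩ := h.fam hB hm.smooth h1 (fun t ht => (hm.inj t ht).injOn)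
    fun t ht x _ => hm.imm t ht x
  obtain ⟨ξ, C, -, -, -, h2⟩ := IE hB isClosed_univ hF isOpen_univ
    (fun x _ hx => absurd (mem_univ x) hx) fun _ _ _ _ _ => mem_univ _
  rw [image_image, image_image]
  refine Same.of_ist ξ hS fun x hx => ?_
  have h3 := h2 1 ⟨zero_le_one, le_rfl⟩ x hx
  rwa [hm.zero, ξ.one] at h3

end Pool.Agent.Work.MP_7ba843_gt.C
end
end

-- merged part: Pool.Agent.Work.MP_7ba843_gt.C.GP
section
/-! General position for one-parameter families of arcs.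

PLAN. For `p ∈ Q` take a chart at `H p` and a smooth bump `b p` (`ContDiffBump`) positive at `p`
with compact `tsupport` inside `Ω ∩ H ⁻¹' W`; finitely many of the open sets `{b p ≠ 0}` cover `Q`.
Make a list `l` of triples (chart, compact set `S`, function `β`) with `tsupport β ⊆ S`, containing
for each chosen `p` both `β = lam * b p` and `β = fun q => q.2 * (lam q * b p q)`. Induction on a
list `l'` of members of `l`: there is a smooth `H'` with `MapsTo H' Ω M`, `MapsTo H' S W` for all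
members of `l`, `H' p = H p` where all `β` of `l'` vanish, and the three implications of `gp1` for
all `β` in `l'` at once. Step: the set of `a` for which `P a` maps every `S` into its `W` is a
neighbourhood of `0` (`IsCompact.eventually_forall_of_forall_eventually`), so it meets the dense
set. End: if `lam (t, s) ≠ 0` pick `b` with `b (t, s) ≠ 0`; equality of both functions at `(t, s)`
and `(t, s')` gives `s = s'`; vanishing of both derivatives gives `lam * b = 0` (product rule).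
About 200 lines. -/

set_option linter.unusedSectionVars false
set_option linter.unusedVariables false

open Set Filter Topology Function
open scoped ContDiff

noncomputable section
namespace Pool.Agent.Work.MP_7ba843_gt.C

open Pool.Agent.Work.MP_bf98aa_gt.Ns (Dif)

variable {V E F : Type} [NormedAddCommGroup V] [NormedSpace ℝ V] [FiniteDimensional ℝ V]
  [NormedAddCommGroup E] [NormedSpace ℝ E] [FiniteDimensional ℝ E]
  [NormedAddCommGroup F] [NormedSpace ℝ F] [FiniteDimensional ℝ F] {A : Amb V}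

theorem GP_ind {M : Set V} {κ : Type} [Finite κ] {y₀ : κ → V} (c : ∀ k, Chart M (y₀ k))
    {H : ℝ × ℝ → V} (hH : ContDiff ℝ ∞ H) {Ω : Set (ℝ × ℝ)} (hΩ : IsOpen Ω) (hM : MapsTo H Ω M)
    {β : κ → ℝ × ℝ → ℝ} (hβ : ∀ k, ContDiff ℝ ∞ (β k)) (hc : ∀ k, HasCompactSupport (β k))
    (hs : ∀ k, tsupport (β k) ⊆ Ω ∩ H ⁻¹' (c k).W) {ι : Type} [Finite ι] {y : ι → ℝ → V}
    (hy : ∀ i, ContDiff ℝ ∞ (y i)) {T : Set κ} (hT : T.Finite) :
    ∃ H' : ℝ × ℝ → V, ContDiff ℝ ∞ H' ∧ MapsTo H' Ω M ∧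
      (∀ k, ∀ p ∈ tsupport (β k), H' p ∈ (c k).W) ∧ (∀ p, (∀ k ∈ T, β k p = 0) → H' p = H p) ∧
      (∀ t s s', (t, s) ∈ Ω → (t, s') ∈ Ω → H' (t, s) = H' (t, s') →
        ∀ k ∈ T, β k (t, s) = β k (t, s')) ∧
      (∀ p ∈ Ω, deriv (fun s => H' (p.1, s)) p.2 = 0 →
        (∀ k ∈ T, deriv (fun s => β k (p.1, s)) p.2 = 0) ∧ deriv (fun s => H (p.1, s)) p.2 = 0) ∧
      ∀ p ∈ Ω, ∀ i u, H' p = y i u → ∀ k ∈ T, β k p = 0 := by
  induction T, hT using Set.Finite.induction_on with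
  | empty => exact ⟨H, hH, hM, fun k p hp => (hs k hp).2, fun _ _ => rfl, by simp,
      fun p _ e => ⟨by simp, e⟩, by simp⟩
  | @insert k T _ _ ih =>
    obtain ⟨H', h1, h2, h3, h4, h5, h6, h7⟩ := ih
    obtain ⟨P, p1, p2, p3, p4, p5⟩ := gp1 (c k) h1 hΩ h2 (hβ k)
      (fun p hp => ⟨(hs k hp).1, h3 k p hp⟩) hy
    have ev : ∀ᶠ a in 𝓝 (0 : E4), ∀ j, ∀ p ∈ tsupport (β j), P a p ∈ (c j).W :=
      eventually_all.2 fun j => (hc j).isCompact.eventually_forall_of_forall_eventually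
        fun p hp => p1.continuous.continuousAt.eventually ((c j).isOpen.mem_nhds (by
          simpa only [p2] using h3 j p hp))
    obtain ⟨a, ⟨a1, a2, a3⟩, a4⟩ := p5.inter_nhds_nonempty ev
    refine ⟨P a, p1.comp (contDiff_prodMk_right a), p4 a, a4, fun p hp => ?_,
      fun t s s' q q' e => ?_, fun p hp e => ?_, fun p hp i u e => ?_⟩
    · rw [forall_mem_insert] at hp
      rw [p3 a p hp.1, h4 p hp.2]
    · exact forall_mem_insert.2 ⟨(a1 t s s' q q' e).1, h5 t s s' q q' (a1 t s s' q q' e).2⟩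
    · have := h6 p hp (a2 p hp e).2
      exact ⟨forall_mem_insert.2 ⟨(a2 p hp e).1, this.1⟩, this.2⟩
    · have := a3 p hp i u e
      exact forall_mem_insert.2 ⟨this, h7 p hp i u (p3 a p this ▸ e)⟩

theorem gp (A : Amb V) {H : ℝ × ℝ → V} (hH : ContDiff ℝ ∞ H) {Ω Q : Set (ℝ × ℝ)} (hΩ : IsOpen Ω)
    (hQ : IsCompact Q) (hQΩ : Q ⊆ Ω) (hM : MapsTo H Ω A.M) {lam : ℝ × ℝ → ℝ}
    (hl : ContDiff ℝ ∞ lam) {ι : Type} [Finite ι] {y : ι → ℝ → V} (hy : ∀ i, ContDiff ℝ ∞ (y i)) :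
    ∃ H' : ℝ × ℝ → V, ContDiff ℝ ∞ H' ∧ MapsTo H' Ω A.M ∧ (∀ p, lam p = 0 → H' p = H p) ∧
      (∀ t s s', (t, s) ∈ Q → (t, s') ∈ Q → H' (t, s) = H' (t, s') →
        s = s' ∨ (lam (t, s) = 0 ∧ lam (t, s') = 0)) ∧
      (∀ p ∈ Q, deriv (fun s => H' (p.1, s)) p.2 = 0 →
        lam p = 0 ∧ deriv (fun s => H (p.1, s)) p.2 = 0) ∧
      ∀ p ∈ Q, ∀ i u, H' p = y i u → lam p = 0 := by
  have c : ∀ p : Q, Chart A.M (H p) := fun p => (A.chart _ (hM (hQΩ p.2))).some
  choose b b1 b2 b3 b4 b5 using fun p : Q => exists_contDiff_tsupport_subset (n := ⊤) (x := p.1)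
    ((hΩ.inter ((c p).isOpen.preimage hH.continuous)).mem_nhds ⟨hQΩ p.2, (c p).mem⟩)
  obtain ⟨L, hL⟩ := hQ.elim_finite_subcover (fun p : Q => support (b p))
    (fun p => (b3 p).continuous.isOpen_support)
    fun p hp => mem_iUnion.2 ⟨⟨p, hp⟩, by simp [b5 ⟨p, hp⟩]⟩
  have cov : ∀ p ∈ Q, ∃ k : L, b k p ≠ 0 := fun p hp => by
    obtain ⟨k, hk, e⟩ := mem_iUnion₂.1 (hL hp)
    exact ⟨⟨k, hk⟩, e⟩
  obtain ⟨H', h1, h2, -, h4, h5, h6, h7⟩ := GP_ind (κ := L × Bool) (fun k => c k.1) hH hΩ hM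
    (β := fun k q => cond k.2 q.2 1 * (lam q * b k.1 q))
    (fun k => ContDiff.mul (by rcases k with ⟨_, _ | _⟩; exacts [contDiff_const, contDiff_snd])
      (hl.mul (b3 _))) (fun k => (b2 _).mul_left.mul_left)
    (fun k => (tsupport_mul_subset_right.trans tsupport_mul_subset_right).trans (b1 _)) hy
    finite_univ
  have key : ∀ t s s', (t, s) ∈ Q → (t, s') ∈ Q → H' (t, s) = H' (t, s') → lam (t, s) ≠ 0 →
      s = s' := fun t s s' q q' e h0 => by
    obtain ⟨k, hk⟩ := cov _ q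
    have e0 := h5 t s s' (hQΩ q) (hQΩ q') e (k, false) trivial
    have e1 := h5 t s s' (hQΩ q) (hQΩ q') e (k, true) trivial
    simp only [cond_false, cond_true, one_mul] at e0 e1
    exact mul_right_cancel₀ (mul_ne_zero h0 hk) (e1.trans (by rw [e0]))
  refine ⟨H', h1, h2, fun p hp => h4 p fun k _ => by simp [hp], fun t s s' q q' e => ?_,
    fun p hp e => ⟨?_, (h6 p (hQΩ hp) e).2⟩, fun p hp i u e => ?_⟩
  · exact or_iff_not_imp_left.2 fun hn => ⟨by_contra fun h0 => hn (key t s s' q q' e h0),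
      by_contra fun h0 => hn (key t s' s q' q e.symm h0).symm⟩
  · obtain ⟨k, hk⟩ := cov p hp
    have e0 := (h6 p (hQΩ hp) e).1 (k, false) trivial
    have e1 := (h6 p (hQΩ hp) e).1 (k, true) trivial
    simp only [cond_false, cond_true, one_mul] at e0 e1
    have d := (GP1_der (p := p) ((hl.mul (b3 k)).differentiable (by simp) p)).differentiableAt
    have e2 := ((hasDerivAt_id' p.2).fun_mul d.hasDerivAt).deriv
    rw [e0, e1] at e2
    simpa [hk] using e2
  · obtain ⟨k, hk⟩ := cov p hp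
    simpa [hk] using h7 p (hQΩ hp) i u e (k, false) trivial

end Pool.Agent.Work.MP_7ba843_gt.C
end
end

-- merged part: Pool.Agent.Work.MP_7ba843_gt.C.Arc
section
/-! The bridges can be made to agree.

PLAN. `gp` with `Ω = Ioo (-1) 2 ×ˢ ⋃ j < g, Ioo (8 j + 9 / 2) (8 j + 19 / 2)`, `Q = Icc 0 1 ×ˢ I`,
`I = ⋃ j < g, Icc (8 j + 5) (8 j + 9)`, `lam (t, s) = t * (1 - t) * ∑ j < g, expNegInvGlue
(s - 8 j - 27 / 5) * expNegInvGlue (8 j + 43 / 5 - s)`, and the obstacles `Φ ∘ seg` for the bar and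
the `2 g + 2` teeth (`ι = Option (Fin (2 g + 2))`). At a zero of `lam` in `Q` the map `H'` is `Φ` or
`Φ'` on the line, which gives `Fam A I (fun t s => H' (t, s))`. `IE` with
`K₁ = ⋃ j < g, Icc (8 j + 27 / 5) (8 j + 43 / 5)` and `G = (Φ '' tree g)ᶜ`. Near the tree
`Φ x ∉ C` and `Φ = Φ'` (`tree_sub`). About 250 lines. -/

set_option linter.unusedSectionVars false
set_option linter.unusedVariables false

open Set Filter Topology Function
open scoped ContDiff

noncomputable section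
namespace Pool.Agent.Work.MP_7ba843_gt.C

open Pool.Agent.Work.MP_bf98aa_gt.Ns (Dif)
open Pool.Agent.Work.MP_735653_gt Pool.Agent.Work.MP_7ba843_gt.N

variable {V E F : Type} [NormedAddCommGroup V] [NormedSpace ℝ V] [FiniteDimensional ℝ V]
  [NormedAddCommGroup E] [NormedSpace ℝ E] [FiniteDimensional ℝ E]
  [NormedAddCommGroup F] [NormedSpace ℝ F] [FiniteDimensional ℝ F] {A : Amb V}

variable {G : Type} [Group G] {η : (ℝ → V) → G}

/-- the line of the bridges -/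
def Arc_ln (s : ℝ) : E3 := ![s, 5, 1]

theorem Arc_ln_deriv (s : ℝ) : HasDerivAt Arc_ln (![1, 0, 0] : E3) s := by
  rw [hasDerivAt_pi]
  intro i
  fin_cases i
  · exact hasDerivAt_id s
  · exact hasDerivAt_const s (5 : ℝ)
  · exact hasDerivAt_const s (1 : ℝ)

theorem Arc_ln_mem {g j : ℕ} (hj : j < g) {s : ℝ} (hs : s ∈ Icc (8 * (j : ℝ) + 5) (8 * j + 9)) :
    Arc_ln s ∈ NK (gr3 g) := by
  refine interior_subset (line_sub hj ?_)
  refine ⟨?_, ?_, ?_, ?_⟩
  · show 8 * (j : ℝ) + 9 / 2 ≤ s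
    linarith only [hs, hs.1]
  · show s ≤ 8 * (j : ℝ) + 19 / 2
    linarith only [hs, hs.2]
  · rfl
  · rfl

/-- the cut-off along the bridges -/
def Arc_b (g : ℕ) (s : ℝ) : ℝ :=
  ∑ j ∈ Finset.range g, expNegInvGlue (s - 8 * j - 27 / 5) * expNegInvGlue (8 * j + 43 / 5 - s)

theorem Arc_b_smooth (g : ℕ) : ContDiff ℝ ∞ (Arc_b g) := by
  unfold Arc_b
  refine ContDiff.sum fun j _ => ContDiff.mul ?_ ?_
  · exact expNegInvGlue.contDiff.comp (by fun_prop)
  · exact expNegInvGlue.contDiff.comp (by fun_prop)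

theorem Arc_b_zero {g : ℕ} {s : ℝ} (h : Arc_b g s = 0) {j : ℕ} (hj : j < g) :
    s ≤ 8 * (j : ℝ) + 27 / 5 ∨ 8 * (j : ℝ) + 43 / 5 ≤ s := by
  unfold Arc_b at h
  rw [Finset.sum_eq_zero_iff_of_nonneg (fun i _ =>
    mul_nonneg (expNegInvGlue.nonneg _) (expNegInvGlue.nonneg _))] at h
  have h1 := h j (Finset.mem_range.2 hj)
  by_contra hc
  rw [not_or, not_le, not_le] at hc
  have h2 := expNegInvGlue.pos_of_pos (x := s - 8 * j - 27 / 5) (by linarith only [hc, hc.1])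
  have h3 := expNegInvGlue.pos_of_pos (x := 8 * j + 43 / 5 - s) (by linarith only [hc, hc.2])
  exact (mul_pos h2 h3).ne' h1

theorem Arc_b_out {g : ℕ} {s : ℝ}
    (h : ∀ j : ℕ, j < g → s ∉ Icc (8 * (j : ℝ) + 27 / 5) (8 * j + 43 / 5)) : Arc_b g s = 0 := by
  unfold Arc_b
  refine Finset.sum_eq_zero fun j hj => ?_
  have h1 := h j (Finset.mem_range.1 hj)
  rw [mem_Icc, not_and_or, not_le, not_le] at h1
  rcases h1 with h1 | h1
  · rw [expNegInvGlue.zero_of_nonpos (by linarith only [h1]), zero_mul]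
  · rw [expNegInvGlue.zero_of_nonpos (x := 8 * j + 43 / 5 - s) (by linarith only [h1]), mul_zero]

theorem Arc_inj {f : ℝ → V} {x : ℝ} (h : deriv f x ≠ 0) : Injective (fderiv ℝ f x) := by
  intro u v huv
  rw [fderiv_eq_smul_deriv, fderiv_eq_smul_deriv] at huv
  exact smul_left_injective ℝ h huv

theorem Arc_not_tree {g j : ℕ} {s : ℝ} (hs : s ∈ Icc (8 * (j : ℝ) + 27 / 5) (8 * j + 43 / 5)) :
    Arc_ln s ∉ tree g := by
  rintro ⟨-, h | ⟨i, -, h, -⟩⟩
  · have h1 : (5 : ℝ) = 1 := h.1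
    norm_num at h1
  · have h1 : s = 4 * (i : ℝ) + 1 := h
    have h2 : (8 * j + 4 : ℝ) < 4 * i := by linarith only [h1, hs, hs.1]
    have h3 : (4 * i : ℝ) < 8 * j + 8 := by linarith only [h1, hs, hs.2]
    have h4 : 8 * j + 4 < 4 * i := by exact_mod_cast h2
    have h5 : 4 * i < 8 * j + 8 := by exact_mod_cast h3
    omega

/-- lines that cover the tree -/
def Arc_ob (g : ℕ) : Option (Fin (2 * g + 2)) → ℝ → E3
  | none => fun u => ![u, 1, 1]
  | some i => fun u => ![4 * (i.1 : ℝ) + 1, u, 1]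

theorem Arc_ob_smooth (g : ℕ) (i : Option (Fin (2 * g + 2))) : ContDiff ℝ ∞ (Arc_ob g i) := by
  rw [contDiff_pi]
  intro k
  cases i with
  | none =>
    fin_cases k
    · exact contDiff_id
    · exact contDiff_const
    · exact contDiff_const
  | some i =>
    fin_cases k
    · exact contDiff_const
    · exact contDiff_id
    · exact contDiff_const

theorem Arc_ob_cover {g : ℕ} {z : E3} (hz : z ∈ tree g) : ∃ i u, z = Arc_ob g i u := by
  obtain ⟨h2, h | ⟨i, hi, h, -⟩⟩ := hz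
  · refine ⟨none, z 0, ?_⟩
    funext k
    fin_cases k
    · rfl
    · exact h.1
    · exact h2
  · refine ⟨some ⟨i, by omega⟩, z 1, ?_⟩
    funext k
    fin_cases k
    · exact h
    · rfl
    · exact h2

theorem arcs (hη : IsHol A.M η) {g : ℕ} {Φ Φ' : E3 → V} (h : Emb A (NK (gr3 g)) Φ)
    (h' : Emb A (NK (gr3 g)) Φ') (e : EqOn Φ Φ' (Cb g))
    (ht : tup g (fun c => η (Φ ∘ c)) = tup g fun c => η (Φ' ∘ c)) :
    ∃ ξ : Ist A, (∀ x ∈ core g, ξ.d (Φ x) = Φ' x) ∧ ∀ᶠ x in 𝓝ˢ (tree g), ξ.d (Φ x) = Φ' x := by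
  classical
  obtain ⟨H, hH, hP⟩ := arc_htp hη h h' e ht
  let I : Set ℝ := ⋃ j ∈ Finset.range g, Icc (8 * (j : ℝ) + 5) (8 * j + 9)
  let K₁ : Set ℝ := ⋃ j ∈ Finset.range g, Icc (8 * (j : ℝ) + 27 / 5) (8 * j + 43 / 5)
  let O : Set ℝ := ⋃ j ∈ Finset.range g, Ioo (8 * (j : ℝ) + 9 / 2) (8 * j + 19 / 2)
  have hI : IsCompact I := (Finset.range g).isCompact_biUnion fun j _ => isCompact_Icc
  have hK₁ : IsClosed K₁ :=
    ((Finset.range g).isCompact_biUnion fun j _ => isCompact_Icc).isClosed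
  have hO : IsOpen O := isOpen_biUnion fun j _ => isOpen_Ioo
  have mI : ∀ {s}, s ∈ I ↔ ∃ j : ℕ, j < g ∧ s ∈ Icc (8 * (j : ℝ) + 5) (8 * j + 9) := by
    intro s
    simp only [I, mem_iUnion, Finset.mem_range, exists_prop]
  have mK : ∀ {s}, s ∈ K₁ ↔
      ∃ j : ℕ, j < g ∧ s ∈ Icc (8 * (j : ℝ) + 27 / 5) (8 * j + 43 / 5) := by
    intro s
    simp only [K₁, mem_iUnion, Finset.mem_range, exists_prop]
  have mO : ∀ {s}, s ∈ O ↔
      ∃ j : ℕ, j < g ∧ s ∈ Ioo (8 * (j : ℝ) + 9 / 2) (8 * j + 19 / 2) := by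
    intro s
    simp only [O, mem_iUnion, Finset.mem_range, exists_prop]
  let lam : ℝ × ℝ → ℝ := fun p => p.1 * (1 - p.1) * Arc_b g p.2
  have hl : ContDiff ℝ ∞ lam :=
    (contDiff_fst.mul (contDiff_const.sub contDiff_fst)).mul ((Arc_b_smooth g).comp contDiff_snd)
  have hQΩ : Icc (0 : ℝ) 1 ×ˢ I ⊆ Ioo (-1 : ℝ) 2 ×ˢ O := by
    rintro ⟨t, s⟩ ⟨h1, h2⟩
    obtain ⟨j, hj, hs⟩ := mI.1 h2
    have h3 : t ∈ Icc (0 : ℝ) 1 := h1
    refine ⟨⟨by linarith only [h3, h3.1], by linarith [h3.2]⟩, mO.2 ⟨j, hj, ?_, ?_⟩⟩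
    · linarith only [hs, hs.1]
    · linarith only [hs, hs.2]
  have hM : MapsTo H (Ioo (-1 : ℝ) 2 ×ˢ O) A.M := by
    rintro ⟨t, s⟩ ⟨h1, h2⟩
    obtain ⟨j, hj, hs⟩ := mO.1 h2
    exact (hP j hj s (Ioo_subset_Icc_self hs)).1 t (Ioo_subset_Icc_self h1)
  obtain ⟨H', hH', hM', hz, hi, hd, ho⟩ := gp A hH (isOpen_Ioo.prod hO) (isCompact_Icc.prod hI)
    hQΩ hM hl (y := fun i u => Φ (Arc_ob g i u)) (fun i => h.smooth.comp (Arc_ob_smooth g i))
  let Ψ : ℝ → E3 → V := fun t => if t = 1 then Φ' else Φ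
  have hΨ : ∀ t, Emb A (NK (gr3 g)) (Ψ t) := by
    intro t
    by_cases h1 : t = 1
    · simp only [Ψ, if_pos h1]; exact h'
    · simp only [Ψ, if_neg h1]; exact h
  have hΨt : ∀ t, ∀ z ∈ tree g, Ψ t z = Φ z := by
    intro t z hz
    by_cases h1 : t = 1
    · simp only [Ψ, if_pos h1]; exact (e (interior_subset (tree_sub g hz))).symm
    · simp only [Ψ, if_neg h1]
  have key : ∀ t s, s ∈ I → lam (t, s) = 0 → ∀ᶠ s' in 𝓝 s, H (t, s') = Ψ t (Arc_ln s') := by
    intro t s hs h0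
    obtain ⟨j, hj, hs⟩ := mI.1 hs
    have hn : Icc (8 * (j : ℝ) + 9 / 2) (8 * j + 19 / 2) ∈ 𝓝 s :=
      Icc_mem_nhds (by linarith only [hs, hs.1]) (by linarith only [hs, hs.2])
    by_cases h1 : t = 1
    · filter_upwards [hn] with s' hs'
      simp only [Ψ, if_pos h1]
      rw [h1]
      exact (hP j hj s' hs').2.2.1
    · simp only [Ψ, if_neg h1]
      by_cases h2 : t = 0
      · filter_upwards [hn] with s' hs'
        rw [h2]
        exact (hP j hj s' hs').2.1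
      · have h3 : Arc_b g s = 0 := by
          have h4 : t * (1 - t) * Arc_b g s = 0 := h0
          exact (mul_eq_zero.1 h4).resolve_left (mul_ne_zero h2 (sub_ne_zero.2 (Ne.symm h1)))
        rcases Arc_b_zero h3 hj with h4 | h4
        · filter_upwards [hn, Iio_mem_nhds (show s < 8 * (j : ℝ) + 109 / 20 by linarith only [h4])]
            with s' hs' hs2
          exact (hP j hj s' hs').2.2.2 (fun hc => lt_asymm hc.1 hs2) t
        · filter_upwards [hn, Ioi_mem_nhds (show 8 * (j : ℝ) + 171 / 20 < s by linarith only [h4])]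
            with s' hs' hs2
          exact (hP j hj s' hs').2.2.2 (fun hc => lt_asymm hc.2 hs2) t
  have key' : ∀ t s, s ∈ I → lam (t, s) = 0 → H' (t, s) = Ψ t (Arc_ln s) := fun t s hs h0 =>
    (hz _ h0).trans (key t s hs h0).self_of_nhds
  have hN : ∀ s ∈ I, Arc_ln s ∈ NK (gr3 g) := by
    intro s hs
    obtain ⟨j, hj, hs⟩ := mI.1 hs
    exact Arc_ln_mem hj hs
  have hF : Fam A I fun t s => H' (t, s) := by
    refine ⟨hH', fun t ht s hs => hM' (hQΩ (mk_mem_prod ht hs)), ?_, ?_⟩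
    · intro t ht s hs s' hs' hss
      rcases hi t s s' (mk_mem_prod ht hs) (mk_mem_prod ht hs') hss with h1 | ⟨h1, h2⟩
      · exact h1
      · have h3 : H' (t, s) = H' (t, s') := hss
        rw [key' t s hs h1, key' t s' hs' h2] at h3
        exact congrFun ((hΨ t).inj (hN s hs) (hN s' hs') h3) 0
    · intro t ht s hs
      refine Arc_inj fun h0 => ?_
      obtain ⟨h1, h2⟩ := hd (t, s) (mk_mem_prod ht hs) h0
      have h3 : deriv (fun s' => H (t, s')) s = deriv (fun s' => Ψ t (Arc_ln s')) s :=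
        Filter.EventuallyEq.deriv_eq (key t s hs h1)
      have h4 : HasDerivAt (fun s' => Ψ t (Arc_ln s'))
          (fderiv ℝ (Ψ t) (Arc_ln s) (![1, 0, 0] : E3)) s :=
        (((hΨ t).smooth.differentiable (by simp)) _).hasFDerivAt.comp_hasDerivAt s
          (Arc_ln_deriv s)
      have h5 : fderiv ℝ (Ψ t) (Arc_ln s) (![1, 0, 0] : E3) = fderiv ℝ (Ψ t) (Arc_ln s) 0 := by
        rw [map_zero, ← h4.deriv, ← h3]
        exact h2
      have h6 := congrFun ((hΨ t).imm _ (hN s hs) h5) 0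
      simp at h6
  have hG : IsOpen (Φ '' tree g)ᶜ :=
    ((tree_compact g).image h.smooth.continuous).isClosed.isOpen_compl
  have tN : tree g ⊆ NK (gr3 g) := fun z hz =>
    interior_subset (Cb_sub g (interior_subset (tree_sub g hz)))
  obtain ⟨ξ, C, hC, hCG, hfix, hmv⟩ := IE hI hK₁ hF hG (by
      intro s hs hs1 t ht
      have h3 : Arc_b g s = 0 := Arc_b_out fun j hj hc => hs1 (mK.2 ⟨j, hj, hc⟩)
      have h4 : ∀ t, lam (t, s) = 0 := fun t => by
        show t * (1 - t) * Arc_b g s = 0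
        rw [h3, mul_zero]
      obtain ⟨j, hj, hs2⟩ := mI.1 hs
      have h5 : s ∉ Ioo (8 * (j : ℝ) + 109 / 20) (8 * j + 171 / 20) := fun hc =>
        hs1 (mK.2 ⟨j, hj, by linarith only [hc, hc.1], by linarith only [hc, hc.2]⟩)
      have h6 := (hP j hj s ⟨by linarith only [hs2, hs2.1], by linarith only [hs2, hs2.2]⟩).2.2.2 h5
      show H' (t, s) = H' (0, s)
      rw [hz _ (h4 t), hz _ (h4 0), h6, h6]) (by
      rintro t ht s hs hs1 ⟨z, hz1, hz2⟩
      obtain ⟨i, u, hu⟩ := Arc_ob_cover hz1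
      have h1 : lam (t, s) = 0 := ho (t, s) (mk_mem_prod ht hs) i u (by rw [← hu]; exact hz2.symm)
      have h2 : Ψ t z = Ψ t (Arc_ln s) := by
        rw [hΨt t z hz1, ← key' t s hs h1]
        exact hz2
      obtain ⟨j, hj, hs2⟩ := mK.1 hs1
      exact Arc_not_tree hs2 ((hΨ t).inj (tN hz1) (hN s hs) h2 ▸ hz1))
  have one : (1 : ℝ) ∈ Icc (0 : ℝ) 1 := ⟨zero_le_one, le_rfl⟩
  have hout : ∀ x, Φ x ∉ C → x ∈ Cb g → ξ.d (Φ x) = Φ' x := by
    intro x h1 h2
    rw [← ξ.one, hfix 1 one _ h1]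
    exact e h2
  refine ⟨ξ, ?_, ?_⟩
  · rintro x (hx | hx)
    · exact hout x (fun hc => hCG hc ⟨x, hx, rfl⟩) (interior_subset (tree_sub g hx))
    · simp only [mem_iUnion, exists_prop] at hx
      obtain ⟨j, hj, h1, h2, h3, h4⟩ := hx
      have hx0 : x = Arc_ln (x 0) := by
        funext k
        fin_cases k
        · rfl
        · exact h3
        · exact h4
      have hs : x 0 ∈ I := mI.2 ⟨j, hj, h1, h2⟩
      have h5 := hmv 1 one _ hs
      have h6 : H' (0, x 0) = Φ x := by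
        rw [key' 0 _ hs (by simp [lam]), ← hx0]
        simp only [Ψ, if_neg (zero_ne_one' ℝ)]
      have h7 : H' (1, x 0) = Φ' x := by
        rw [key' 1 _ hs (by simp [lam]), ← hx0]
        simp only [Ψ, if_true]
      rw [← ξ.one, ← h6, ← h7]
      exact h5
  · have h1 : IsOpen (Φ ⁻¹' Cᶜ ∩ interior (Cb g)) :=
      (hC.isClosed.isOpen_compl.preimage h.smooth.continuous).inter isOpen_interior
    have h2 : tree g ⊆ Φ ⁻¹' Cᶜ ∩ interior (Cb g) := fun x hx =>
      ⟨fun hc => hCG hc ⟨x, hx, rfl⟩, tree_sub g hx⟩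
    filter_upwards [h1.mem_nhdsSet.2 h2] with x hx
    exact hout x hx.1 (interior_subset hx.2)

end Pool.Agent.Work.MP_7ba843_gt.C
end
end

-- merged part: Pool.Agent.Work.MP_7ba843_gt.C.Seg
section
/-! Straight homotopies along a segment.

PLAN. `j t x = (1 - t) • h x + t • h' x`; `Emb.fam` gives a family along `L = Ls a b`. The set `O`
of points `x` such that (`x 0 ∈ Ioo a' b'` or `h x = h' x`) and (`x 0 ∉ Icc a' b'` or
`∀ t ∈ Icc 0 1, Ψ (j t x) ∈ G`) is a neighbourhood of `L`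
(`IsCompact.eventually_forall_of_forall_eventually`). `Fam.nhd` gives `K' ⊆ O`; `IE` with
`K₁ = {x | x 0 ∈ Icc a' b'}`. About 110 lines. -/

set_option linter.unusedSectionVars false
set_option linter.unusedVariables false

open Set Filter Topology Function
open scoped ContDiff

noncomputable section
namespace Pool.Agent.Work.MP_7ba843_gt.C

open Pool.Agent.Work.MP_bf98aa_gt.Ns (Dif)
open Pool.Agent.Work.MP_735653_gt Pool.Agent.Work.MP_7ba843_gt.N

variable {V E F : Type} [NormedAddCommGroup V] [NormedSpace ℝ V] [FiniteDimensional ℝ V]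
  [NormedAddCommGroup E] [NormedSpace ℝ E] [FiniteDimensional ℝ E]
  [NormedAddCommGroup F] [NormedSpace ℝ F] [FiniteDimensional ℝ F] {A : Amb V}

theorem seg_mc {a b a' b' : ℝ} {Ψ : E4 → V} (hΨ : Emb A (i34 '' Ls a b) Ψ) {h h' : E3 → E4}
    (h1 : Adm a b a' b' h) (h2 : Adm a b a' b' h') (h3 : SegI a b h h') {G : Set V}
    (hG : IsOpen G) (hin : ∀ x ∈ Ls a b, x 0 ∈ Icc a' b' → Ψ (i34 x) ∈ G) :
    Mc A G (Ls a b) (fun x => Ψ (h x)) fun x => Ψ (h' x) := by
  obtain ⟨j, hj⟩ : ∃ j : ℝ → E3 → E4, j = fun t x => (1 - t) • h x + t • h' x := ⟨_, rfl⟩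
  have sj : ContDiff ℝ ∞ fun p : ℝ × E3 => j p.1 p.2 := by
    rw [hj]
    exact ((contDiff_const.sub contDiff_fst).smul (h1.smooth.comp contDiff_snd)).add
      (contDiff_fst.smul (h2.smooth.comp contDiff_snd))
  have je : ∀ t x, h x = h' x → j t x = h x := fun t x e => by
    simp only [hj, ← e, ← add_smul, sub_add_cancel, one_smul]
  have jon : ∀ t, ∀ x ∈ Ls a b, j t x = i34 x := fun t x hx => by
    rw [je t x ((h1.on x hx).trans (h2.on x hx).symm), h1.on x hx]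
  have j0 : ∀ x, j 0 x = h x := fun x => by simp [hj]
  have j1 : ∀ x, j 1 x = h' x := fun x => by simp [hj]
  obtain ⟨hF, hM⟩ := hΨ.fam (Ls_compact a b) sj (fun t _ x hx => ⟨x, hx, (jon t x hx).symm⟩)
    (fun t _ x hx y hy e => by
      rw [jon t x hx, jon t y hy] at e
      exact congrArg Prod.fst e)
    (fun t ht x hx => by
      have d1 := ((h1.smooth.differentiable (by simp)) x).hasFDerivAt
      have d2 := ((h2.smooth.differentiable (by simp)) x).hasFDerivAt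
      have d3 : HasFDerivAt (j t) ((1 - t) • fderiv ℝ h x + t • fderiv ℝ h' x) x := by
        rw [hj]
        exact (d1.const_smul (1 - t)).add (d2.const_smul t)
      rw [d3.fderiv]
      exact h3 t ht x hx)
  have c0 : Continuous fun x : E3 => x 0 := continuous_apply 0
  have hO : ∀ᶠ x in 𝓝ˢ (Ls a b), (x 0 ∈ Ioo a' b' ∨ h x = h' x) ∧
      (x 0 ∉ Icc a' b' ∨ ∀ t ∈ Icc (0 : ℝ) 1, Ψ (j t x) ∈ G) := by
    refine eventually_nhdsSet_iff_forall.2 fun x hx => Eventually.and ?_ ?_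
    · by_cases k : x 0 ∈ Ioo a' b'
      · exact ((isOpen_Ioo.preimage c0).eventually_mem k).mono fun y hy => Or.inl hy
      · filter_upwards [h1.near x hx k, h2.near x hx k] with y e1 e2
        exact Or.inr (e1.trans e2.symm)
    · by_cases k : x 0 ∈ Icc a' b'
      · refine (isCompact_Icc.eventually_forall_of_forall_eventually
          (P := fun (y : E3) (t : ℝ) => Ψ (j t y) ∈ G) fun t _ => ?_).mono fun y hy => Or.inr hy
        have c1 : Continuous fun z : E3 × ℝ => Ψ (j z.2 z.1) :=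
          hΨ.smooth.continuous.comp (sj.continuous.comp continuous_swap)
        refine c1.continuousAt.eventually_mem (hG.mem_nhds ?_)
        rw [jon t x hx]
        exact hin x hx k
      · exact ((isClosed_Icc.preimage c0).isOpen_compl.eventually_mem k).mono
          fun y hy => Or.inl hy
  obtain ⟨K', hK', hKK, hKO, hF'⟩ := hF.nhd (Ls_compact a b) hM hO
  obtain ⟨ξ, C, hC, hCG, f1, f2⟩ := IE hK' (isClosed_Icc.preimage c0 : IsClosed {x : E3 | x 0 ∈ Icc a' b'})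
    hF' hG
    (fun x hx hx₁ t _ => by
      have e := (hKO hx).1.resolve_left fun k => hx₁ (Ioo_subset_Icc_self k)
      rw [je t x e, je 0 x e])
    fun t ht x hx hx₁ => (hKO hx).2.resolve_left (fun k => k hx₁) t ht
  have o : (1 : ℝ) ∈ Icc (0 : ℝ) 1 := ⟨zero_le_one, le_rfl⟩
  refine ⟨ξ, C, hC, hCG, fun y hy => by rw [← ξ.one, f1 1 o y hy], ?_⟩
  filter_upwards [isOpen_interior.mem_nhdsSet.2 hKK] with x hx
  have := f2 1 o x (interior_subset hx)
  rwa [j0, j1, ξ.one] at this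

end Pool.Agent.Work.MP_7ba843_gt.C
end
end
end

-- merged part: Pool.Agent.Work.MP_7ba843_gt.C.Comb
section
-- merged part: Pool.Agent.Work.MP_7ba843_gt.C.Stief
section
/-! Two injective linear maps from three-space to four-space are joined by two segments.

PLAN. Write `C` through its columns `c : Fin 3 → E4` (`C v = ∑ i, v i • c i`). If
`((1 - t) • B + t • C) v = 0` with `v ≠ 0` then `t ≠ 0`, some `v i ≠ 0`, and after scaling
`v i = 1`, `c i = -μ • B v - ∑ j ≠ i, v j • c j` with `μ = (1 - t) / t`. So `c` lies in the range of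
a polynomial map on `ℝ × (Fin 2 → ℝ) × (Fin 2 → E4)` (dimension 11) into `Fin 3 → E4` (dimension
12); use `Fin.insertNth` or treat `i = 0, 1, 2` by hand. Six such ranges (`B` or `B'`, three `i`);
`small_image`, `dense_of_small`. About 120 lines. -/

set_option linter.unusedSectionVars false
set_option linter.unusedVariables false

open Set Filter Topology Function
open scoped ContDiff

noncomputable section
namespace Pool.Agent.Work.MP_7ba843_gt.C

open Pool.Agent.Work.MP_bf98aa_gt.Ns (Dif)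

variable {V E F : Type} [NormedAddCommGroup V] [NormedSpace ℝ V] [FiniteDimensional ℝ V]
  [NormedAddCommGroup E] [NormedSpace ℝ E] [FiniteDimensional ℝ E]
  [NormedAddCommGroup F] [NormedSpace ℝ F] [FiniteDimensional ℝ F] {A : Amb V}

/-- The parametrisation of the bad columns. -/
def Stief_G (b : Fin 3 → E4) (i : Fin 3) (p : ℝ × (Fin 2 → ℝ) × (Fin 2 → E4)) : Fin 3 → E4 :=
  Fin.insertNth (α := fun _ => E4) i
    (-(p.1 • (b i + ∑ j, p.2.1 j • b (i.succAbove j))) - ∑ j, p.2.1 j • p.2.2 j) p.2.2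

theorem Stief_smooth (b : Fin 3 → E4) (i : Fin 3) : ContDiff ℝ ∞ (Stief_G b i) := by
  refine contDiff_pi.2 ((Fin.forall_iff_succAbove i).2 ⟨?_, fun j => ?_⟩)
  · simp only [Stief_G, Fin.insertNth_apply_same, Fin.sum_univ_two]
    fun_prop
  · simp only [Stief_G, Fin.insertNth_apply_succAbove]
    fun_prop

theorem Stief_small (b : Fin 3 → E4) (i : Fin 3) :
    dimH (Stief_G b i '' univ) < Module.finrank ℝ (Fin 3 → E4) :=
  small_image isOpen_univ (Stief_smooth b i).contDiffOn (by simp [Module.finrank_pi_fintype])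

theorem Stief_inj {B : E3 →L[ℝ] E4} (h : Injective B) {c : Fin 3 → E4}
    (hc : ∀ i, c ∉ Stief_G (fun k => B (Pi.single k 1)) i '' univ) {t : ℝ} :
    Injective ((1 - t) • B +
      t • ∑ k, (ContinuousLinearMap.proj k : E3 →L[ℝ] ℝ).smulRight (c k)) := by
  refine (injective_iff_map_eq_zero _).2 fun v hv => by_contra fun hn => ?_
  obtain ⟨i, hi⟩ := Function.ne_iff.1 hn
  have hB : B v = ∑ k, v k • B (Pi.single k 1) := by
    conv_lhs => rw [← Finset.univ_sum_single v]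
    rw [map_sum]
    refine Finset.sum_congr rfl fun k _ => ?_
    rw [← map_smul, ← Pi.single_smul', smul_eq_mul, mul_one]
  simp only [ContinuousLinearMap.add_apply, ContinuousLinearMap.smul_apply,
    ContinuousLinearMap.sum_apply, ContinuousLinearMap.smulRight_apply,
    ContinuousLinearMap.proj_apply] at hv
  have ht : t ≠ 0 := by
    rintro rfl
    rw [sub_zero, one_smul, zero_smul, add_zero] at hv
    exact hn (h (hv.trans (map_zero B).symm))
  have hi' : v i ≠ 0 := hi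
  obtain ⟨μ, hμ⟩ : ∃ μ, 1 - t = μ * t := ⟨(1 - t) / t, by field_simp⟩
  obtain ⟨w, hw⟩ : ∃ w : Fin 2 → ℝ, ∀ j, v (i.succAbove j) = w j * v i :=
    ⟨fun j => v (i.succAbove j) / v i, fun j => by field_simp⟩
  refine hc i ⟨(μ, w, fun j => c (i.succAbove j)), trivial, Fin.insertNth_eq_iff.2 ⟨?_, rfl⟩⟩
  rw [hB, Fin.sum_univ_succAbove _ i, Fin.sum_univ_succAbove _ i, hμ] at hv
  simp only [hw, Fin.sum_univ_two] at hv ⊢
  refine smul_right_injective _ (mul_ne_zero ht hi') ?_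
  linear_combination (norm := module) (-1 : ℝ) • hv

theorem stief {B B' : E3 →L[ℝ] E4} (h : Injective B) (h' : Injective B') :
    ∃ C : E3 →L[ℝ] E4, ∀ t ∈ Icc (0 : ℝ) 1,
      Injective ((1 - t) • B + t • C) ∧ Injective ((1 - t) • B' + t • C) := by
  obtain ⟨c, hc⟩ := (dense_of_small (B := fun q : Bool × Fin 3 =>
    Stief_G (fun k => (if q.1 then B else B') (Pi.single k 1)) q.2 '' univ)
    fun q => Stief_small _ _).nonempty
  simp only [mem_compl_iff, mem_iUnion, not_exists] at hc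
  exact ⟨_, fun t _ => ⟨Stief_inj h fun i => hc (true, i), Stief_inj h' fun i => hc (false, i)⟩⟩

end Pool.Agent.Work.MP_7ba843_gt.C
end
end

-- merged part: Pool.Agent.Work.MP_7ba843_gt.C.Germ
section
/-! Two embeddings with the same value at a point can be made to agree near the point.

PLAN. Take a chart at `y = Φ p`. `χ` is an embedding along `univ` (`Germ_chart`: differentiate
`ρ (χ a) = a`). By `ext_smooth` there is a smooth `h` equal to `ρ ∘ Φ` near `p`, so `χ ∘ h = Φ`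
near `p` and the derivative of `h` at `p` is injective. `Germ_seg`: if `h, h'` are smooth,
`h p = h' p` and the segment between their derivatives at `p` consists of injective maps, then
`Mv A {χ (h p)} {p} (χ ∘ h) (χ ∘ h')`, by `Emb.fam` and `Mv.of_fam` for
`j t x = (1 - t) • h x + t • h' x`. Apply it to `h` and the affine map `x ↦ h p + C (x - p)` with
`C` from `stief`, and likewise for `Φ'`. About 130 lines. -/

set_option linter.unusedSectionVars false
set_option linter.unusedVariables false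

open Set Filter Topology Function
open scoped ContDiff

noncomputable section
namespace Pool.Agent.Work.MP_7ba843_gt.C

open Pool.Agent.Work.MP_bf98aa_gt.Ns (Dif)

variable {V E F : Type} [NormedAddCommGroup V] [NormedSpace ℝ V] [FiniteDimensional ℝ V]
  [NormedAddCommGroup E] [NormedSpace ℝ E] [FiniteDimensional ℝ E]
  [NormedAddCommGroup F] [NormedSpace ℝ F] [FiniteDimensional ℝ F] {A : Amb V}

/-- the parametrisation of a chart is an embedding -/
theorem Germ_chart {y : V} (c : Chart A.M y) : Emb A univ c.χ := by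
  refine ⟨c.sχ, Eventually.of_forall fun a => (c.χ_mem a).1,
    fun a _ b _ e => by rw [← c.ρχ a, e, c.ρχ], fun a _ => ?_⟩
  have h1 := ((c.sρ.contDiffAt (c.isOpen.mem_nhds (c.χ_mem a).2)).differentiableAt
    (by simp)).hasFDerivAt.comp a (c.sχ.differentiable (by simp) a).hasFDerivAt
  have h2 : c.ρ ∘ c.χ = id := funext c.ρχ
  rw [h2] at h1
  exact LeftInverse.injective (g := fderiv ℝ c.ρ (c.χ a)) fun w =>
    congrArg (fun L : E4 →L[ℝ] E4 => L w) (h1.unique (hasFDerivAt_id a))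

/-- an embedding read in a chart -/
theorem Germ_lift {p : E3} {Φ : E3 → V} (h : Emb A {p} Φ) {y : V} (c : Chart A.M y)
    (e : Φ p = y) : ∃ g : E3 → E4, ContDiff ℝ ∞ g ∧ g p = c.ρ y ∧ Injective (fderiv ℝ g p) ∧
      ∀ᶠ x in 𝓝ˢ {p}, Φ x = c.χ (g x) := by
  have hO : IsOpen (Φ ⁻¹' c.W) := c.isOpen.preimage h.smooth.continuous
  have hp : {p} ⊆ Φ ⁻¹' c.W := singleton_subset_iff.2 (show Φ p ∈ c.W from e ▸ c.mem)
  obtain ⟨g, g1, g2⟩ := ext_smooth (f := fun x => c.ρ (Φ x)) isCompact_singleton hO hp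
    (c.sρ.comp h.smooth.contDiffOn fun _ hx => hx)
  have g3 : ∀ᶠ x in 𝓝ˢ {p}, Φ x = c.χ (g x) := by
    filter_upwards [g2, h.maps, hO.mem_nhdsSet.2 hp] with x h1 h2 h3
    rw [h1, c.χρ _ ⟨h2, h3⟩]
  refine ⟨g, g1, by rw [g2.self_of_nhdsSet p rfl, e], ?_, g3⟩
  rw [nhdsSet_singleton] at g3
  have h1 := (c.sχ.differentiable (by simp) (g p)).hasFDerivAt.comp p
    (g1.differentiable (by simp) p).hasFDerivAt
  have h2 := h.imm p rfl
  rw [(h1.congr_of_eventuallyEq g3).fderiv] at h2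
  exact Injective.of_comp h2

/-- the straight homotopy in a chart -/
theorem Germ_seg {χ : E4 → V} (hχ : Emb A univ χ) {p : E3} {g g' : E3 → E4} (hg : ContDiff ℝ ∞ g)
    (hg' : ContDiff ℝ ∞ g') (e : g' p = g p)
    (hi : ∀ t ∈ Icc (0 : ℝ) 1, Injective ((1 - t) • fderiv ℝ g p + t • fderiv ℝ g' p)) :
    Mv A {χ (g p)} {p} (fun x => χ (g x)) fun x => χ (g' x) := by
  obtain ⟨h1, h2⟩ := hχ.fam (K' := {p}) isCompact_singleton
    (j := fun t x => (1 - t) • g x + t • g' x)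
    (((contDiff_const.sub contDiff_fst).smul (hg.comp contDiff_snd)).add
      (contDiff_fst.smul (hg'.comp contDiff_snd)))
    (fun _ _ => mapsTo_univ _ _) (fun _ _ => subsingleton_singleton.injOn _) (by
      rintro t ht x rfl
      rw [(((hg.differentiable (by simp) x).hasFDerivAt.fun_const_smul (1 - t)).fun_add
        ((hg'.differentiable (by simp) x).hasFDerivAt.fun_const_smul t)).fderiv]
      exact hi t ht)
  have h3 := Mv.of_fam isCompact_singleton h1 h2 (mem_singleton p) fun t _ => by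
    simp only [e, ← add_smul, sub_add_cancel]
  simpa only [sub_zero, one_smul, zero_smul, add_zero, sub_self, zero_add] using h3

theorem germ {p : E3} {Φ Φ' : E3 → V} (h : Emb A {p} Φ) (h' : Emb A {p} Φ') (e : Φ p = Φ' p) :
    Mv A {Φ p} {p} Φ Φ' := by
  have hy := h.mem (mem_singleton p)
  obtain ⟨c⟩ := A.chart _ hy
  obtain ⟨g, g1, g2, g3, g4⟩ := Germ_lift h c rfl
  obtain ⟨g', g1', g2', g3', g4'⟩ := Germ_lift h' c e.symm
  obtain ⟨C, hC⟩ := stief g3 g3'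
  have k1 : ContDiff ℝ ∞ fun x => c.ρ (Φ p) + C (x - p) :=
    contDiff_const.add (C.contDiff.comp (contDiff_id.sub contDiff_const))
  have k2 : fderiv ℝ (fun x => c.ρ (Φ p) + C (x - p)) p = C := by
    simpa using ((C.hasFDerivAt.comp p ((hasFDerivAt_id p).sub_const p)).const_add
      (c.ρ (Φ p))).fderiv
  have m1 := Germ_seg (p := p) (Germ_chart c) g1 k1 (by simp [g2]) fun t ht => by
    rw [k2]; exact (hC t ht).1
  have m2 := Germ_seg (p := p) (Germ_chart c) g1' k1 (by simp [g2']) fun t ht => by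
    rw [k2]; exact (hC t ht).2
  rw [g2, c.χρ _ ⟨hy, c.mem⟩] at m1
  rw [g2', c.χρ _ ⟨hy, c.mem⟩] at m2
  exact ((Mv.of_eq g4).trans m1).trans (m2.symm.trans (Mv.of_eq g4').symm)

end Pool.Agent.Work.MP_7ba843_gt.C
end
end

-- merged part: Pool.Agent.Work.MP_7ba843_gt.C.Comb
section
/-! From the base point to the whole comb.

PLAN. `Comb_scale`: for positive `l, μ ≤ 1` let `j l μ x = ![1 + l * (x 0 - 1), 1 + μ * (x 1 - 1),
1 + l * (x 2 - 1)]`, an injective affine map that fixes `p0`. First family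
`j 1 (1 - 9 t / 10)`, which maps `Cb g` into itself; second family
`j (1 - t (1 - δ)) ((1 - t (1 - δ)) / 10)`, which maps `Cb g` into the part `x 1 ≤ 3 / 2` of
`Cb g`. `Emb.fam` and `Mv.of_fam` give `Mv A {Φ p0} (Cb g) Φ (Φ ∘ j δ (δ / 10))`, also for `Φ'`.
For small `δ` the map `j δ (δ / 10)` sends the bounded set `Cb g` into the neighbourhood of `p0`
given by `germ`; use `Mv.trans`, `Mv.symm` and the isotopy of `germ` directly. About 150 lines. -/

set_option linter.unusedSectionVars false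
set_option linter.unusedVariables false

open Set Filter Topology Function
open scoped ContDiff

noncomputable section
namespace Pool.Agent.Work.MP_7ba843_gt.C

open Pool.Agent.Work.MP_bf98aa_gt.Ns (Dif)
open Pool.Agent.Work.MP_735653_gt Pool.Agent.Work.MP_7ba843_gt.N

variable {V E F : Type} [NormedAddCommGroup V] [NormedSpace ℝ V] [FiniteDimensional ℝ V]
  [NormedAddCommGroup E] [NormedSpace ℝ E] [FiniteDimensional ℝ E]
  [NormedAddCommGroup F] [NormedSpace ℝ F] [FiniteDimensional ℝ F] {A : Amb V}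

/-- the diagonal contraction -/
def Comb_j (l μ : ℝ) (x : E3) : E3 := fun i => 1 + ![l, μ, l] i * (x i - 1)

theorem Comb_p0 (l μ : ℝ) : Comb_j l μ p0 = p0 := by
  funext i
  fin_cases i <;> simp [Comb_j, p0]

theorem Comb_one (x : E3) : Comb_j 1 1 x = x := by
  funext i
  fin_cases i <;> simp [Comb_j]

theorem Comb_smooth {l μ : ℝ → ℝ} (hl : ContDiff ℝ ∞ l) (hμ : ContDiff ℝ ∞ μ) :
    ContDiff ℝ ∞ fun p : ℝ × E3 => Comb_j (l p.1) (μ p.1) p.2 := by
  refine contDiff_pi.2 fun i => contDiff_const.add (ContDiff.mul ?_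
    (((contDiff_apply ℝ ℝ i).comp contDiff_snd).sub contDiff_const))
  fin_cases i
  exacts [hl.comp contDiff_fst, hμ.comp contDiff_fst, hl.comp contDiff_fst]

theorem Comb_ne {l μ : ℝ} (hl : l ≠ 0) (hμ : μ ≠ 0) (i : Fin 3) : (![l, μ, l] : E3) i ≠ 0 := by
  fin_cases i
  exacts [hl, hμ, hl]

theorem Comb_inj {l μ : ℝ} (hl : l ≠ 0) (hμ : μ ≠ 0) : Injective (Comb_j l μ) := fun x y h =>
  funext fun i => sub_left_injective
    (mul_left_cancel₀ (Comb_ne hl hμ i) (add_left_cancel (congrFun h i)))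

theorem Comb_imm {l μ : ℝ} (hl : l ≠ 0) (hμ : μ ≠ 0) (x : E3) :
    Injective (fderiv ℝ (Comb_j l μ) x) := by
  have h : HasFDerivAt (Comb_j l μ) (ContinuousLinearMap.pi fun i =>
      (![l, μ, l] : E3) i • ContinuousLinearMap.proj (R := ℝ) (φ := fun _ : Fin 3 => ℝ) i) x :=
    hasFDerivAt_pi.2 fun i =>
      ((((hasFDerivAt_apply i x).sub_const 1).const_mul _).const_add 1)
  rw [h.fderiv]
  intro v w e
  exact funext fun i => mul_left_cancel₀ (Comb_ne hl hμ i) (congrFun e i)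

theorem Comb_mem {g : ℕ} {l μ : ℝ} (l0 : 0 ≤ l) (l1 : l ≤ 1) (m0 : 0 ≤ μ) (m1 : μ ≤ 1)
    (h : l = 1 ∨ μ ≤ 1 / 10) {x : E3} (hx : x ∈ Cb g) : Comb_j l μ x ∈ Cb g := by
  obtain ⟨h1, h2, h3, h4, h5, h6⟩ := hx
  have g0 : (0 : ℝ) ≤ g := Nat.cast_nonneg g
  have e0 : Comb_j l μ x 0 = 1 + l * (x 0 - 1) := rfl
  have e1 : Comb_j l μ x 1 = 1 + μ * (x 1 - 1) := rfl
  have e2 : Comb_j l μ x 2 = 1 + l * (x 2 - 1) := rfl
  rw [abs_le] at h1
  refine ⟨?_, ?_, ?_, ?_, ?_, ?_⟩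
  · rw [e2, abs_le]
    constructor <;> linarith only [l1, l0, h1, h1.1, h1.2, mul_nonneg_of_nonpos_of_nonpos (Mathlib.Tactic.Linarith.sub_nonpos_of_le l0) (Mathlib.Tactic.Linarith.sub_nonpos_of_le h1.left), mul_nonneg_of_nonpos_of_nonpos (Mathlib.Tactic.Linarith.sub_nonpos_of_le l0) (Mathlib.Tactic.Linarith.sub_nonpos_of_le h1.right)]
  · rw [e1]; linarith only [m1, m0, h2, mul_nonneg_of_nonpos_of_nonpos (Mathlib.Tactic.Linarith.sub_nonpos_of_le m0) (Mathlib.Tactic.Linarith.sub_nonpos_of_le h2)]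
  · rw [e1]; linarith only [m1, m0, h3, mul_nonneg_of_nonpos_of_nonpos (Mathlib.Tactic.Linarith.sub_nonpos_of_le m0) (Mathlib.Tactic.Linarith.sub_nonpos_of_le h3)]
  · rw [e0]; linarith only [l1, l0, h4, mul_nonneg_of_nonpos_of_nonpos (Mathlib.Tactic.Linarith.sub_nonpos_of_le l0) (Mathlib.Tactic.Linarith.sub_nonpos_of_le h4)]
  · rw [e0]; linarith only [l1, l0, h5, mul_nonneg_of_nonpos_of_nonpos (Mathlib.Tactic.Linarith.sub_nonpos_of_le (Mathlib.Tactic.Linarith.natCast_nonneg ℝ g)) (Mathlib.Tactic.Linarith.sub_nonpos_of_le l1), mul_nonneg_of_nonpos_of_nonpos (Mathlib.Tactic.Linarith.sub_nonpos_of_le l0) (Mathlib.Tactic.Linarith.sub_nonpos_of_le h5)]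
  · rw [e0, e1]
    rcases h with rfl | h
    · rcases h6 with h6 | ⟨i, h6⟩
      · left; linarith only [m1, m0, h6, mul_nonneg_of_nonpos_of_nonpos (Mathlib.Tactic.Linarith.sub_nonpos_of_le m0) (Mathlib.Tactic.Linarith.sub_nonpos_of_le h6)]
      · exact Or.inr ⟨i, by rwa [one_mul, add_sub_cancel]⟩
    · left; linarith only [h, m0, h3, mul_nonneg_of_nonpos_of_nonpos (Mathlib.Tactic.Linarith.sub_nonpos_of_le m0) (Mathlib.Tactic.Linarith.sub_nonpos_of_le h3)]

theorem Comb_mv {g : ℕ} {Φ : E3 → V} (h : Emb A (Cb g) Φ) {l μ : ℝ → ℝ} (hl : ContDiff ℝ ∞ l)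
    (hμ : ContDiff ℝ ∞ μ) (h1 : ∀ t ∈ Icc (0 : ℝ) 1, 0 < l t ∧ l t ≤ 1 ∧ 0 < μ t ∧ μ t ≤ 1 ∧
      (l t = 1 ∨ μ t ≤ 1 / 10)) : Mv A {Φ p0} (Cb g) (fun x => Φ (Comb_j (l 0) (μ 0) x))
        fun x => Φ (Comb_j (l 1) (μ 1) x) := by
  obtain ⟨k1, k2⟩ := h.fam (Cb_compact g) (j := fun t => Comb_j (l t) (μ t)) (Comb_smooth hl hμ)
    (fun t ht x hx => Comb_mem (h1 t ht).1.le (h1 t ht).2.1 (h1 t ht).2.2.1.le (h1 t ht).2.2.2.1
      (h1 t ht).2.2.2.2 hx)
    (fun t ht => (Comb_inj (h1 t ht).1.ne' (h1 t ht).2.2.1.ne').injOn)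
    fun t ht x _ => Comb_imm (h1 t ht).1.ne' (h1 t ht).2.2.1.ne' x
  have := Mv.of_fam (Cb_compact g) k1 k2 (interior_subset (tree_sub g (p0_mem g)))
    fun t _ => by simp only [Comb_p0]
  simpa only [Comb_p0] using this

theorem Comb_small {g : ℕ} {Φ : E3 → V} (h : Emb A (Cb g) Φ) {δ : ℝ} (h0 : 0 < δ) (h1 : δ ≤ 1) :
    Mv A {Φ p0} (Cb g) Φ fun x => Φ (Comb_j δ (δ / 10) x) := by
  have a := Comb_mv h (l := fun _ => 1) (μ := fun t => 1 - 9 / 10 * t) contDiff_const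
    (by fun_prop) fun t ht => ⟨one_pos, le_rfl, by linarith only [ht, ht.2], by linarith only [ht, ht.1], .inl rfl⟩
  have b := Comb_mv h (l := fun t => 1 - t * (1 - δ)) (μ := fun t => (1 - t * (1 - δ)) / 10)
    (by fun_prop) (by fun_prop) fun t ht => by
      have k1 : 0 ≤ t * (1 - δ) := mul_nonneg ht.1 (by linarith)
      have k2 : t * (1 - δ) ≤ 1 - δ := mul_le_of_le_one_left (by linarith) ht.2
      exact ⟨by linarith, by linarith, by linarith only [h0, k2], by linarith only [k1], .inr (by linarith only [k1])⟩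
  norm_num [Comb_one] at a b
  exact a.trans b

theorem comb {g : ℕ} {Φ Φ' : E3 → V} (h : Emb A (Cb g) Φ) (h' : Emb A (Cb g) Φ')
    (e : Φ p0 = Φ' p0) : Mv A {Φ p0} (Cb g) Φ Φ' := by
  have hp : {p0} ⊆ Cb g := singleton_subset_iff.2 (interior_subset (tree_sub g (p0_mem g)))
  obtain ⟨ξ, k1, k2⟩ := germ (h.mono hp) (h'.mono hp) e
  rw [nhdsSet_singleton] at k2
  obtain ⟨O, o1, o2, o3⟩ := eventually_nhds_iff.1 k2
  have c : Continuous fun p : ℝ × E3 => Comb_j p.1 (p.1 / 10) p.2 :=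
    (Comb_smooth (l := fun t => t) (μ := fun t => t / 10) contDiff_id (by fun_prop)).continuous
  have ev : ∀ᶠ δ in 𝓝 (0 : ℝ), ∀ x ∈ Cb g, Comb_j δ (δ / 10) x ∈ O :=
    (Cb_compact g).eventually_forall_of_forall_eventually fun x _ =>
      c.continuousAt.preimage_mem_nhds (o2.mem_nhds (by
        have : Comb_j 0 (0 / 10) x = p0 := by
          funext i
          fin_cases i <;> simp [Comb_j, p0]
        exact this ▸ o3))
  obtain ⟨δ, d1, d2, d3⟩ := ((ev.filter_mono nhdsWithin_le_nhds).and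
    (Ioc_mem_nhdsGT (zero_lt_one' ℝ))).exists
  have m : Mv A {Φ p0} (Cb g) (fun x => Φ (Comb_j δ (δ / 10) x))
      fun x => Φ' (Comb_j δ (δ / 10) x) :=
    ⟨ξ, k1, mem_of_superset ((o2.preimage (c.comp (Continuous.prodMk_right δ))).mem_nhdsSet.2 d1)
      fun x hx => o1 _ hx⟩
  exact ((Comb_small h d2 d3).trans m).trans (e ▸ (Comb_small h' d2 d3).symm)

end Pool.Agent.Work.MP_7ba843_gt.C
end
end
end
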