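import Pool.Agent.Work.MP_7ba843_gt.N.Defs

/-! Definitions used in the final statement: the counterexamples and the criterion for cores of
trisections. -/

open Set Topology
open scoped Manifold ContDiff

namespace Pool.Agent.Work.MP_7ba843_gt.S

open Pool.Agent.Work.MP_7ba843_gt Pool.Agent.Work.MP_7ba843_gt.N

/-- There is a closed connected oriented smooth 4-manifold `X` with Euler characteristic `0` and
fundamental group generated by two elements which contains, for every genus `3 ≤ g ≤ N`, a smoothly
embedded surface `S` of genus `g`, the boundary of the smoothly embedded handlebody `Φ {0 ≤ F}`,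
that carries the fundamental group of `X` and is not the core of any trisection of `X`. -/
def NotCores (N : ℕ) : Prop :=
    ∃ (X : Type) (_ : TopologicalSpace X) (_ : ChartedSpace (EuclideanSpace ℝ (Fin 4)) X),
      IsManifold (𝓡 4) ∞ X ∧ T2Space X ∧ CompactSpace X ∧ ConnectedSpace X ∧
      OrientedAtlas X ∧ HasEulerChar X 0 ∧
      (∀ x : X, ∃ a b : FundamentalGroup X x, Subgroup.closure {a, b} = ⊤) ∧
      ∀ g : ℕ, 3 ≤ g → g ≤ N →
        ∃ (F : (Fin 3 → ℝ) → ℝ) (O : TopologicalSpace.Opens (Fin 3 → ℝ)) (Φ : O → X) (S : Set X),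
          ContDiff ℝ ∞ F ∧ (∀ x, F x = 0 → fderiv ℝ F x ≠ 0) ∧ {x | 0 ≤ F x} ⊆ O ∧
          Nonempty ({x | 0 ≤ F x} ≃ₜ Th 1 g) ∧
          Manifold.IsSmoothEmbedding 𝓘(ℝ, Fin 3 → ℝ) (𝓡 4) ∞ Φ ∧
          S = Φ '' {x | F x.1 = 0} ∧
          (∀ x : S, Function.Surjective
            (FundamentalGroup.map (⟨Subtype.val, continuous_subtype_val⟩ : C(S, X)) x)) ∧
          ¬ ∃ T : Fin 3 → Set X, Trisection g S T

/-- The group `G` is generated by `n` elements. -/
def Gens (G : Type) [Group G] (n : ℕ) : Prop :=
  ∃ s : Fin n → G, Subgroup.closure (range s) = ⊤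

section Pi

variable {D X : Type} [TopologicalSpace D] [TopologicalSpace X]

/-- The maps induced by `f` and `f'` on fundamental groups agree up to an automorphism of the
fundamental group of the source and a change of base point along a path in the target. -/
def PiEquiv (f f' : C(D, X)) : Prop :=
  ∃ (x : D) (γ : Path (f x) (f' x)) (α : FundamentalGroup D x ≃* FundamentalGroup D x),
    ∀ a, FundamentalGroup.fundamentalGroupMulEquivOfPath γ (FundamentalGroup.map f x a) =
      FundamentalGroup.map f' x (α a)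

/-- The map induced by `f` on fundamental groups is a composite of two surjections through the
free group of rank `r`. -/
def PiFact (f : C(D, X)) (r : ℕ) : Prop :=
  ∃ (x : D) (p : FundamentalGroup D x →* FreeGroup (Fin r))
    (q : FreeGroup (Fin r) →* FundamentalGroup X (f x)),
    Function.Surjective p ∧ Function.Surjective q ∧ q.comp p = FundamentalGroup.map f x

end Pi

variable {E : Type} [NormedAddCommGroup E] [NormedSpace ℝ E]
  (V : Type) [NormedAddCommGroup V] [NormedSpace ℝ V]

/-- The map `f` from the subset `N` of `E` to the manifold `X` modelled on `V` is a smooth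
embedding: it extends to an injective immersion of an open neighbourhood of `N`. -/
def SmEmb {X : Type} [TopologicalSpace X] [ChartedSpace V X] {N : Set E} (f : C(N, X)) : Prop :=
  ∃ (O : Set E) (Φ : E → X), IsOpen O ∧ N ⊆ O ∧ ContMDiffOn 𝓘(ℝ, E) 𝓘(ℝ, V) ∞ Φ O ∧ InjOn Φ O ∧
    (∀ x ∈ O, Function.Injective (mfderiv 𝓘(ℝ, E) 𝓘(ℝ, V) Φ x)) ∧ ∀ x : N, Φ x = f x

/-- The criterion, for the model `{0 ≤ F}` of the handlebody of genus `g` and closed connected
smooth manifolds `X` modelled on `V`. Let `T` be a trisection of `X` whose handlebody `T 0 ∩ T 1`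
is the image of the smooth embedding `f₀` and whose core is the image of `{F = 0}`.
(A) If the smooth embedding `f` has an equivalent map on fundamental groups, a diffeomorphism `ψ`
of `X` carries the handlebody to the image of `f`, and `T` to a trisection with core `f {F = 0}`.
(B) Let the fundamental group of `X` have `r` generators and let `b` be the first Betti number.
If `T 0` has genus at most `g - r`, or `2 r + b ≤ g + 1`, or `b = 0` and `r` is least, then the
cores of the images of `T` under diffeomorphisms are exactly the boundaries of the smoothly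
embedded handlebodies whose map on fundamental groups is a composite of surjections through the
free group of rank `r`. -/
def Crit (F : E → ℝ) (g : ℕ) : Prop :=
  ∀ (X : Type) [TopologicalSpace X] [ChartedSpace V X] [IsManifold 𝓘(ℝ, V) ∞ X] [T2Space X]
    [CompactSpace X] [ConnectedSpace X] (f₀ : C({x | 0 ≤ F x}, X)) (T : Fin 3 → Set X),
    SmEmb V f₀ → Trisection g (f₀ '' {x | F x = 0}) T → T 0 ∩ T 1 = range f₀ →
    (∀ f : C({x | 0 ≤ F x}, X), SmEmb V f → PiEquiv f₀ f →
      ∃ ψ : X ≃ₘ⟮𝓘(ℝ, V), 𝓘(ℝ, V)⟯ X, ψ '' range f₀ = range f ∧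
        Trisection g (f '' {x | F x = 0}) fun i => ψ '' T i) ∧
    ∀ (x : X) (r b : ℕ), Gens (FundamentalGroup X x) r →
      b = Module.finrank ℤ (Additive (FundamentalGroup X x) →+ ℤ) →
      (∃ k, Nonempty (T 0 ≃ₜ Th 2 k) ∧ r + k ≤ g) ∨ 2 * r + b ≤ g + 1 ∨
        (b = 0 ∧ ∀ n, Gens (FundamentalGroup X x) n → r ≤ n) →
      ∀ S : Set X, (∃ ψ : X ≃ₘ⟮𝓘(ℝ, V), 𝓘(ℝ, V)⟯ X, Trisection g S fun i => ψ '' T i) ↔
        ∃ f : C({x | 0 ≤ F x}, X), SmEmb V f ∧ f '' {x | F x = 0} = S ∧ PiFact f r

end Pool.Agent.Work.MP_7ba843_gt.S
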