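import Pool.Agent.Work.MP_7ba843_gt.C.Comb

-- merged part: Pool.Agent.Work.MP_7ba843_gt.C.Cx
section
/-! The eight collapses and the symmetries of the complexes.

PLAN. Unfold with `mem_cx`, `mem_gr3`, `Fin.forall_fin_succ`, `Gp, Tt, Tp` and the predicates; write
a cell as `![x, y, z]` (or name `a 0, a 1, a 2`), simplify `Function.update`, finish by `omega`. A
lemma `a ∈ cx g (PR g) ↔ PR g (a 0) (a 1) (a 2)` (the bounds are implied; for `PB` ... `PT` if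
`2 ≤ g`) for each predicate is useful. About 200 lines. -/

set_option linter.unusedSectionVars false
set_option linter.unusedVariables false

open Set Filter Topology Function
open scoped ContDiff

noncomputable section
namespace Pool.Agent.Work.MP_7ba843_gt.C

open Pool.Agent.Work.MP_bf98aa_gt.Ns (Dif)
open Pool.Agent.Work.MP_735653_gt Pool.Agent.Work.MP_7ba843_gt.N

variable {g : ℕ}

theorem Cx_mem {P Q : ℤ → ℤ → ℤ → Prop} (e : ∀ x y z, P x y z ↔ Q x y z) (h : ∀ x y z, Q x y z →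
    (-2 ≤ x ∧ x ≤ 4 * (g : ℤ) + 2) ∧ (-2 ≤ y ∧ y ≤ 4 * (g : ℤ) + 2) ∧ -2 ≤ z ∧ z ≤ 4 * (g : ℤ) + 2)
    (a : Cell 3) : a ∈ cx g P ↔ Q (a 0) (a 1) (a 2) := by
  rw [mem_cx, e]
  refine and_iff_right_of_imp fun e i => ?_
  obtain ⟨h0, h1, h2⟩ := h _ _ _ e
  fin_cases i
  exacts [h0, h1, h2]

theorem Cx_down {K : Finset (Cell 3)} {P : ℤ → ℤ → ℤ → Prop}
    (h : ∀ a : Cell 3, a ∈ K ↔ P (a 0) (a 1) (a 2))
    (h0 : ∀ x y z w, P x y z → x % 2 = 1 → w = x + 1 ∨ w = x - 1 → P w y z)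
    (h1 : ∀ x y z w, P x y z → y % 2 = 1 → w = y + 1 ∨ w = y - 1 → P x w z)
    (h2 : ∀ x y z w, P x y z → z % 2 = 1 → w = z + 1 ∨ w = z - 1 → P x y w) : Down K := by
  intro a ha b hb
  have e0 : P (b 0) (a 1) (a 2) :=
    (hb 0).elim (fun e => e.symm ▸ (h a).1 ha) fun e => h0 _ _ _ _ ((h a).1 ha) e.1 e.2
  have e1 : P (b 0) (b 1) (a 2) := (hb 1).elim (fun e => e.symm ▸ e0) fun e => h1 _ _ _ _ e0 e.1 e.2
  exact (h b).2 ((hb 2).elim (fun e => e.symm ▸ e1) fun e => h2 _ _ _ _ e1 e.1 e.2)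

/-- a predicate given on the three levels -/
def Cx_L (g : ℕ) (x y : ℤ) (A B C : Prop) : Prop :=
  (0 ≤ x ∧ x ≤ 4 * g + 2) ∧ ((y = 0 ∧ A) ∨ (y = 1 ∧ B) ∨ (y = 2 ∧ C))

theorem Cx_imp {x y : ℤ} {A B C Q : Prop} (h0 : 0 ≤ x → x ≤ 4 * g + 2 → y = 0 → A → Q)
    (h1 : 0 ≤ x → x ≤ 4 * g + 2 → y = 1 → B → Q) (h2 : 0 ≤ x → x ≤ 4 * g + 2 → y = 2 → C → Q) :
    Cx_L g x y A B C → Q := by
  rintro ⟨⟨a, b⟩, h | h | h⟩
  exacts [h0 a b h.1 h.2, h1 a b h.1 h.2, h2 a b h.1 h.2]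

theorem Cx_0 {x : ℤ} {A B C : Prop} : Cx_L g x 0 A B C ↔ (0 ≤ x ∧ x ≤ 4 * g + 2) ∧ A := by
  simp [Cx_L]

theorem Cx_1 {x : ℤ} {A B C : Prop} : Cx_L g x 1 A B C ↔ (0 ≤ x ∧ x ≤ 4 * g + 2) ∧ B := by
  simp [Cx_L]

theorem Cx_2 {x : ℤ} {A B C : Prop} : Cx_L g x 2 A B C ↔ (0 ≤ x ∧ x ≤ 4 * g + 2) ∧ C := by
  simp [Cx_L]

theorem Cx_3 {x y : ℤ} {A B C : Prop} (h : y < 0 ∨ 2 < y) : Cx_L g x y A B C ↔ False :=
  iff_false_intro (Cx_imp (fun _ _ _ _ => by omega) (fun _ _ _ _ => by omega) fun _ _ _ _ => by omega)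

theorem Cx_cases {P : ℤ → Prop} (h0 : P 0) (h1 : P 1) (h2 : P 2) (h3 : ∀ y, y < 0 ∨ 2 < y → P y)
    (y : ℤ) : P y := by
  obtain rfl | rfl | rfl | h : y = 0 ∨ y = 1 ∨ y = 2 ∨ (y < 0 ∨ 2 < y) := by omega
  exacts [h0, h1, h2, h3 y h]

/-- normal form -/
abbrev Cx_NG (g : ℕ) (x y z : ℤ) : Prop :=
  Cx_L g x y (z = 0) (z = 0 ∧ x % 2 = 0)
    (z = 0 ∧ x % 4 ≠ 1)

/-- normal form -/
abbrev Cx_N1 (g : ℕ) (x y z : ℤ) : Prop :=
  Cx_L g x y (0 ≤ z ∧ z ≤ 2) (z = 0 ∧ x % 2 = 0)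
    (z = 0 ∧ x % 4 ≠ 1)

/-- normal form -/
abbrev Cx_NR (g : ℕ) (x y z : ℤ) : Prop :=
  Cx_L g x y (-2 ≤ z ∧ z ≤ 2) (z = 0 ∧ x % 2 = 0)
    (z = 0 ∧ x % 4 ≠ 1)

/-- normal form -/
abbrev Cx_NA (g : ℕ) (x y z : ℤ) : Prop :=
  Cx_L g x y (-2 ≤ z ∧ z ≤ 2) (z = 0 ∧ x % 2 = 0 ∧ x ≠ 0)
    (z = 0 ∧ x % 4 ≠ 1 ∧ x ≠ 0)

/-- normal form -/
abbrev Cx_NB (g : ℕ) (x y z : ℤ) : Prop :=
  Cx_L g x y (-2 ≤ z ∧ z ≤ 2) (z = 0 ∧ (x % 2 = 0 ∨ x = 5) ∧ x ≠ 0)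
    (z = 0 ∧ (x % 4 ≠ 1 ∨ x = 5) ∧ x ≠ 0)

/-- normal form -/
abbrev Cx_NC (g : ℕ) (x y z : ℤ) : Prop :=
  Cx_L g x y (-2 ≤ z ∧ z ≤ 2) (z = 0 ∧ x % 2 = 0 ∧ x ≠ 0 ∧ x ≠ 6)
    (z = 0 ∧ (x % 4 ≠ 1 ∨ x = 5) ∧ x ≠ 0)

/-- normal form -/
abbrev Cx_ND (g : ℕ) (x y z : ℤ) : Prop :=
  Cx_L g x y (-2 ≤ z ∧ z ≤ 2) (z = 0 ∧ x % 2 = 0 ∧ x ≠ 0 ∧ x ≠ 6)
    (z = 0 ∧ (x % 4 ≠ 1 ∨ x ≤ 8))

/-- normal form -/
abbrev Cx_NE (g : ℕ) (x y z : ℤ) : Prop :=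
  Cx_L g x y (-2 ≤ z ∧ z ≤ 2) (z = 0 ∧ x % 2 = 0 ∧ x ≠ 0 ∧ x ≠ 6)
    ((z = 0 ∧ x % 4 ≠ 1) ∨ (x ≤ 8 ∧ 0 ≤ z ∧ z ≤ 2))

/-- normal form -/
abbrev Cx_NT (g : ℕ) (x y z : ℤ) : Prop :=
  Cx_L g x y (-2 ≤ z ∧ z ≤ 2) (z = 0 ∧ x % 2 = 0 ∧ x ≠ 0 ∧ x ≠ 6)
    ((z = 0 ∧ x % 4 ≠ 1) ∨ (x ≤ 8 ∧ -2 ≤ z ∧ z ≤ 2))

theorem Cx_memG (g : ℕ) (a : Cell 3) : a ∈ gr3 g ↔ Cx_NG g (a 0) (a 1) (a 2) := by
  simp only [mem_gr3, Gp, Tt, Tp, Cx_L]
  omega

theorem Cx_nf1 (g : ℕ) (x y z : ℤ) : P1 g x y z ↔ Cx_N1 g x y z := by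
  induction y using Cx_cases with
  | h3 y h =>
    simp only [Cx_3 h, iff_false, P1, Gp, Tt, Tp]
    omega
  | _ =>
    simp only [Cx_0, Cx_1, Cx_2]
    unfold P1 Gp Tt Tp
    omega

theorem Cx_mem1 (g : ℕ) : ∀ a : Cell 3, a ∈ cx g (P1 g) ↔ Cx_N1 g (a 0) (a 1) (a 2) :=
  Cx_mem (Cx_nf1 g) fun x y z => by
    refine Cx_imp ?_ ?_ ?_ <;> omega

theorem Cx_down1 (g : ℕ) : Down (cx g (P1 g)) := by
  refine Cx_down (Cx_mem1 g) ?_ ?_ ?_ <;> intro x y z w <;> refine Cx_imp ?_ ?_ ?_ <;>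
    rintro a b rfl c d (rfl | rfl) <;> unfold Cx_N1 Cx_L <;> omega

theorem Cx_nfR (g : ℕ) (x y z : ℤ) : PR g x y z ↔ Cx_NR g x y z := by
  induction y using Cx_cases with
  | h3 y h =>
    simp only [Cx_3 h, iff_false, PR, Gp, Tt, Tp]
    omega
  | _ =>
    simp only [Cx_0, Cx_1, Cx_2]
    unfold PR Gp Tt Tp
    omega

theorem Cx_memR (g : ℕ) : ∀ a : Cell 3, a ∈ cx g (PR g) ↔ Cx_NR g (a 0) (a 1) (a 2) :=
  Cx_mem (Cx_nfR g) fun x y z => by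
    refine Cx_imp ?_ ?_ ?_ <;> omega

theorem Cx_downR (g : ℕ) : Down (cx g (PR g)) := by
  refine Cx_down (Cx_memR g) ?_ ?_ ?_ <;> intro x y z w <;> refine Cx_imp ?_ ?_ ?_ <;>
    rintro a b rfl c d (rfl | rfl) <;> unfold Cx_NR Cx_L <;> omega

theorem Cx_nfA (g : ℕ) (x y z : ℤ) : PA g x y z ↔ Cx_NA g x y z := by
  rw [PA, Cx_nfR g]
  induction y using Cx_cases with
  | h3 y h => simp [Cx_3 h]
  | _ => simp [Cx_0, Cx_1, Cx_2] <;> omega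

theorem Cx_memA (g : ℕ) : ∀ a : Cell 3, a ∈ cx g (PA g) ↔ Cx_NA g (a 0) (a 1) (a 2) :=
  Cx_mem (Cx_nfA g) fun x y z => by
    refine Cx_imp ?_ ?_ ?_ <;> omega

theorem Cx_downA (g : ℕ) : Down (cx g (PA g)) := by
  refine Cx_down (Cx_memA g) ?_ ?_ ?_ <;> intro x y z w <;> refine Cx_imp ?_ ?_ ?_ <;>
    rintro a b rfl c d (rfl | rfl) <;> unfold Cx_NA Cx_L <;> omega

theorem Cx_nfB (hg : 2 ≤ g) (x y z : ℤ) : PB g x y z ↔ Cx_NB g x y z := by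
  rw [PB, Cx_nfA g]
  induction y using Cx_cases with
  | h3 y h => simp [Cx_3 h]; omega
  | _ => simp [Cx_0, Cx_1, Cx_2] <;> omega

theorem Cx_memB (hg : 2 ≤ g) : ∀ a : Cell 3, a ∈ cx g (PB g) ↔ Cx_NB g (a 0) (a 1) (a 2) :=
  Cx_mem (Cx_nfB hg) fun x y z => by
    refine Cx_imp ?_ ?_ ?_ <;> omega

theorem Cx_downB (hg : 2 ≤ g) : Down (cx g (PB g)) := by
  refine Cx_down (Cx_memB hg) ?_ ?_ ?_ <;> intro x y z w <;> refine Cx_imp ?_ ?_ ?_ <;>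
    rintro a b rfl c d (rfl | rfl) <;> unfold Cx_NB Cx_L <;> omega

theorem Cx_nfC (hg : 2 ≤ g) (x y z : ℤ) : PC g x y z ↔ Cx_NC g x y z := by
  rw [PC, Cx_nfB hg]
  induction y using Cx_cases with
  | h3 y h => simp [Cx_3 h]
  | _ => simp [Cx_0, Cx_1, Cx_2] <;> omega

theorem Cx_memC (hg : 2 ≤ g) : ∀ a : Cell 3, a ∈ cx g (PC g) ↔ Cx_NC g (a 0) (a 1) (a 2) :=
  Cx_mem (Cx_nfC hg) fun x y z => by
    refine Cx_imp ?_ ?_ ?_ <;> omega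

theorem Cx_downC (hg : 2 ≤ g) : Down (cx g (PC g)) := by
  refine Cx_down (Cx_memC hg) ?_ ?_ ?_ <;> intro x y z w <;> refine Cx_imp ?_ ?_ ?_ <;>
    rintro a b rfl c d (rfl | rfl) <;> unfold Cx_NC Cx_L <;> omega

theorem Cx_nfD (hg : 2 ≤ g) (x y z : ℤ) : C.PD g x y z ↔ Cx_ND g x y z := by
  rw [C.PD, Cx_nfC hg]
  induction y using Cx_cases with
  | h3 y h => simp [Cx_3 h]; omega
  | _ => simp [Cx_0, Cx_1, Cx_2] <;> omega

theorem Cx_memD (hg : 2 ≤ g) : ∀ a : Cell 3, a ∈ cx g (C.PD g) ↔ Cx_ND g (a 0) (a 1) (a 2) :=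
  Cx_mem (Cx_nfD hg) fun x y z => by
    refine Cx_imp ?_ ?_ ?_ <;> omega

theorem Cx_downD (hg : 2 ≤ g) : Down (cx g (C.PD g)) := by
  refine Cx_down (Cx_memD hg) ?_ ?_ ?_ <;> intro x y z w <;> refine Cx_imp ?_ ?_ ?_ <;>
    rintro a b rfl c d (rfl | rfl) <;> unfold Cx_ND Cx_L <;> omega

theorem Cx_nfE (hg : 2 ≤ g) (x y z : ℤ) : PE g x y z ↔ Cx_NE g x y z := by
  rw [PE, Cx_nfD hg]
  induction y using Cx_cases with
  | h3 y h => simp [Cx_3 h]; omega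
  | _ => simp [Cx_0, Cx_1, Cx_2] <;> omega

theorem Cx_memE (hg : 2 ≤ g) : ∀ a : Cell 3, a ∈ cx g (PE g) ↔ Cx_NE g (a 0) (a 1) (a 2) :=
  Cx_mem (Cx_nfE hg) fun x y z => by
    refine Cx_imp ?_ ?_ ?_ <;> omega

theorem Cx_downE (hg : 2 ≤ g) : Down (cx g (PE g)) := by
  refine Cx_down (Cx_memE hg) ?_ ?_ ?_ <;> intro x y z w <;> refine Cx_imp ?_ ?_ ?_ <;>
    rintro a b rfl c d (rfl | rfl) <;> unfold Cx_NE Cx_L <;> omega

theorem Cx_nfT (hg : 2 ≤ g) (x y z : ℤ) : PT g x y z ↔ Cx_NT g x y z := by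
  rw [PT, Cx_nfD hg]
  induction y using Cx_cases with
  | h3 y h => simp [Cx_3 h]; omega
  | _ => simp [Cx_0, Cx_1, Cx_2] <;> omega

theorem Cx_memT (hg : 2 ≤ g) : ∀ a : Cell 3, a ∈ cx g (PT g) ↔ Cx_NT g (a 0) (a 1) (a 2) :=
  Cx_mem (Cx_nfT hg) fun x y z => by
    refine Cx_imp ?_ ?_ ?_ <;> omega

theorem Cx_downT (hg : 2 ≤ g) : Down (cx g (PT g)) := by
  refine Cx_down (Cx_memT hg) ?_ ?_ ?_ <;> intro x y z w <;> refine Cx_imp ?_ ?_ ?_ <;>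
    rintro a b rfl c d (rfl | rfl) <;> unfold Cx_NT Cx_L <;> omega

theorem pcol_1 (g : ℕ) : PCol (gr3 g) (cx g (P1 g)) 2 2 (-1) := by
  refine ⟨down_gr 1 g, Cx_down1 g, fun c => ?_, rfl, Or.inr rfl, fun c h1 h2 => ?_⟩
  · rw [Cx_memG g, Cx_mem1 g]
    refine Cx_imp ?_ ?_ ?_ <;> intro a b e <;> simp only [e, Cx_0, Cx_1, Cx_2] <;> omega
  · have q : 0 ≤ c 0 ∧ c 0 ≤ 4 * g + 2 ∧ c 1 = 0 ∧ 1 ≤ c 2 ∧ c 2 ≤ 2 := by
      rw [Cx_memG g] at h2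
      refine Cx_imp ?_ ?_ ?_ ((Cx_mem1 g c).1 h1) <;> intro a b e <;>
        simp only [e, Cx_0, Cx_1, Cx_2] at h2 <;> omega
    simp only [Cx_memG g, Cx_mem1 g, update_self, update_of_ne, ne_eq, Fin.reduceEq,
      not_false_eq_true]
    unfold Cx_NG Cx_N1 Cx_L
    refine ⟨?_, ⟨?_, ?_⟩, ⟨?_, ?_⟩, ?_⟩ <;> omega

theorem pcol_R (g : ℕ) : PCol (cx g (P1 g)) (cx g (PR g)) 2 (-2) 1 := by
  refine ⟨Cx_down1 g, Cx_downR g, fun c => ?_, rfl, Or.inl rfl, fun c h1 h2 => ?_⟩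
  · rw [Cx_mem1 g, Cx_memR g]
    refine Cx_imp ?_ ?_ ?_ <;> intro a b e <;> simp only [e, Cx_0, Cx_1, Cx_2] <;> omega
  · have q : 0 ≤ c 0 ∧ c 0 ≤ 4 * g + 2 ∧ c 1 = 0 ∧ -2 ≤ c 2 ∧ c 2 ≤ -1 := by
      rw [Cx_mem1 g] at h2
      refine Cx_imp ?_ ?_ ?_ ((Cx_memR g c).1 h1) <;> intro a b e <;>
        simp only [e, Cx_0, Cx_1, Cx_2] at h2 <;> omega
    simp only [Cx_mem1 g, Cx_memR g, update_self, update_of_ne, ne_eq, Fin.reduceEq,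
      not_false_eq_true]
    unfold Cx_N1 Cx_NR Cx_L
    refine ⟨?_, ⟨?_, ?_⟩, ⟨?_, ?_⟩, ?_⟩ <;> omega

theorem pcol_A (g : ℕ) : PCol (cx g (PA g)) (cx g (PR g)) 1 2 (-1) := by
  refine ⟨Cx_downA g, Cx_downR g, fun c => ?_, rfl, Or.inr rfl, fun c h1 h2 => ?_⟩
  · rw [Cx_memA g, Cx_memR g]
    refine Cx_imp ?_ ?_ ?_ <;> intro a b e <;> simp only [e, Cx_0, Cx_1, Cx_2] <;> omega
  · have q : c 0 = 0 ∧ 1 ≤ c 1 ∧ c 1 ≤ 2 ∧ c 2 = 0 := by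
      rw [Cx_memA g] at h2
      refine Cx_imp ?_ ?_ ?_ ((Cx_memR g c).1 h1) <;> intro a b e <;>
        simp only [e, Cx_0, Cx_1, Cx_2] at h2 <;> omega
    simp only [Cx_memA g, Cx_memR g, update_self, update_of_ne, ne_eq, Fin.reduceEq,
      not_false_eq_true]
    unfold Cx_NA Cx_NR Cx_L
    refine ⟨?_, ⟨?_, ?_⟩, ⟨?_, ?_⟩, ?_⟩ <;> omega

theorem pcol_B (hg : 2 ≤ g) : PCol (cx g (PA g)) (cx g (PB g)) 1 2 (-1) := by
  refine ⟨Cx_downA g, Cx_downB hg, fun c => ?_, rfl, Or.inr rfl, fun c h1 h2 => ?_⟩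
  · rw [Cx_memA g, Cx_memB hg]
    refine Cx_imp ?_ ?_ ?_ <;> intro a b e <;> simp only [e, Cx_0, Cx_1, Cx_2] <;> omega
  · have q : c 0 = 5 ∧ 1 ≤ c 1 ∧ c 1 ≤ 2 ∧ c 2 = 0 := by
      rw [Cx_memA g] at h2
      refine Cx_imp ?_ ?_ ?_ ((Cx_memB hg c).1 h1) <;> intro a b e <;>
        simp only [e, Cx_0, Cx_1, Cx_2] at h2 <;> omega
    simp only [Cx_memA g, Cx_memB hg, update_self, update_of_ne, ne_eq, Fin.reduceEq,
      not_false_eq_true]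
    unfold Cx_NA Cx_NB Cx_L
    refine ⟨?_, ⟨?_, ?_⟩, ⟨?_, ?_⟩, ?_⟩ <;> omega

theorem pcol_C (hg : 2 ≤ g) : PCol (cx g (PC g)) (cx g (PB g)) 0 6 (-1) := by
  refine ⟨Cx_downC hg, Cx_downB hg, fun c => ?_, rfl, Or.inr rfl, fun c h1 h2 => ?_⟩
  · rw [Cx_memC hg, Cx_memB hg]
    refine Cx_imp ?_ ?_ ?_ <;> intro a b e <;> simp only [e, Cx_0, Cx_1, Cx_2] <;> omega
  · have q : 5 ≤ c 0 ∧ c 0 ≤ 6 ∧ c 1 = 1 ∧ c 2 = 0 := by
      rw [Cx_memC hg] at h2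
      refine Cx_imp ?_ ?_ ?_ ((Cx_memB hg c).1 h1) <;> intro a b e <;>
        simp only [e, Cx_0, Cx_1, Cx_2] at h2 <;> omega
    simp only [Cx_memC hg, Cx_memB hg, update_self, update_of_ne, ne_eq, Fin.reduceEq,
      not_false_eq_true]
    unfold Cx_NC Cx_NB Cx_L
    refine ⟨?_, ⟨?_, ?_⟩, ⟨?_, ?_⟩, ?_⟩ <;> omega

theorem pcol_D (hg : 2 ≤ g) : PCol (cx g (PC g)) (cx g (PD g)) 0 0 1 := by
  refine ⟨Cx_downC hg, Cx_downD hg, fun c => ?_, rfl, Or.inl rfl, fun c h1 h2 => ?_⟩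
  · rw [Cx_memC hg, Cx_memD hg]
    refine Cx_imp ?_ ?_ ?_ <;> intro a b e <;> simp only [e, Cx_0, Cx_1, Cx_2] <;> omega
  · have q : 0 ≤ c 0 ∧ c 0 ≤ 1 ∧ c 1 = 2 ∧ c 2 = 0 := by
      rw [Cx_memC hg] at h2
      refine Cx_imp ?_ ?_ ?_ ((Cx_memD hg c).1 h1) <;> intro a b e <;>
        simp only [e, Cx_0, Cx_1, Cx_2] at h2 <;> omega
    simp only [Cx_memC hg, Cx_memD hg, update_self, update_of_ne, ne_eq, Fin.reduceEq,
      not_false_eq_true]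
    unfold Cx_NC Cx_ND Cx_L
    refine ⟨?_, ⟨?_, ?_⟩, ⟨?_, ?_⟩, ?_⟩ <;> omega

theorem pcol_E (hg : 2 ≤ g) : PCol (cx g (PD g)) (cx g (PE g)) 2 2 (-1) := by
  refine ⟨Cx_downD hg, Cx_downE hg, fun c => ?_, rfl, Or.inr rfl, fun c h1 h2 => ?_⟩
  · rw [Cx_memD hg, Cx_memE hg]
    refine Cx_imp ?_ ?_ ?_ <;> intro a b e <;> simp only [e, Cx_0, Cx_1, Cx_2] <;> omega
  · have q : 0 ≤ c 0 ∧ c 0 ≤ 8 ∧ c 1 = 2 ∧ 1 ≤ c 2 ∧ c 2 ≤ 2 := by
      rw [Cx_memD hg] at h2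
      refine Cx_imp ?_ ?_ ?_ ((Cx_memE hg c).1 h1) <;> intro a b e <;>
        simp only [e, Cx_0, Cx_1, Cx_2] at h2 <;> omega
    simp only [Cx_memD hg, Cx_memE hg, update_self, update_of_ne, ne_eq, Fin.reduceEq,
      not_false_eq_true]
    unfold Cx_ND Cx_NE Cx_L
    refine ⟨?_, ⟨?_, ?_⟩, ⟨?_, ?_⟩, ?_⟩ <;> omega

theorem pcol_T (hg : 2 ≤ g) : PCol (cx g (PE g)) (cx g (PT g)) 2 (-2) 1 := by
  refine ⟨Cx_downE hg, Cx_downT hg, fun c => ?_, rfl, Or.inl rfl, fun c h1 h2 => ?_⟩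
  · rw [Cx_memE hg, Cx_memT hg]
    refine Cx_imp ?_ ?_ ?_ <;> intro a b e <;> simp only [e, Cx_0, Cx_1, Cx_2] <;> omega
  · have q : 0 ≤ c 0 ∧ c 0 ≤ 8 ∧ c 1 = 2 ∧ -2 ≤ c 2 ∧ c 2 ≤ -1 := by
      rw [Cx_memE hg] at h2
      refine Cx_imp ?_ ?_ ?_ ((Cx_memT hg c).1 h1) <;> intro a b e <;>
        simp only [e, Cx_0, Cx_1, Cx_2] at h2 <;> omega
    simp only [Cx_memE hg, Cx_memT hg, update_self, update_of_ne, ne_eq, Fin.reduceEq,
      not_false_eq_true]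
    unfold Cx_NE Cx_NT Cx_L
    refine ⟨?_, ⟨?_, ?_⟩, ⟨?_, ?_⟩, ?_⟩ <;> omega

theorem sym_inv {j : ℕ} (hj : j < g) (a : Cell 3) (h0 : |a 0 - (4 * j + 3)| ≤ 2) (h2 : |a 2| ≤ 2) :
    (a ∈ cx g (PR g) ↔ ![2 * (4 * j + 3) - a 0, a 1, -a 2] ∈ cx g (PR g)) ∧
      ((a 2 ≠ 0 ∨ |a 0 - (4 * j + 3)| = 2) → (a ∈ cx g (PR g) ↔ a 1 ∈ ({0} : Finset ℤ))) := by
  rw [abs_le] at h0 h2
  simp only [Cx_memR g, Matrix.cons_val, Finset.mem_singleton,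
    abs_eq (show (0 : ℤ) ≤ 2 by norm_num)]
  induction a 1 using Cx_cases with
  | h3 y h => simp [Cx_3 h]; omega
  | _ => simp [Cx_0, Cx_1, Cx_2]; omega

theorem sym_swap {j : ℕ} (hj : j + 1 < g) (a : Cell 3) (h0 : |a 0 - (4 * j + 5)| ≤ 4)
    (h2 : |a 2| ≤ 2) :
    (a ∈ cx g (PR g) ↔ ![2 * (4 * j + 5) - a 0, a 1, -a 2] ∈ cx g (PR g)) ∧
      ((a 2 ≠ 0 ∨ |a 0 - (4 * j + 5)| = 4) → (a ∈ cx g (PR g) ↔ a 1 ∈ ({0} : Finset ℤ))) := by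
  rw [abs_le] at h0 h2
  simp only [Cx_memR g, Matrix.cons_val, Finset.mem_singleton,
    abs_eq (show (0 : ℤ) ≤ 4 by norm_num)]
  induction a 1 using Cx_cases with
  | h3 y h => simp [Cx_3 h]; omega
  | _ => simp [Cx_0, Cx_1, Cx_2]; omega

theorem sym_th (hg : 2 ≤ g) (a : Cell 3) (h0 : |a 0 - 3| ≤ 2) (h2 : |a 2| ≤ 2) :
    (a ∈ cx g (PT g) ↔ ![2 * 3 - a 0, a 1, -a 2] ∈ cx g (PT g)) ∧
      ((a 2 ≠ 0 ∨ |a 0 - 3| = 2) → (a ∈ cx g (PT g) ↔ a 1 ∈ ({0, 2} : Finset ℤ))) := by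
  rw [abs_le] at h0 h2
  simp only [Cx_memT hg, Matrix.cons_val, Finset.mem_insert, Finset.mem_singleton,
    abs_eq (show (0 : ℤ) ≤ 2 by norm_num)]
  induction a 1 using Cx_cases with
  | h3 y h => simp [Cx_3 h]; omega
  | _ => simp [Cx_0, Cx_1, Cx_2]; omega

end Pool.Agent.Work.MP_7ba843_gt.C
end
end

-- merged part: Pool.Agent.Work.MP_7ba843_gt.C.Rot
section
/-! The cut off half turns.

PLAN. `exists_rot`: with `u = (x 0 - c) / α`, `w = (x 2 - 1) / (22 / 5)` and the angle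
`φ = σ * π * smoothTransition ((1 - qf c α x) * (25 / 2))` let `R σ x = ![c + α (cos φ u - sin φ w),
x 1, 1 + 22 / 5 (sin φ u + cos φ w)]`; it preserves `qf`, and `R (-1)` is inverse to `R 1`.
`rot_inv`: if `qf ≥ 1` nothing moves. Otherwise `|x 0 - c| < α`, `|x 2 - 1| < 22 / 5`, so every cell
near `x` (in the sense of `FK_congr`) has `|a 0 - q| ≤ n + 1`, `|a 2| ≤ 2`. If `qf ≤ 23 / 25`,
replace `K` by its part in this window (`FK_congr`) and reindex the sum by the involution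
(`Finset.sum_bij'` or `Finset.sum_nbij'`, `psi_refl`). If `23 / 25 ≤ qf < 1`, a cell near `x` cannot
have `a 2 = 0` and `|a 0 - q| ≤ n`, because then `|x 0 - c| < 2 n + 3 / 2`, `|x 2 - 1| < 3 / 2` and
`qf < 23 / 25`; so `FK K x = FK (piFinset ![Icc (q-n-1) (q+n+1), Ys, Icc (-2) 2]) x =
∑ b ∈ Ys, psi b (x 1)` (`FK_prod`, `sum_psi`), and the same holds for `θ x`. About 250 lines. -/

set_option linter.unusedSectionVars false
set_option linter.unusedVariables false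

open Set Filter Topology Function
open scoped ContDiff

noncomputable section
namespace Pool.Agent.Work.MP_7ba843_gt.C

open Pool.Agent.Work.MP_bf98aa_gt.Ns (Dif)
open Pool.Agent.Work.MP_735653_gt Pool.Agent.Work.MP_7ba843_gt.N

/-- the rotation by the angle `φ` -/
def Rot_r (c α φ : ℝ) (x : E3) : E3 :=
  ![c + α * (Real.cos φ * ((x 0 - c) / α) - Real.sin φ * ((x 2 - 1) / (22 / 5))), x 1,
    1 + 22 / 5 * (Real.sin φ * ((x 0 - c) / α) + Real.cos φ * ((x 2 - 1) / (22 / 5)))]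

/-- the angle -/
def Rot_a (c α σ : ℝ) (x : E3) : ℝ :=
  σ * (Real.pi * Real.smoothTransition ((1 - qf c α x) * (25 / 2)))

theorem Rot_0 {c α φ : ℝ} (hα : α ≠ 0) (x : E3) : (Rot_r c α φ x 0 - c) / α =
    Real.cos φ * ((x 0 - c) / α) - Real.sin φ * ((x 2 - 1) / (22 / 5)) := by
  rw [div_eq_iff hα]
  exact (add_sub_cancel_left _ _).trans (mul_comm _ _)

theorem Rot_2 {c α φ : ℝ} (x : E3) : (Rot_r c α φ x 2 - 1) / (22 / 5) =
    Real.sin φ * ((x 0 - c) / α) + Real.cos φ * ((x 2 - 1) / (22 / 5)) := by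
  rw [div_eq_iff (by norm_num)]
  exact (add_sub_cancel_left _ _).trans (mul_comm _ _)

theorem Rot_q {c α φ : ℝ} (hα : α ≠ 0) (x : E3) : qf c α (Rot_r c α φ x) = qf c α x := by
  rw [qf, qf, Rot_0 hα, Rot_2]
  linear_combination (((x 0 - c) / α) ^ 2 + ((x 2 - 1) / (22 / 5)) ^ 2) *
    Real.sin_sq_add_cos_sq φ

theorem Rot_zero {c α : ℝ} (hα : α ≠ 0) (x : E3) : Rot_r c α 0 x = x := by
  ext i
  fin_cases i <;> simp [Rot_r, mul_div_cancel₀, hα]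

theorem Rot_neg {c α φ : ℝ} (hα : α ≠ 0) (x : E3) : Rot_r c α (-φ) (Rot_r c α φ x) = x := by
  rw [Rot_r, Rot_0 hα, Rot_2, Real.cos_neg, Real.sin_neg]
  have h := mul_div_cancel₀ (x 0 - c) hα
  ext i
  fin_cases i
  · change c + _ = x 0
    linear_combination h + α * ((x 0 - c) / α) * Real.sin_sq_add_cos_sq φ
  · rfl
  · change 1 + _ = x 2
    linear_combination (x 2 - 1) * Real.sin_sq_add_cos_sq φ

theorem Rot_s (c α σ : ℝ) : ContDiff ℝ ∞ fun x => Rot_r c α (Rot_a c α σ x) x := by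
  have h : ContDiff ℝ ∞ (Rot_a c α σ) := contDiff_const.mul (contDiff_const.mul
    (Real.smoothTransition.contDiff.comp (f := fun x => (1 - qf c α x) * (25 / 2)) (by
      unfold qf
      fun_prop)))
  refine contDiff_pi.2 fun i => ?_
  fin_cases i
  · change ContDiff ℝ ∞ fun x : E3 => c + α * (Real.cos (Rot_a c α σ x) * ((x 0 - c) / α) -
      Real.sin (Rot_a c α σ x) * ((x 2 - 1) / (22 / 5)))
    fun_prop
  · change ContDiff ℝ ∞ fun x : E3 => x 1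
    fun_prop
  · change ContDiff ℝ ∞ fun x : E3 => 1 + 22 / 5 * (Real.sin (Rot_a c α σ x) * ((x 0 - c) / α) +
      Real.cos (Rot_a c α σ x) * ((x 2 - 1) / (22 / 5)))
    fun_prop

theorem Rot_i {c α : ℝ} (hα : α ≠ 0) (σ : ℝ) (x : E3) :
    Rot_r c α (Rot_a c α (-σ) (Rot_r c α (Rot_a c α σ x) x)) (Rot_r c α (Rot_a c α σ x) x) = x := by
  rw [Rot_a, Rot_q hα, neg_mul]
  exact Rot_neg hα x

theorem exists_rot (c : ℝ) {α : ℝ} (hα : 0 < α) : ∃ θ : Dif E3, IsRot c α θ := by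
  refine ⟨⟨⟨fun x => Rot_r c α (Rot_a c α 1 x) x, fun x => Rot_r c α (Rot_a c α (-1) x) x,
    Rot_i hα.ne' 1, fun x => by simpa only [neg_neg] using Rot_i hα.ne' (-1) x⟩, Rot_s _ _ _,
    Rot_s _ _ _⟩, fun x => Rot_q hα.ne' x, fun x => rfl, fun x hx => ?_, fun x hx => ?_⟩
  · change Rot_r c α (Rot_a c α 1 x) x = _
    rw [Rot_a, Real.smoothTransition.one_of_one_le (by linarith only [hx]), mul_one, one_mul, Rot_r,
      Real.cos_pi, Real.sin_pi]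
    have h := mul_div_cancel₀ (x 0 - c) hα.ne'
    ext i
    fin_cases i
    · change c + _ = 2 * c - x 0
      linear_combination -h
    · rfl
    · change 1 + _ = 2 - x 2
      ring
  · change Rot_r c α (Rot_a c α 1 x) x = _
    rw [Rot_a, Real.smoothTransition.zero_of_nonpos (by linarith only [hx]), mul_zero, mul_zero,
      Rot_zero hα.ne']

theorem Rot_lt {c α : ℝ} (hα : 0 < α) {x : E3} (h : qf c α x < 1) :
    |x 0 - c| < α ∧ |x 2 - 1| < 22 / 5 := by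
  rw [qf] at h
  have h1 := (sq_lt_one_iff_abs_lt_one _).1
    (show ((x 0 - c) / α) ^ 2 < 1 by linarith only [h, sq_nonneg ((x 2 - 1) / (22 / 5))])
  have h2 := (sq_lt_one_iff_abs_lt_one _).1
    (show ((x 2 - 1) / (22 / 5)) ^ 2 < 1 by linarith only [h, sq_nonneg ((x 0 - c) / α)])
  rw [abs_div, abs_of_pos hα, div_lt_one hα] at h1
  rw [abs_div, abs_of_pos (show (0 : ℝ) < 22 / 5 by norm_num), div_lt_one (by norm_num)] at h2
  exact ⟨h1, h2⟩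

theorem Rot_win {n q : ℤ} {x : E3} (h : |x 0 - (2 * q + 1)| < 2 * n + 12 / 5 ∧ |x 2 - 1| < 22 / 5)
    {a : Cell 3} (ha : ∀ i, 2 * (a i : ℝ) - 1 / 2 < x i ∧ x i < 2 * (a i : ℝ) + 5 / 2) :
    |a 0 - q| ≤ n + 1 ∧ |a 2| ≤ 2 := by
  obtain ⟨h1, h2⟩ := abs_lt.1 h.1
  obtain ⟨h3, h4⟩ := abs_lt.1 h.2
  have k1 : a 0 - q < n + 2 := by
    rw [← Int.cast_lt (R := ℝ)]
    push_cast
    linarith only [h2, ha, (ha 0).1]
  have k2 : q - a 0 < n + 2 := by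
    rw [← Int.cast_lt (R := ℝ)]
    push_cast
    linarith only [h1, ha, (ha 0).2]
  have k3 : a 2 < 3 := by
    rw [← Int.cast_lt (R := ℝ)]
    push_cast
    linarith only [h4, ha, (ha 2).1]
  have k4 : -3 < a 2 := by
    rw [← Int.cast_lt (R := ℝ)]
    push_cast
    linarith only [h3, ha, (ha 2).2]
  rw [abs_le, abs_le]
  omega

theorem Rot_mid {n q : ℤ} (hn : n = 1 ∨ n = 3) {K : Finset (Cell 3)} {Ys : Finset ℤ}
    (h : ∀ a : Cell 3, |a 0 - q| ≤ n + 1 → |a 2| ≤ 2 →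
      (a 2 ≠ 0 ∨ |a 0 - q| = n + 1) → (a ∈ K ↔ a 1 ∈ Ys)) {x : E3}
    (h1 : 23 / 25 < qf (2 * q + 1) (2 * n + 12 / 5) x) (h2 : qf (2 * q + 1) (2 * n + 12 / 5) x < 1) :
    FK K x = ∑ b ∈ Ys, psi b (x 1) := by
  have hα : (0 : ℝ) < 2 * n + 12 / 5 := by rcases hn with rfl | rfl <;> norm_num
  have h3 := Rot_lt hα h2
  obtain ⟨h4, h5⟩ := abs_lt.1 h3.1
  obtain ⟨h6, h7⟩ := abs_lt.1 h3.2
  rw [FK_congr (K' := Fintype.piFinset
    ![Finset.Icc (q - n - 1) (q + n + 1), Ys, Finset.Icc (-2) 2]) fun a ha => ?_, FK_prod,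
    Fin.prod_univ_three]
  · change (∑ a ∈ Finset.Icc (q - n - 1) (q + n + 1), _) * (∑ a ∈ Ys, _) *
      ∑ a ∈ Finset.Icc (-2) 2, _ = _
    rw [sum_psi (by omega) (by push_cast; linarith only [h1, h2, h4]) (by push_cast; linarith only [h1, h2, h5]),
      sum_psi (by omega) (by push_cast; linarith only [h1, h2, h6]) (by push_cast; linarith only [h1, h2, h7]), one_mul, mul_one]
  obtain ⟨k1, k2⟩ := Rot_win h3 ha
  rw [h a k1 k2 ?_, Fintype.mem_piFinset]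
  · rw [abs_le] at k1 k2
    refine ⟨fun k i => ?_, fun k => k 1⟩
    fin_cases i
    · exact Finset.mem_Icc.2 ⟨show q - n - 1 ≤ a 0 by omega, show a 0 ≤ q + n + 1 by omega⟩
    · exact k
    · exact Finset.mem_Icc.2 k2
  by_contra k
  rw [not_or, not_not] at k
  obtain ⟨k3, k4⟩ := abs_le.1 (Int.lt_add_one_iff.1 (lt_of_le_of_ne k1 k.2))
  have k5 : (-n : ℝ) ≤ a 0 - q := by exact_mod_cast k3
  have k6 : (a 0 - q : ℝ) ≤ n := by exact_mod_cast k4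
  have k7 := ha 2
  rw [k.1] at k7
  have k8 : (x 0 - (2 * q + 1)) ^ 2 ≤ (2 * n + 3 / 2) ^ 2 :=
    sq_le_sq' (by linarith only [k5, ha, (ha 0).1]) (by linarith only [k6, ha, (ha 0).2])
  have k9 : (x 2 - 1) ^ 2 ≤ (3 / 2) ^ 2 :=
    sq_le_sq' (by push_cast at k7; linarith only [k7, k7.1]) (by push_cast at k7; linarith only [k7, k7.2])
  rw [qf, div_pow, div_pow] at h1
  generalize (x 0 - (2 * q + 1)) ^ 2 = A at h1 k8
  generalize (x 2 - 1) ^ 2 = B at h1 k9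
  rcases hn with rfl | rfl <;> norm_num at h1 k8 k9 <;> linarith only [h1, k8, k9]

theorem rot_inv {n q : ℤ} (hn : n = 1 ∨ n = 3) {θ : Dif E3}
    (hθ : IsRot (2 * q + 1) (2 * n + 12 / 5) θ) {K : Finset (Cell 3)} {Ys : Finset ℤ}
    (h : ∀ a : Cell 3, |a 0 - q| ≤ n + 1 → |a 2| ≤ 2 →
      (a ∈ K ↔ ![2 * q - a 0, a 1, -a 2] ∈ K) ∧
        ((a 2 ≠ 0 ∨ |a 0 - q| = n + 1) → (a ∈ K ↔ a 1 ∈ Ys))) (x : E3) :
    FK K (θ x) = FK K x := by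
  have hα : (0 : ℝ) < 2 * n + 12 / 5 := by rcases hn with rfl | rfl <;> norm_num
  by_cases h1 : 1 ≤ qf (2 * q + 1) (2 * n + 12 / 5) x
  · rw [hθ.out x h1]
  rw [not_le] at h1
  by_cases h2 : 23 / 25 < qf (2 * q + 1) (2 * n + 12 / 5) x
  · rw [Rot_mid hn (fun a k k' => (h a k k').2) h2 h1, Rot_mid hn (fun a k k' => (h a k k').2)
      ((hθ.q x).symm ▸ h2) ((hθ.q x).symm ▸ h1), hθ.y]
  have hi : Involutive fun a : Cell 3 => (![2 * q - a 0, a 1, -a 2] : Cell 3) := fun a => by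
    ext i
    fin_cases i <;> simp
  rw [FK_congr (K' := K.image fun a : Cell 3 => (![2 * q - a 0, a 1, -a 2] : Cell 3)) fun a ha => ?_,
    FK, FK, Finset.sum_image hi.injective.injOn, hθ.rigid x (not_lt.1 h2)]
  · refine Finset.sum_congr rfl fun a _ => ?_
    rw [Fin.prod_univ_three, Fin.prod_univ_three, ← psi_refl (2 * q + 1) (a 0),
      ← psi_refl 1 (a 2)]
    simp
  · obtain ⟨k1, k2⟩ := Rot_win (Rot_lt hα ((hθ.q x).symm ▸ h1)) ha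
    rw [(h a k1 k2).1, Finset.mem_image]
    exact ⟨fun k => ⟨_, k, hi a⟩, fun ⟨b, hb, e⟩ => e ▸ (congrArg (· ∈ K) (hi b)).mpr hb⟩

end Pool.Agent.Work.MP_7ba843_gt.C
end
end

-- merged part: Pool.Agent.Work.MP_7ba843_gt.C.TupA
section
/-! Membership of segments and boxes, and the filling of the notch.

PLAN. `FK_box` shows that the boxes lie in the neighbourhoods: the base
(cells `[0, 4g+2] × 0 × [-2, 2]`), the roof (`[0, 8] × 2 × [-2, 2]`), the wall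
(`[4, 6] × [0, 2] × 0`), teeth and bridges. `tup_fill`: for `j = 1` use `IsPF.tri` in the base
(`p0, (9,1,1), (13,1,1)`), in the wall (`(9,1,1), (9,5,1), (13,1,1), (13,5,1)`) and on the top
line (`(9,5,1), (13,5,1), (17,5,1)`). About 200 lines. -/

set_option linter.unusedSectionVars false
set_option linter.unusedVariables false

open Set Filter Topology Function
open scoped ContDiff

noncomputable section
namespace Pool.Agent.Work.MP_7ba843_gt.C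

open Pool.Agent.Work.MP_bf98aa_gt.Ns (Dif)
open Pool.Agent.Work.MP_735653_gt Pool.Agent.Work.MP_7ba843_gt.N

variable {g : ℕ} {G : Type} [Group G]

/-- the box of a block of cells -/
def TupA_bx (l0 u0 l1 u1 l2 u2 : ℤ) : Set E3 :=
  Bx ![2 * l0 + 1 / 2, 2 * l1 + 1 / 2, 2 * l2 + 1 / 2]
    ![2 * u0 + 3 / 2, 2 * u1 + 3 / 2, 2 * u2 + 3 / 2]

theorem TupA_mem {l0 u0 l1 u1 l2 u2 : ℤ} {x y z : ℝ} :
    (![x, y, z] : E3) ∈ TupA_bx l0 u0 l1 u1 l2 u2 ↔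
      (2 * l0 + 1 / 2 ≤ x ∧ x ≤ 2 * u0 + 3 / 2) ∧ (2 * l1 + 1 / 2 ≤ y ∧ y ≤ 2 * u1 + 3 / 2) ∧
        2 * l2 + 1 / 2 ≤ z ∧ z ≤ 2 * u2 + 3 / 2 :=
  Fin.forall_fin_succ.trans (and_congr Iff.rfl (Fin.forall_fin_succ.trans
    (and_congr Iff.rfl Fin.forall_fin_one)))

theorem TupA_box {K : Finset (Cell 3)} {l0 u0 l1 u1 l2 u2 : ℤ} (h0 : l0 ≤ u0) (h1 : l1 ≤ u1)
    (h2 : l2 ≤ u2) (h : ∀ a : Cell 3, l0 ≤ a 0 → a 0 ≤ u0 → l1 ≤ a 1 → a 1 ≤ u1 → l2 ≤ a 2 →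
      a 2 ≤ u2 → a ∈ K) : TupA_bx l0 u0 l1 u1 l2 u2 ⊆ NK K := fun x hx => by
  have e : FK K x = 1 := FK_box (l := ![l0, l1, l2]) (u := ![u0, u1, u2])
    (fun i => by fin_cases i <;> assumption)
    (fun a ha => h a (ha 0).1 (ha 0).2 (ha 1).1 (ha 1).2 (ha 2).1 (ha 2).2)
    fun i => by fin_cases i; exacts [hx 0, hx 1, hx 2]
  show 1 / 2 ≤ FK K x
  rw [e]
  norm_num

theorem TupA_seg {T : Set E3} {l0 u0 l1 u1 l2 u2 : ℤ} (h : TupA_bx l0 u0 l1 u1 l2 u2 ⊆ T)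
    {a b : E3} (ha : a ∈ TupA_bx l0 u0 l1 u1 l2 u2) (hb : b ∈ TupA_bx l0 u0 l1 u1 l2 u2) :
    IsP T (seg a b) :=
  isP_seg (((Bx_convex _ _).segment_subset ha hb).trans h)

theorem TupA_cx {P : ℤ → ℤ → ℤ → Prop} {a : Cell 3} : a ∈ cx g P ↔
    ((-2 ≤ a 0 ∧ a 0 ≤ 4 * (g : ℤ) + 2) ∧ (-2 ≤ a 1 ∧ a 1 ≤ 4 * (g : ℤ) + 2) ∧
      -2 ≤ a 2 ∧ a 2 ≤ 4 * (g : ℤ) + 2) ∧ P (a 0) (a 1) (a 2) :=
  mem_cx.trans (and_congr (Fin.forall_fin_succ.trans (and_congr Iff.rfl (Fin.forall_fin_succ.trans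
    (and_congr Iff.rfl Fin.forall_fin_one)))) Iff.rfl)

theorem TupA_loop {K : Finset (Cell 3)} {l u : ℤ} {s t : ℝ} (h0 : 0 ≤ l) (hl : l ≤ u)
    (hs : s = 2 * l + 1) (ht : t = 2 * u + 1) (h : ∀ a : Cell 3, a 2 = 0 →
      (0 ≤ a 0 ∧ a 0 ≤ u ∧ a 1 = 0) ∨ ((a 0 = l ∨ a 0 = u) ∧ 0 ≤ a 1 ∧ a 1 ≤ 2) ∨
        (l ≤ a 0 ∧ a 0 ≤ u ∧ a 1 = 2) → a ∈ K) :
    IsP (NK K) (seg p0 ![s, 1, 1]) ∧ IsP (NK K) (seg ![s, 1, 1] ![s, 5, 1]) ∧
      IsP (NK K) (seg ![s, 5, 1] ![t, 5, 1]) ∧ IsP (NK K) (seg ![t, 5, 1] ![t, 1, 1]) ∧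
      IsP (NK K) (seg ![t, 1, 1] p0) := by
  have r0 : (0 : ℝ) ≤ l := by exact_mod_cast h0
  have r1 : (l : ℝ) ≤ u := by exact_mod_cast hl
  have b1 : TupA_bx 0 u 0 0 0 0 ⊆ NK K := TupA_box (h0.trans hl) le_rfl le_rfl
    fun a _ _ _ _ _ _ => h a (by omega) (by omega)
  have b2 : TupA_bx l l 0 2 0 0 ⊆ NK K := TupA_box le_rfl zero_le_two le_rfl
    fun a _ _ _ _ _ _ => h a (by omega) (by omega)
  have b3 : TupA_bx l u 2 2 0 0 ⊆ NK K := TupA_box hl le_rfl le_rfl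
    fun a _ _ _ _ _ _ => h a (by omega) (by omega)
  have b4 : TupA_bx u u 0 2 0 0 ⊆ NK K := TupA_box le_rfl zero_le_two le_rfl
    fun a _ _ _ _ _ _ => h a (by omega) (by omega)
  subst hs ht
  refine ⟨TupA_seg b1 ?_ ?_, TupA_seg b2 ?_ ?_, TupA_seg b3 ?_ ?_, TupA_seg b4 ?_ ?_,
    TupA_seg b1 ?_ ?_⟩ <;> refine TupA_mem.2 ⟨⟨?_, ?_⟩, ⟨?_, ?_⟩, ?_, ?_⟩ <;> push_cast <;> linarith only [r0, r1]

theorem TupA_segs {K : Finset (Cell 3)} {j : ℕ} (h : ∀ a : Cell 3, a 2 = 0 →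
      (0 ≤ a 0 ∧ a 0 ≤ 4 * j + 4 ∧ a 1 = 0) ∨
        ((a 0 = 4 * j + 2 ∨ a 0 = 4 * j + 4) ∧ 0 ≤ a 1 ∧ a 1 ≤ 2) ∨
        (4 * j + 2 ≤ a 0 ∧ a 0 ≤ 4 * j + 4 ∧ a 1 = 2) → a ∈ K) : Segs (NK K) j :=
  TupA_loop (l := 4 * j + 2) (u := 4 * j + 4) (by omega) (by omega) (by push_cast; ring)
    (by push_cast; ring) h

theorem TupA_base (g : ℕ) : Bx ![1 / 2, 1 / 2, -7 / 2] ![8 * g + 11 / 2, 3 / 2, 11 / 2] =
    TupA_bx 0 (4 * g + 2) 0 0 (-2) 2 := by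
  unfold TupA_bx
  push_cast
  ring_nf

theorem base_R (g : ℕ) : Bx ![1 / 2, 1 / 2, -7 / 2] ![8 * g + 11 / 2, 3 / 2, 11 / 2] ⊆
    NK (cx g (PR g)) := by
  rw [TupA_base]
  refine TupA_box (by omega) le_rfl (by omega) fun a _ _ _ _ _ _ => ?_
  simp only [TupA_cx, PR]
  omega

theorem base_T (g : ℕ) : Bx ![1 / 2, 1 / 2, -7 / 2] ![8 * g + 11 / 2, 3 / 2, 11 / 2] ⊆
    NK (cx g (PT g)) := by
  rw [TupA_base]
  refine TupA_box (by omega) le_rfl (by omega) fun a _ _ _ _ _ _ => ?_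
  simp only [TupA_cx, PT, PD, PC, PB, PA, PR]
  omega

theorem roof_T (hg : 2 ≤ g) : Bx ![1 / 2, 9 / 2, -7 / 2] ![35 / 2, 11 / 2, 11 / 2] ⊆
    NK (cx g (PT g)) := by
  have e : Bx ![1 / 2, 9 / 2, -7 / 2] ![35 / 2, 11 / 2, 11 / 2] = TupA_bx 0 8 2 2 (-2) 2 := by
    unfold TupA_bx
    norm_num
  rw [e]
  refine TupA_box (by omega) le_rfl (by omega) fun a _ _ _ _ _ _ => ?_
  refine TupA_cx.2 ⟨by omega, Or.inr ?_⟩
  omega

theorem segs_gr {j : ℕ} (hj : j < g) : Segs (NK (gr3 g)) j := by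
  refine TupA_segs fun a _ _ => ?_
  simp only [mem_gr3, Gp, Tt, Tp]
  omega

theorem segs_1 {j : ℕ} (hj : j < g) : Segs (NK (cx g (P1 g))) j := by
  refine TupA_segs fun a _ _ => TupA_cx.2 ⟨by omega, Or.inl ?_⟩
  simp only [Gp, Tt, Tp]
  omega

theorem segs_A {j : ℕ} (hj : j < g) : Segs (NK (cx g (PA g))) j := by
  refine TupA_segs fun a _ _ => TupA_cx.2 ⟨by omega, Or.inl ?_, by omega⟩
  simp only [Gp, Tt, Tp]
  omega

theorem segs_R {j : ℕ} (hj : j < g) : Segs (NK (cx g (PR g))) j := by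
  refine TupA_segs fun a _ _ => TupA_cx.2 ⟨by omega, Or.inl ?_⟩
  simp only [Gp, Tt, Tp]
  omega

theorem segs_C {j : ℕ} (hj : j < g) (h1 : j ≠ 1) : Segs (NK (cx g (PC g))) j := by
  refine TupA_segs fun a _ _ => TupA_cx.2 ⟨by omega, Or.inl ⟨Or.inl ?_, by omega⟩, by omega⟩
  simp only [Gp, Tt, Tp]
  omega

theorem segsC_C (hg : 2 ≤ g) : SegsC (NK (cx g (PC g))) := by
  refine TupA_loop (l := 4) (u := 8) (by omega) (by omega) (by norm_num) (by norm_num)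
    fun a _ _ => TupA_cx.2 ⟨by omega, ?_, by omega⟩
  simp only [PB, PA, PR, Gp, Tt, Tp]
  omega

theorem tup_fill (hg : 2 ≤ g) {k : (ℝ → E3) → G} (H : IsPF (NK (cx g (PB g))) k) :
    tup g k = tupC g k := by
  funext j
  unfold tup tupC
  split_ifs with hj
  swap
  · rfl
  have b1 : TupA_bx 0 6 0 0 0 0 ⊆ NK (cx g (PB g)) := by
    refine TupA_box (by omega) le_rfl le_rfl fun a _ _ _ _ _ _ => TupA_cx.2 ⟨by omega, ?_⟩
    simp only [PB, PA, PR, Gp, Tt, Tp]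
    omega
  have b2 : TupA_bx 4 6 0 2 0 0 ⊆ NK (cx g (PB g)) := by
    refine TupA_box (by omega) (by omega) le_rfl fun a _ _ _ _ _ _ => TupA_cx.2 ⟨by omega, ?_⟩
    simp only [PB, PA, PR, Gp, Tt, Tp]
    omega
  have b3 : TupA_bx 4 8 2 2 0 0 ⊆ NK (cx g (PB g)) := by
    refine TupA_box (by omega) le_rfl le_rfl fun a _ _ _ _ _ _ => TupA_cx.2 ⟨by omega, ?_⟩
    simp only [PB, PA, PR, Gp, Tt, Tp]
    omega
  have e1 := H.tri b1 (Bx_convex _ _) (a := p0) (b := ![9, 1, 1]) (c := ![13, 1, 1])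
    (TupA_mem.2 (by norm_num)) (TupA_mem.2 (by norm_num)) (TupA_mem.2 (by norm_num))
  have e2 := H.tri b2 (Bx_convex _ _) (a := ![9, 1, 1]) (b := ![13, 1, 1]) (c := ![13, 5, 1])
    (TupA_mem.2 (by norm_num)) (TupA_mem.2 (by norm_num)) (TupA_mem.2 (by norm_num))
  have e3 := H.tri b2 (Bx_convex _ _) (a := ![9, 1, 1]) (b := ![9, 5, 1]) (c := ![13, 5, 1])
    (TupA_mem.2 (by norm_num)) (TupA_mem.2 (by norm_num)) (TupA_mem.2 (by norm_num))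
  have e4 := H.tri b3 (Bx_convex _ _) (a := ![9, 5, 1]) (b := ![13, 5, 1]) (c := ![17, 5, 1])
    (TupA_mem.2 (by norm_num)) (TupA_mem.2 (by norm_num)) (TupA_mem.2 (by norm_num))
  have n1 : 8 * ((1 : ℕ) : ℝ) + 5 = 13 := by norm_num
  have n2 : 8 * ((1 : ℕ) : ℝ) + 9 = 17 := by norm_num
  rw [hj, tj, tc, n1, n2, ← e1, ← e4, mul_assoc (k (seg p0 _)) (k (seg _ ![13, 1, 1])), e2, ← e3]
  simp only [mul_assoc]

end Pool.Agent.Work.MP_7ba843_gt.C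
end
end

-- merged part: Pool.Agent.Work.MP_7ba843_gt.C.TupB
section
/-! The effect of the half turns on the tuples.

PLAN. `TupB_box`: `θ` maps a box `Bx ![x₁, y₁, -7/2] ![x₂, y₂, 11/2]` with `x₁ ≤ c - α`,
`c + α ≤ x₂` into itself (if `qf < 1` use `IsRot.q`, `IsRot.y`). So for `a, b` in the box
`k (θ ∘ seg a b) = k (seg (θ a) (θ b))` by `IsPF.cvx`. On segments inside `qf ≤ 23 / 25` the map is
affine, `θ ∘ seg a b = seg (θ a) (θ b)` on the interval; on segments inside `1 ≤ qf` it is the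
identity (`IsPF.congr`). A vertical segment has constant `qf`; a bridge lies in one of the two
regions. Then `IsPF.seg_inv`. For `tup_th` put `E a = k (seg p0 ![a,1,1]) *
k (seg ![a,1,1] ![a,5,1]) * k (seg ![a,5,1] ![1,5,1])`; by `IsPF.tri` in the roof
`tj k 0 = E 5 * (E 9)⁻¹`, `tc k = E 9 * (E 17)⁻¹`; the same holds for `k ∘ θ` (`IsPF.comap` is not
needed: compute segment by segment), and `θ` exchanges `E 5, E 9` and fixes `E 17`. About 300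
lines. -/

set_option linter.unusedSectionVars false
set_option linter.unusedVariables false

open Set Filter Topology Function
open scoped ContDiff

noncomputable section
namespace Pool.Agent.Work.MP_7ba843_gt.C

open Pool.Agent.Work.MP_bf98aa_gt.Ns (Dif)
open Pool.Agent.Work.MP_735653_gt Pool.Agent.Work.MP_7ba843_gt.N

variable {g : ℕ} {G : Type} [Group G] {k : (ℝ → E3) → G} {θ : Dif E3}

section
variable {c α : ℝ} {S : Set E3}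

theorem TupB_seg (x y x' y' t : ℝ) :
    seg (![x, y, 1] : E3) ![x', y', 1] t = ![x + t * (x' - x), y + t * (y' - y), 1] := by
  funext i
  fin_cases i <;> simp [seg]

theorem TupB_qf (x y : ℝ) : qf c α ![x, y, 1] = ((x - c) / α) ^ 2 := by
  simp [qf]

theorem TupB_in (hθ : IsRot c α θ) (hα : 0 < α) {x : ℝ} (h1 : c - 3 / 4 * α ≤ x)
    (h2 : x ≤ c + 3 / 4 * α) (y : ℝ) : θ ![x, y, 1] = ![2 * c - x, y, 1] := by
  rw [hθ.rigid _ (by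
    rw [TupB_qf, div_pow, div_le_iff₀ (by positivity)]
    linarith only [hα, h1, h2, mul_pos_of_neg_of_neg (Mathlib.Tactic.Linarith.sub_neg_of_lt hα) (Mathlib.Tactic.Linarith.sub_neg_of_lt hα), mul_nonneg_of_nonpos_of_nonpos (Mathlib.Tactic.Linarith.sub_nonpos_of_le h1) (Mathlib.Tactic.Linarith.sub_nonpos_of_le h2)])]
  funext i
  fin_cases i <;> simp
  norm_num

theorem TupB_out (hθ : IsRot c α θ) (hα : 0 < α) {x : ℝ} (h : x ≤ c - α ∨ c + α ≤ x) (y : ℝ) :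
    θ ![x, y, 1] = ![x, y, 1] := by
  refine hθ.out _ ?_
  rw [TupB_qf, div_pow, le_div_iff₀ (by positivity)]
  rcases h with h | h <;> linarith only [hα, h, mul_nonneg_of_nonpos_of_nonpos (le_of_lt (Mathlib.Tactic.Linarith.sub_neg_of_lt hα)) (Mathlib.Tactic.Linarith.sub_nonpos_of_le h), mul_nonneg_of_nonpos_of_nonpos (Mathlib.Tactic.Linarith.sub_nonpos_of_le h) (Mathlib.Tactic.Linarith.sub_nonpos_of_le h)]

theorem TupB_box (hθ : IsRot c α θ) (hα : 0 < α) {x₁ x₂ y₁ y₂ : ℝ} (h1 : x₁ ≤ c - α)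
    (h2 : c + α ≤ x₂) :
    MapsTo θ (Bx ![x₁, y₁, -7 / 2] ![x₂, y₂, 11 / 2]) (Bx ![x₁, y₁, -7 / 2] ![x₂, y₂, 11 / 2]) := by
  intro x hx
  rcases le_or_gt 1 (qf c α x) with h | h
  · rwa [hθ.out x h]
  rw [← hθ.q x, qf] at h
  have h3 : ((θ x 0 - c) / α) ^ 2 < 1 := by linarith only [h, sq_nonneg ((θ x 2 - 1) / (22 / 5)), sq_nonneg (((1 : ℝ) * θ.toFun x (2 : Fin (3 : ℕ)) - (1 : ℝ) * (1 : ℝ)) * ((1 : ℝ) * (5 : ℝ)))]
  have h4 : ((θ x 2 - 1) / (22 / 5)) ^ 2 < 1 := by linarith only [h, sq_nonneg ((θ x 0 - c) / α), sq_nonneg ((1 : ℝ) * ((θ.toFun x (0 : Fin (3 : ℕ)) - c) / α))]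
  rw [sq_lt_one_iff_abs_lt_one, abs_lt, lt_div_iff₀ (by positivity),
    div_lt_iff₀ (by positivity)] at h3 h4
  intro i
  fin_cases i
  · exact ⟨show x₁ ≤ θ x 0 by linarith only [h1, h3, h3.1], show θ x 0 ≤ x₂ by linarith only [h2, h3, h3.2]⟩
  · exact (hθ.y x).symm ▸ hx 1
  · exact ⟨show -7 / 2 ≤ θ x 2 by linarith only [h4, h4.1], show θ x 2 ≤ 11 / 2 by linarith only [h4, h4.2]⟩

theorem TupB_mem {x₁ x₂ y₁ y₂ x y : ℝ} (h1 : x₁ ≤ x) (h2 : x ≤ x₂) (h3 : y₁ ≤ y) (h4 : y ≤ y₂) :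
    (![x, y, 1] : E3) ∈ Bx ![x₁, y₁, -7 / 2] ![x₂, y₂, 11 / 2] := by
  intro i
  fin_cases i
  · exact ⟨h1, h2⟩
  · exact ⟨h3, h4⟩
  · exact ⟨show (-7 / 2 : ℝ) ≤ 1 by norm_num, show (1 : ℝ) ≤ 11 / 2 by norm_num⟩

theorem TupB_cvx (hθ : IsRot c α θ) (hα : 0 < α) (H : IsPF S k) {x₁ x₂ y₁ y₂ : ℝ}
    (hB : Bx ![x₁, y₁, -7 / 2] ![x₂, y₂, 11 / 2] ⊆ S) (h1 : x₁ ≤ c - α) (h2 : c + α ≤ x₂) {a b : E3}
    (ha : a ∈ Bx ![x₁, y₁, -7 / 2] ![x₂, y₂, 11 / 2])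
    (hb : b ∈ Bx ![x₁, y₁, -7 / 2] ![x₂, y₂, 11 / 2]) :
    k (θ ∘ seg a b) = k (seg (θ a) (θ b)) := by
  have := H.cvx hB (Bx_convex _ _) ((isP_seg ((Bx_convex _ _).segment_subset ha hb)).map
    θ.smooth.continuous.continuousOn (TupB_box hθ hα h1 h2))
  rwa [comp_apply, comp_apply, seg_zero, seg_one] at this

theorem TupB_seg_in (hθ : IsRot c α θ) (hα : 0 < α) (H : IsPF S k) {x x' : ℝ}
    (h1 : c - 3 / 4 * α ≤ x) (h2 : x ≤ c + 3 / 4 * α) (h3 : c - 3 / 4 * α ≤ x')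
    (h4 : x' ≤ c + 3 / 4 * α) (y y' : ℝ) :
    k (θ ∘ seg ![x, y, 1] ![x', y', 1]) = k (seg ![2 * c - x, y, 1] ![2 * c - x', y', 1]) := by
  refine H.congr _ _ fun t ht => ?_
  rw [comp_apply, TupB_seg, TupB_seg, TupB_in hθ hα (by linarith only [h1, ht, h3, ht.1, ht.2, mul_nonneg_of_nonpos_of_nonpos (Mathlib.Tactic.Linarith.sub_nonpos_of_le h1) (Mathlib.Tactic.Linarith.sub_nonpos_of_le ht.right), mul_nonneg_of_nonpos_of_nonpos (Mathlib.Tactic.Linarith.sub_nonpos_of_le h3) (Mathlib.Tactic.Linarith.sub_nonpos_of_le ht.left)])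
    (by linarith only [h2, ht, h4, ht.1, ht.2, mul_nonneg_of_nonpos_of_nonpos (Mathlib.Tactic.Linarith.sub_nonpos_of_le h2) (Mathlib.Tactic.Linarith.sub_nonpos_of_le ht.right), mul_nonneg_of_nonpos_of_nonpos (Mathlib.Tactic.Linarith.sub_nonpos_of_le h4) (Mathlib.Tactic.Linarith.sub_nonpos_of_le ht.left)]), show 2 * c - (x + t * (x' - x)) =
      2 * c - x + t * (2 * c - x' - (2 * c - x)) by ring]

theorem TupB_seg_out (hθ : IsRot c α θ) (hα : 0 < α) (H : IsPF S k) {x x' : ℝ}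
    (h : (x ≤ c - α ∧ x' ≤ c - α) ∨ (c + α ≤ x ∧ c + α ≤ x')) (y y' : ℝ) :
    k (θ ∘ seg ![x, y, 1] ![x', y', 1]) = k (seg ![x, y, 1] ![x', y', 1]) := by
  refine H.congr _ _ fun t ht => ?_
  rw [comp_apply, TupB_seg, TupB_out hθ hα (h.imp (fun h => by linarith only [h, ht, ht.1, ht.2, h.1, h.2, mul_nonneg_of_nonpos_of_nonpos (Mathlib.Tactic.Linarith.sub_nonpos_of_le h.left) (Mathlib.Tactic.Linarith.sub_nonpos_of_le ht.right), mul_nonneg_of_nonpos_of_nonpos (Mathlib.Tactic.Linarith.sub_nonpos_of_le h.right) (Mathlib.Tactic.Linarith.sub_nonpos_of_le ht.left)])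
    fun h => by linarith only [h, ht, ht.1, ht.2, h.1, h.2, mul_nonneg_of_nonpos_of_nonpos (Mathlib.Tactic.Linarith.sub_nonpos_of_le h.left) (Mathlib.Tactic.Linarith.sub_nonpos_of_le ht.right), mul_nonneg_of_nonpos_of_nonpos (Mathlib.Tactic.Linarith.sub_nonpos_of_le h.right) (Mathlib.Tactic.Linarith.sub_nonpos_of_le ht.left)])]

/-- the loop through the teeth at `x` and `x'` -/
def TupB_L (k : (ℝ → E3) → G) (x x' : ℝ) : G :=
  k (seg ![1, 1, 1] ![x, 1, 1]) * k (seg ![x, 1, 1] ![x, 5, 1]) * k (seg ![x, 5, 1] ![x', 5, 1]) *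
    k (seg ![x', 5, 1] ![x', 1, 1]) * k (seg ![x', 1, 1] ![1, 1, 1])

theorem TupB_tj (k : (ℝ → E3) → G) (j : ℕ) : tj k j = TupB_L k (8 * j + 5) (8 * j + 9) := rfl

theorem TupB_inv (H : IsPF S k) {j : ℕ} (hj : Segs S j) :
    TupB_L k (8 * j + 9) (8 * j + 5) = (tj k j)⁻¹ := by
  obtain ⟨h1, h2, h3, h4, h5⟩ := hj
  have e1 := H.seg_inv h1
  have e5 := H.seg_inv h5
  rw [p0] at e1 e5
  rw [TupB_tj, TupB_L, TupB_L, e1, H.seg_inv h2, H.seg_inv h3, H.seg_inv h4, e5]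
  group

variable (hθ : IsRot c α θ) (hα : 0 < α) (H : IsPF S k) {X : ℝ}
  (hB : Bx ![1 / 2, 1 / 2, -7 / 2] ![X, 3 / 2, 11 / 2] ⊆ S) (hc : 1 ≤ c - α) (hX : c + α ≤ X)
include hθ hα H hB hc hX

theorem TupB_base {x x' : ℝ} (h1 : 1 / 2 ≤ x) (h2 : x ≤ X) (h : θ ![x, 1, 1] = ![x', 1, 1]) :
    k (θ ∘ seg ![1, 1, 1] ![x, 1, 1]) = k (seg ![1, 1, 1] ![x', 1, 1]) ∧
      k (θ ∘ seg ![x, 1, 1] ![1, 1, 1]) = k (seg ![x', 1, 1] ![1, 1, 1]) := by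
  have ha : (![1, 1, 1] : E3) ∈ Bx ![1 / 2, 1 / 2, -7 / 2] ![X, 3 / 2, 11 / 2] :=
    TupB_mem (by norm_num) (by linarith only [hα, hc, hX]) (by norm_num) (by norm_num)
  have hb : (![x, 1, 1] : E3) ∈ Bx ![1 / 2, 1 / 2, -7 / 2] ![X, 3 / 2, 11 / 2] :=
    TupB_mem h1 h2 (by norm_num) (by norm_num)
  rw [TupB_cvx hθ hα H hB (by linarith only [hc]) hX ha hb, TupB_cvx hθ hα H hB (by linarith only [hc]) hX hb ha, h,
    TupB_out hθ hα (Or.inl hc)]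
  exact ⟨rfl, rfl⟩

theorem TupB_L_in {x x' u u' : ℝ} (h1 : c - 3 / 4 * α ≤ x) (h2 : x ≤ c + 3 / 4 * α)
    (h3 : c - 3 / 4 * α ≤ x') (h4 : x' ≤ c + 3 / 4 * α) (e : 2 * c - x = u)
    (e' : 2 * c - x' = u') : TupB_L (fun c => k (θ ∘ c)) x x' = TupB_L k u u' := by
  subst e e'
  simp only [TupB_L]
  rw [(TupB_base hθ hα H hB hc hX (by linarith only [hα, hc, h1]) (by linarith only [hα, hX, h2]) (TupB_in hθ hα h1 h2 1)).1,
    (TupB_base hθ hα H hB hc hX (by linarith only [hα, hc, h3]) (by linarith only [hα, hX, h4]) (TupB_in hθ hα h3 h4 1)).2,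
    TupB_seg_in hθ hα H h1 h2 h1 h2, TupB_seg_in hθ hα H h1 h2 h3 h4,
    TupB_seg_in hθ hα H h3 h4 h3 h4]

theorem TupB_L_out {j : ℕ} (h : (8 * j + 9 : ℝ) ≤ c - α ∨ c + α ≤ 8 * j + 5)
    (hj : (8 * j + 9 : ℝ) ≤ X) : tj (fun c => k (θ ∘ c)) j = tj k j := by
  have h0 : (0 : ℝ) ≤ j := Nat.cast_nonneg j
  have h1 : (8 * j + 5 : ℝ) ≤ c - α ∨ c + α ≤ 8 * j + 5 := h.imp_left fun h => by linarith only [h]
  have h2 : (8 * j + 9 : ℝ) ≤ c - α ∨ c + α ≤ 8 * j + 9 := h.imp_right fun h => by linarith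
  simp only [TupB_tj, TupB_L]
  rw [(TupB_base hθ hα H hB hc hX (by linarith only []) (by linarith) (TupB_out hθ hα h1 1)).1,
    (TupB_base hθ hα H hB hc hX (by linarith only []) (by linarith) (TupB_out hθ hα h2 1)).2,
    TupB_seg_out hθ hα H (h1.imp (fun h => ⟨h, h⟩) fun h => ⟨h, h⟩),
    TupB_seg_out hθ hα H (h2.imp (fun h => ⟨h, h⟩) fun h => ⟨h, h⟩),
    TupB_seg_out hθ hα H (h.imp (fun h => ⟨by linarith, h⟩) fun h => ⟨h, by linarith⟩)]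

end

theorem TupB_cast {a b : ℕ} (h : a + 1 ≤ b) : (a : ℝ) + 1 ≤ b := by exact_mod_cast h

theorem tup_inv (i : Fin g) (hθ : IsRot (8 * i.1 + 7) (22 / 5) θ) (H : IsPF (NK (cx g (PR g))) k) :
    tup g (fun c => k (θ ∘ c)) = mInv i (tup g k) := by
  have h0 : (0 : ℝ) ≤ i.1 := Nat.cast_nonneg _
  have h1 := TupB_cast i.2
  funext m
  by_cases hm : m = i
  · subst hm
    rw [mInv, update_self, tup, tup, TupB_tj, ← TupB_inv H (segs_R m.2)]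
    exact TupB_L_in hθ (by norm_num) H (base_R g) (by linarith only []) (by linarith only [h1]) (by linarith only [])
      (by linarith only []) (by linarith only []) (by linarith only []) (by ring) (by ring)
  · rw [mInv, update_of_ne hm]
    have h2 := TupB_cast m.2
    refine TupB_L_out hθ (by norm_num) H (base_R g) (by linarith only []) (by linarith only [h1]) ?_ (by linarith only [h2])
    rcases lt_or_gt_of_ne (Fin.val_ne_of_ne hm) with h | h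
    · exact Or.inl (by linarith only [h, TupB_cast h])
    · exact Or.inr (by linarith only [h, TupB_cast h])

theorem tup_swap {i j : Fin g} (hij : j.1 = i.1 + 1) (hθ : IsRot (8 * i.1 + 11) (42 / 5) θ)
    (H : IsPF (NK (cx g (PR g))) k) : tup g (fun c => k (θ ∘ c)) = mSwap i j (tup g k) := by
  have h0 : (0 : ℝ) ≤ i.1 := Nat.cast_nonneg _
  have h1 := TupB_cast j.2
  have e : (j.1 : ℝ) = i.1 + 1 := by exact_mod_cast hij
  funext m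
  by_cases hm : m = j
  · subst hm
    rw [mSwap, update_self, tup, tup, TupB_tj, ← TupB_inv H (segs_R i.2)]
    exact TupB_L_in hθ (by norm_num) H (base_R g) (by linarith only []) (by linarith only [h1, e]) (by linarith only [e])
      (by linarith only [e]) (by linarith only [e]) (by linarith only [e]) (by linarith only [e]) (by linarith only [e])
  rw [mSwap, update_of_ne hm]
  by_cases hm' : m = i
  · subst hm'
    rw [update_self, tup, tup, TupB_tj, ← TupB_inv H (segs_R j.2)]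
    exact TupB_L_in hθ (by norm_num) H (base_R g) (by linarith only []) (by linarith only [h1, e]) (by linarith only [])
      (by linarith only []) (by linarith only []) (by linarith only []) (by linarith only [e]) (by linarith only [e])
  · rw [update_of_ne hm']
    have h2 := TupB_cast m.2
    refine TupB_L_out hθ (by norm_num) H (base_R g) (by linarith only []) (by linarith only [h1, e]) ?_ (by linarith only [h2])
    rcases lt_or_gt_of_ne (Fin.val_ne_of_ne hm') with h | h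
    · exact Or.inl (by linarith only [h, TupB_cast h])
    · have h3 : j.1 + 1 ≤ m.1 := by
        have := Fin.val_ne_of_ne hm
        omega
      exact Or.inr (by linarith only [e, h3, TupB_cast h3])

theorem tup_th {i j : Fin g} (hi : i.1 = 0) (hj : j.1 = 1) (hθ : IsRot 7 (22 / 5) θ)
    (H : IsPF (NK (cx g (PT g))) k) : tupC g (fun c => k (θ ∘ c)) = mTh i j (tupC g k) := by
  have hg : 2 ≤ g := by
    have := j.2
    omega
  have hg' : (2 : ℝ) ≤ g := by exact_mod_cast hg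
  have hα : (0 : ℝ) < 22 / 5 := by norm_num
  have hS : NK (cx g (PC g)) ⊆ NK (cx g (PT g)) :=
    NK_mono ((pcol_D hg).sub.trans ((pcol_E hg).sub.trans (pcol_T hg).sub))
  have ei (k : (ℝ → E3) → G) : tupC g k i = tj k i := if_neg (by omega)
  have ej (k : (ℝ → E3) → G) : tupC g k j = TupB_L k 9 17 := if_pos hj
  have e0 (k : (ℝ → E3) → G) : tj k i = TupB_L k 5 9 := by
    rw [TupB_tj, hi]
    norm_num
  funext m
  by_cases hm : m = j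
  · subst hm
    obtain ⟨h1, h2, -⟩ := segsC_C hg
    have e1 := H.seg_inv (h1.mono hS)
    have h9 : θ ![9, 1, 1] = ![5, 1, 1] := by
      rw [TupB_in hθ hα (by norm_num) (by norm_num)]
      norm_num
    have h9' : θ ![9, 5, 1] = ![5, 5, 1] := by
      rw [TupB_in hθ hα (by norm_num) (by norm_num)]
      norm_num
    have h17 : (17 : ℝ) ≤ 7 - 22 / 5 ∨ (7 : ℝ) + 22 / 5 ≤ 17 := Or.inr (by norm_num)
    have hm (x : ℝ) (h1 : 1 / 2 ≤ x) (h2 : x ≤ 35 / 2) :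
        (![x, 5, 1] : E3) ∈ Bx ![1 / 2, 9 / 2, -7 / 2] ![35 / 2, 11 / 2, 11 / 2] :=
      TupB_mem h1 h2 (by norm_num) (by norm_num)
    rw [p0] at e1
    rw [mTh, update_self, ei, ej, ej, e0]
    simp only [TupB_L]
    rw [(TupB_base hθ hα H (base_T g) (by norm_num) (by linarith only [hg']) (by norm_num) (by linarith only [hg']) h9).1,
      (TupB_base hθ hα H (base_T g) (by norm_num) (by linarith only [hg']) (by norm_num) (by linarith only [hg'])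
        (TupB_out hθ hα h17 1)).2,
      TupB_seg_out hθ hα H (h17.imp (fun h => ⟨h, h⟩) fun h => ⟨h, h⟩),
      TupB_seg_in hθ hα H (x := 9) (x' := 9) (by norm_num) (by norm_num) (by norm_num)
        (by norm_num),
      TupB_cvx hθ hα H (roof_T hg) (by norm_num) (by norm_num) (hm 9 (by norm_num) (by norm_num))
        (hm 17 (by norm_num) (by norm_num)), h9', TupB_out hθ hα h17,
      ← H.tri (roof_T hg) (Bx_convex _ _) (hm 5 (by norm_num) (by norm_num))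
        (hm 9 (by norm_num) (by norm_num)) (hm 17 (by norm_num) (by norm_num)),
      e1, H.seg_inv (h2.mono hS), show (2 * 7 - 9 : ℝ) = 5 by norm_num]
    group
  rw [mTh, update_of_ne hm]
  by_cases hm' : m = i
  · subst hm'
    have h0 : (m.1 : ℝ) = 0 := by exact_mod_cast hi
    rw [update_self, ei, ei, TupB_tj, ← TupB_inv H ((segs_C m.2 (by omega)).mono hS)]
    exact TupB_L_in hθ hα H (base_T g) (by linarith only []) (by linarith only [hg']) (by linarith only [])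
      (by linarith only [h0]) (by linarith only []) (by linarith only [h0]) (by linarith only [h0]) (by linarith only [h0])
  · have h1 := Fin.val_ne_of_ne hm
    have h2 := Fin.val_ne_of_ne hm'
    have h3 := TupB_cast m.2
    have h4 : (1 : ℝ) ≤ m.1 := by exact_mod_cast (show 1 ≤ m.1 by omega)
    rw [update_of_ne hm', tupC, tupC, if_neg (by omega), if_neg (by omega)]
    exact TupB_L_out hθ hα H (base_T g) (by linarith only []) (by linarith only [hg']) (Or.inr (by linarith only [h4]))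
      (by linarith only [h3])

end Pool.Agent.Work.MP_7ba843_gt.C
end
end
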